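import Mathlib

-- part Pool.Agent.P.MP_0f6e60_lc.Game
section

set_option autoImplicit false

namespace Pool.Agent.P.MP_0f6e60_lc

open Finset

variable {n : ℕ} {ι : Type} [Fintype ι] [DecidableEq ι]

/-- Variables occurring in the clauses with index in `K`. -/
def vars (c : ι → Finset (Fin n × Bool)) (K : Finset ι) : Finset (Fin n) :=
  K.biUnion fun i => (c i).image Prod.fst

/-- Clause `i` is not satisfied by `z` restricted to `T`. -/
def Uns (c : ι → Finset (Fin n × Bool)) (z : Fin n → Bool) (T : Finset (Fin n)) (i : ι) : Prop :=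
  ∀ l ∈ c i, l.1 ∈ T → z l.1 ≠ l.2

/-- Small sets of unsatisfied clauses have many free variables. -/
def Expands (c : ι → Finset (Fin n × Bool)) (s r : ℕ) (z : Fin n → Bool) (T : Finset (Fin n)) :
    Prop :=
  ∀ K : Finset ι, K.card ≤ s → (∀ i ∈ K, Uns c z T i) → r * K.card ≤ (vars c K \ T).card

/-- Few clauses lie inside a set of at most `a` literals. -/
def Sparse (c : ι → Finset (Fin n × Bool)) (s a : ℕ) : Prop :=
  ∀ A : Finset (Fin n × Bool), A.card ≤ a → ∀ K : Finset ι, (∀ i ∈ K, c i ⊆ A) → K.card < s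

omit [Fintype ι] [DecidableEq ι] in
lemma mem_vars {c : ι → Finset (Fin n × Bool)} {K : Finset ι} {v : Fin n} :
    v ∈ vars c K ↔ ∃ i ∈ K, ∃ l ∈ c i, l.1 = v := by
  simp only [vars, mem_biUnion, mem_image]

omit [Fintype ι] in
lemma vars_union (c : ι → Finset (Fin n × Bool)) (K L : Finset ι) :
    vars c (K ∪ L) = vars c K ∪ vars c L := by
  ext v
  simp only [mem_vars, mem_union]
  constructor
  · rintro ⟨i, hi | hi, h⟩
    · exact Or.inl ⟨i, hi, h⟩
    · exact Or.inr ⟨i, hi, h⟩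
  · rintro (⟨i, hi, h⟩ | ⟨i, hi, h⟩)
    · exact ⟨i, Or.inl hi, h⟩
    · exact ⟨i, Or.inr hi, h⟩

omit [Fintype ι] in
lemma hall_sat {c : ι → Finset (Fin n × Bool)} {s : ℕ} {z : Fin n → Bool} {T : Finset (Fin n)}
    (h : Expands c s 1 z T) {N : Finset ι} (hN : N.card ≤ s) :
    ∃ z' : Fin n → Bool, (∀ v, v ∈ T ∨ v ∉ vars c N → z' v = z v) ∧
      ∀ i ∈ N, ∃ l ∈ c i, z' l.1 = l.2 := by
  classical
  let M := N.filter fun i => Uns c z T i
  let t : {i // i ∈ M} → Finset (Fin n) := fun i => (c i.1).image Prod.fst \ T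
  have hh : ∀ S : Finset {i // i ∈ M}, S.card ≤ (S.biUnion t).card := by
    intro S
    have h1 := h (S.map (Function.Embedding.subtype _)) (by
      rw [card_map]
      calc S.card ≤ Fintype.card {i // i ∈ M} := card_le_univ S
        _ = M.card := Fintype.card_coe M
        _ ≤ N.card := card_filter_le _ _
        _ ≤ s := hN) (by
      intro i hi
      obtain ⟨j, -, rfl⟩ := mem_map.1 hi
      exact (mem_filter.1 j.2).2)
    rw [card_map, one_mul] at h1
    refine h1.trans (card_le_card ?_)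
    intro v hv
    obtain ⟨hv1, hv2⟩ := mem_sdiff.1 hv
    obtain ⟨i, hi, l, hl, rfl⟩ := mem_vars.1 hv1
    obtain ⟨j, hj, rfl⟩ := mem_map.1 hi
    exact mem_biUnion.2 ⟨j, hj, mem_sdiff.2 ⟨mem_image_of_mem _ hl, hv2⟩⟩
  obtain ⟨f, hf, hft⟩ := (all_card_le_biUnion_card_iff_exists_injective t).1 hh
  have hl : ∀ x : {i // i ∈ M}, ∃ l ∈ c x.1, l.1 = f x := fun x => by
    obtain ⟨l, hl, e⟩ := mem_image.1 (mem_sdiff.1 (hft x)).1
    exact ⟨l, hl, e⟩
  choose lit hlit hlf using hl
  refine ⟨fun v => if h : ∃ x, f x = v then (lit h.choose).2 else z v, ?_, ?_⟩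
  · intro v hv
    have : ¬ ∃ x, f x = v := by
      rintro ⟨x, rfl⟩
      rcases hv with hv | hv
      · exact (mem_sdiff.1 (hft x)).2 hv
      · exact hv (mem_vars.2 ⟨x.1, (mem_filter.1 x.2).1, lit x, hlit x, hlf x⟩)
    simp only [dif_neg this]
  · intro i hi
    by_cases hu : Uns c z T i
    · let x : {i // i ∈ M} := ⟨i, mem_filter.2 ⟨hi, hu⟩⟩
      refine ⟨lit x, hlit x, ?_⟩
      have he : ∃ y, f y = (lit x).1 := ⟨x, (hlf x).symm⟩
      have : he.choose = x := hf (he.choose_spec.trans (hlf x))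
      simp only [dif_pos he, this]
    · unfold Uns at hu
      push Not at hu
      obtain ⟨l, hl, hT, e⟩ := hu
      refine ⟨l, hl, ?_⟩
      have : ¬ ∃ x, f x = l.1 := by
        rintro ⟨x, hx⟩
        exact (mem_sdiff.1 (hft x)).2 (hx ▸ hT)
      simp only [dif_neg this, e]

/-- Bookkeeping of one phase. -/
structure St (c : ι → Finset (Fin n × Bool)) (s : ℕ) (z : Fin n → Bool) (B U : Finset (Fin n))
    (K : Finset ι) : Prop where
  hU : U.card ≤ 2 * K.card
  hK : ∀ i ∈ K, ∀ l ∈ c i, l.1 ∈ U ∨ (l.1 ∈ B ∧ z l.1 ≠ l.2)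
  hsat : ∀ i ∈ K, ∃ l ∈ c i, l.1 ∈ B ∪ U ∧ z l.1 = l.2
  hs : K.card < s

lemma closure {c : ι → Finset (Fin n × Bool)} {s a : ℕ} (hS : Sparse c s a)
    {z : Fin n → Bool} {B U T : Finset (Fin n)} {K : Finset ι} (h : St c s z B U K)
    (hT : B ∪ U ⊆ T) (hE : Expands c s 1 z T) (hB : B.card + 8 * s ≤ a) :
    ∃ z' U' K', St c s z' B U' K' ∧ U ⊆ U' ∧ (∀ v, v ∈ T ∨ v ∉ U' → z' v = z v) ∧
      Expands c s 2 z' (B ∪ U') := by
  classical
  have small : ∀ N : Finset ι, Disjoint K N → (∀ i ∈ N, Uns c z (B ∪ U) i) →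
      (vars c N \ (B ∪ U)).card ≤ 2 * N.card → K.card + N.card ≤ 2 * s →
      K.card + N.card < s := by
    intro N hd hu hv hc
    let W := U ∪ (vars c N \ (B ∪ U))
    have hW : W.card ≤ 4 * s := by
      have := card_union_le U (vars c N \ (B ∪ U))
      have := h.hU
      simp only [W]; omega
    let A : Finset (Fin n × Bool) := B.image (fun v => (v, !z v)) ∪ W ×ˢ univ
    have hA : A.card ≤ a := by
      have h1 := card_union_le (B.image (fun v => (v, !z v))) (W ×ˢ (univ : Finset Bool))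
      have h2 : (B.image (fun v => (v, !z v))).card ≤ B.card := card_image_le
      have h3 : (W ×ˢ (univ : Finset Bool)).card = W.card * 2 := by simp
      simp only [A]; omega
    have hfalse : ∀ l : Fin n × Bool, l.1 ∈ B → z l.1 ≠ l.2 → l ∈ A := by
      rintro ⟨v, b⟩ h1 h2
      refine mem_union_left _ (mem_image.2 ⟨v, h1, ?_⟩)
      simp only at h2
      cases b <;> cases hz : z v <;> simp_all
    have hin : ∀ l : Fin n × Bool, l.1 ∈ W → l ∈ A := fun l h1 =>
      mem_union_right _ (mem_product.2 ⟨h1, mem_univ _⟩)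
    have := hS A hA (K ∪ N) (by
      intro i hi l hl
      rcases mem_union.1 hi with hi | hi
      · rcases h.hK i hi l hl with h1 | h1
        · exact hin l (mem_union_left _ h1)
        · exact hfalse l h1.1 h1.2
      · by_cases h1 : l.1 ∈ U
        · exact hin l (mem_union_left _ h1)
        · by_cases h2 : l.1 ∈ B
          · exact hfalse l h2 (hu i hi l hl (mem_union_left _ h2))
          · exact hin l (mem_union_right _ (mem_sdiff.2 ⟨mem_vars.2 ⟨i, hi, l, hl, rfl⟩, by
              simp [h1, h2]⟩)))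
    rwa [card_union_of_disjoint hd] at this
  obtain ⟨N, hN, hmax⟩ := exists_max_image (univ.filter fun N : Finset ι => Disjoint K N ∧
    (∀ i ∈ N, Uns c z (B ∪ U) i) ∧ (vars c N \ (B ∪ U)).card ≤ 2 * N.card ∧
      K.card + N.card < s) card ⟨∅, by simpa [vars] using h.hs⟩
  obtain ⟨hd, hu, hv, hc⟩ := (mem_filter.1 hN).2
  obtain ⟨z', hz, hsat⟩ := hall_sat hE (N := N) (by omega)
  have hzT : ∀ v ∈ B ∪ U, z' v = z v := fun v hv => hz v (Or.inl (hT hv))
  have hst : St c s z' B (U ∪ (vars c N \ (B ∪ U))) (K ∪ N) := by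
    refine ⟨?_, ?_, ?_, ?_⟩
    · have := card_union_le U (vars c N \ (B ∪ U))
      have := h.hU
      rw [card_union_of_disjoint hd]; omega
    · intro i hi l hl
      rcases mem_union.1 hi with hi | hi
      · rcases h.hK i hi l hl with h1 | h1
        · exact Or.inl (mem_union_left _ h1)
        · exact Or.inr ⟨h1.1, by rw [hzT _ (mem_union_left _ h1.1)]; exact h1.2⟩
      · by_cases h1 : l.1 ∈ U
        · exact Or.inl (mem_union_left _ h1)
        · by_cases h2 : l.1 ∈ B
          · exact Or.inr ⟨h2, by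
              rw [hzT _ (mem_union_left _ h2)]; exact hu i hi l hl (mem_union_left _ h2)⟩
          · exact Or.inl (mem_union_right _ (mem_sdiff.2 ⟨mem_vars.2 ⟨i, hi, l, hl, rfl⟩, by
              simp [h1, h2]⟩))
    · intro i hi
      rcases mem_union.1 hi with hi | hi
      · obtain ⟨l, hl, h1, h2⟩ := h.hsat i hi
        refine ⟨l, hl, ?_, by rw [hzT _ h1]; exact h2⟩
        rcases mem_union.1 h1 with h1 | h1
        · exact mem_union_left _ h1
        · exact mem_union_right _ (mem_union_left _ h1)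
      · obtain ⟨l, hl, h1⟩ := hsat i hi
        refine ⟨l, hl, ?_, h1⟩
        have : l.1 ∈ vars c N := mem_vars.2 ⟨i, hi, l, hl, rfl⟩
        simp only [mem_union, mem_sdiff]
        tauto
    · rw [card_union_of_disjoint hd]; exact hc
  refine ⟨z', _, _, hst, subset_union_left, ?_, ?_⟩
  · intro v hv
    rcases hv with hv | hv
    · exact hz v (Or.inl hv)
    · by_cases h1 : v ∈ vars c N
      · refine hz v (Or.inl (hT ?_))
        by_contra h2
        exact hv (mem_union_right _ (mem_sdiff.2 ⟨h1, h2⟩))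
      · exact hz v (Or.inr h1)
  · intro L hL hLu
    by_contra hlt
    push Not at hlt
    have hdL : Disjoint (K ∪ N) L := by
      rw [disjoint_left]
      intro i hi hiL
      obtain ⟨l, hl, h1, h2⟩ := hst.hsat i hi
      exact hLu i hiL l hl h1 h2
    have hd1 : Disjoint K L := hdL.mono_left subset_union_left
    have hd2 : Disjoint N L := hdL.mono_left subset_union_right
    have hcard : (N ∪ L).card = N.card + L.card := card_union_of_disjoint hd2
    have h1 : Disjoint K (N ∪ L) := disjoint_union_right.2 ⟨hd, hd1⟩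
    have h2 : ∀ i ∈ N ∪ L, Uns c z (B ∪ U) i := by
      intro i hi
      rcases mem_union.1 hi with hi | hi
      · exact hu i hi
      · intro l hl hl1
        rw [← hzT _ hl1]
        refine hLu i hi l hl ?_
        rcases mem_union.1 hl1 with h1 | h1
        · exact mem_union_left _ h1
        · exact mem_union_right _ (mem_union_left _ h1)
    have h3 : (vars c (N ∪ L) \ (B ∪ U)).card ≤ 2 * (N ∪ L).card := by
      have : vars c (N ∪ L) \ (B ∪ U) ⊆ (vars c N \ (B ∪ U)) ∪
          (vars c L \ (B ∪ (U ∪ (vars c N \ (B ∪ U))))) := by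
        intro v hv
        rw [vars_union] at hv
        simp only [mem_union, mem_sdiff] at hv ⊢
        tauto
      have h4 := (card_le_card this).trans (card_union_le _ _)
      omega
    have h4 := small (N ∪ L) h1 h2 h3 (by omega)
    have h5 := hmax (N ∪ L) (mem_filter.2 ⟨mem_univ _, h1, h2, h3, h4⟩)
    omega

end Pool.Agent.P.MP_0f6e60_lc
end

-- part Pool.Agent.P.MP_0f6e60_lc.Walk
section

set_option autoImplicit false

namespace Pool.Agent.P.MP_0f6e60_lc

open Finset

variable {n S : ℕ} {ι : Type} [Fintype ι] [DecidableEq ι]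

/-- `p 0, ..., p t` is a path of the proof graph with pivots `v 0, ..., v (t-1)`. -/
def IsPath (J : Fin S → Option (Fin S × Fin S × Fin n)) (t : ℕ) (p : ℕ → Fin S)
    (v : ℕ → Fin n) : Prop :=
  ∀ r < t, ∃ j l, J (p r) = some (j, l, v r) ∧ (p (r + 1) = j ∨ p (r + 1) = l)

/-- The state of the adversary at node `i`. -/
def Good (c : ι → Finset (Fin n × Bool)) (P : Fin S → Finset (Fin n × Bool))
    (J : Fin S → Option (Fin S × Fin S × Fin n)) (s w d : ℕ) (z0 : Fin n → Bool)
    (i : Fin S) (lim : ℕ) : Prop :=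
  ∃ (z : Fin n → Bool) (B U N Fl : Finset (Fin n)) (K : Finset ι) (ph τ t : ℕ) (p : ℕ → Fin S)
    (v : ℕ → Fin n), St c s z B U K ∧ Expands c s 2 z (B ∪ U) ∧
    (∀ l ∈ P i, l.1 ∈ B ∪ U ∧ z l.1 ≠ l.2) ∧ N ⊆ B ∧ B.card ≤ w + N.card ∧ N.card ≤ lim ∧
    Fl.card ≤ 2 * s * ph ∧ (∀ x, x ∉ Fl ∪ U → z x = z0 x) ∧ IsPath J t p v ∧ p t = i ∧
    τ ≤ t ∧ N ⊆ (Ico τ t).image v ∧ ∀ g : ℕ → ℕ, Monotone g →
      (∀ j, (((range t).filter fun r => g r = j).image v).card ≤ d) → ph ≤ g τ

omit [Fintype ι] [DecidableEq ι] in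
lemma Expands.one {c : ι → Finset (Fin n × Bool)} {s : ℕ} {z : Fin n → Bool}
    {T : Finset (Fin n)} (h : Expands c s 2 z T) : Expands c s 1 z T := by
  intro K hK hu
  have := h K hK hu
  omega

omit [Fintype ι] [DecidableEq ι] in
lemma Expands.insert {c : ι → Finset (Fin n × Bool)} {s : ℕ} {z : Fin n → Bool}
    {T : Finset (Fin n)} (h : Expands c s 2 z T) (x : Fin n) : Expands c s 1 z (insert x T) := by
  intro K hK hu
  have h1 := h K hK fun i hi l hl hT => hu i hi l hl (mem_insert_of_mem hT)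
  rcases K.eq_empty_or_nonempty with rfl | hne
  · simp
  have h2 := hne.card_pos
  have h3 : vars c K \ T ⊆ Insert.insert x (vars c K \ Insert.insert x T) := by
    intro y hy
    simp only [mem_insert, mem_sdiff] at hy ⊢
    tauto
  have h4 := (card_le_card h3).trans (card_insert_le _ _)
  omega

omit [Fintype ι] in
lemma St.empty {c : ι → Finset (Fin n × Bool)} {s : ℕ} (hs : 1 ≤ s) (z : Fin n → Bool)
    (B : Finset (Fin n)) : St c s z B ∅ ∅ :=
  ⟨by simp, by simp, by simp, by rw [card_empty]; omega⟩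

variable {c : ι → Finset (Fin n × Bool)} {P : Fin S → Finset (Fin n × Bool)}
  {J : Fin S → Option (Fin S × Fin S × Fin n)} {s w q d a : ℕ} {z0 : Fin n → Bool}

lemma good_root (hS : Sparse c s a) (ha : w + q + 8 * s ≤ a) (hs : 1 ≤ s) (v0 : Fin n)
    (h0 : ∀ K : Finset ι, K.card ≤ s → K.card ≤ (vars c K).card) {i : Fin S} (hi : P i = ∅) :
    Good c P J s w d z0 i q := by
  obtain ⟨z, U, K, h1, -, h3, h4⟩ := closure (T := ∅) hS (St.empty hs z0 ∅) (by simp)
    (fun K hK _ => by simpa using h0 K hK) (by simp; omega)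
  exact ⟨z, ∅, U, ∅, ∅, K, 0, 0, 0, fun _ => i, fun _ => v0, h1, h4, by simp [hi], by simp,
    by simp, by simp, by simp, fun x hx => h3 x (Or.inr (by simpa using hx)),
    fun r hr => absurd hr (by omega), rfl, le_rfl, by simp, by simp⟩

lemma good_prepare (hS : Sparse c s a) (ha : w + q + 8 * s ≤ a) (hs : 1 ≤ s) (hq : d < q)
    {i : Fin S} (h : Good c P J s w d z0 i q) (hw : ((P i).image Prod.fst).card < w) :
    Good c P J s w d z0 i (q - 1) := by
  obtain ⟨z, B, U, N, Fl, K, ph, τ, t, p, v, h1, h2, h3, h4, h5, h6, h7, h8, h9, h10, h11, h12,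
    h13⟩ := h
  by_cases hN : N.card ≤ q - 1
  · exact ⟨z, B, U, N, Fl, K, ph, τ, t, p, v, h1, h2, h3, h4, h5, hN, h7, h8, h9, h10, h11, h12,
      h13⟩
  have hT : (P i).image Prod.fst ∪ ∅ ⊆ B ∪ U := by
    intro x hx
    rw [union_empty] at hx
    obtain ⟨l, hl, rfl⟩ := mem_image.1 hx
    exact (h3 l hl).1
  obtain ⟨z', U', K', g1, -, g3, g4⟩ := closure (T := B ∪ U) hS
    (St.empty hs z ((P i).image Prod.fst)) hT h2.one (by omega)
  refine ⟨z', _, U', ∅, Fl ∪ U, K', ph + 1, t, t, p, v, g1, g4, ?_, by simp, by simp; omega,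
    by simp, ?_, ?_, h9, h10, le_rfl, by simp, ?_⟩
  · intro l hl
    refine ⟨mem_union_left _ (mem_image_of_mem _ hl), ?_⟩
    rw [g3 _ (Or.inl (h3 l hl).1)]
    exact (h3 l hl).2
  · have := card_union_le Fl U
    have := h1.hU
    have := h1.hs
    rw [Nat.mul_succ]; omega
  · intro x hx
    rw [mem_union, not_or] at hx
    rw [g3 x (Or.inr hx.2), h8 x hx.1]
  · intro g hg hb
    have e1 := h13 g hg hb
    by_contra hlt
    have e2 : N ⊆ ((range t).filter fun r => g r = g τ).image v := by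
      refine h12.trans (image_subset_image fun r hr => ?_)
      obtain ⟨r1, r2⟩ := mem_Ico.1 hr
      have := hg r1
      have := hg r2.le
      exact mem_filter.2 ⟨mem_range.2 r2, by omega⟩
    have := (card_le_card e2).trans (hb _)
    omega

omit [Fintype ι] [DecidableEq ι] in
lemma path_extend {t : ℕ} {p : ℕ → Fin S} {v : ℕ → Fin n} (h : IsPath J t p v) {j l k : Fin S}
    {x : Fin n} (hJ : J (p t) = some (j, l, x)) (hk : k = j ∨ k = l) :
    IsPath J (t + 1) (fun r => if r ≤ t then p r else k) (fun r => if r < t then v r else x) := by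
  intro r hr
  by_cases h1 : r < t
  · obtain ⟨j', l', e1, e2⟩ := h r h1
    refine ⟨j', l', ?_, ?_⟩
    · simp only [if_pos h1.le, if_pos h1, e1]
    · simp only [if_pos (show r + 1 ≤ t by omega), e2]
  · obtain rfl : r = t := by omega
    refine ⟨j, l, ?_, ?_⟩
    · simp only [le_refl, if_true, lt_irrefl, if_false, hJ]
    · simp only [if_neg (show ¬ r + 1 ≤ r by omega), hk]

lemma good_advance (hS : Sparse c s a) (ha : w + q + 8 * s ≤ a) (hq : d < q) {i j l : Fin S}
    {x : Fin n} (h : Good c P J s w d z0 i (q - 1)) (hJ : J i = some (j, l, x))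
    (hP : P i = (P j).erase (x, true) ∪ (P l).erase (x, false)) :
    Good c P J s w d z0 j q ∨ Good c P J s w d z0 l q := by
  obtain ⟨z, B, U, N, Fl, K, ph, τ, t, p, v, h1, h2, h3, h4, h5, h6, h7, h8, h9, h10, h11, h12,
    h13⟩ := h
  have key : ∃ (z' : Fin n → Bool) (B' U' N' : Finset (Fin n)) (K' : Finset ι),
      St c s z' B' U' K' ∧ Expands c s 2 z' (B' ∪ U') ∧
      (∀ l ∈ P i, l.1 ∈ B' ∪ U' ∧ z' l.1 ≠ l.2) ∧ x ∈ B' ∪ U' ∧ N' ⊆ B' ∧
      B'.card ≤ w + N'.card ∧ N'.card ≤ q ∧ (∀ y, y ∉ Fl ∪ U' → z' y = z0 y) ∧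
      N' ⊆ insert x N := by
    by_cases hx : x ∈ B ∪ U
    · exact ⟨z, B, U, N, K, h1, h2, h3, hx, h4, h5, by omega, h8, subset_insert _ _⟩
    have hxB : x ∉ B := fun h => hx (mem_union_left _ h)
    have hxN : x ∉ N := fun h => hxB (h4 h)
    have hst : St c s z (insert x B) U K := by
      refine ⟨h1.hU, fun i hi l hl => ?_, fun i hi => ?_, h1.hs⟩
      · rcases h1.hK i hi l hl with e | e
        · exact Or.inl e
        · exact Or.inr ⟨mem_insert_of_mem e.1, e.2⟩
      · obtain ⟨l, hl, e1, e2⟩ := h1.hsat i hi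
        refine ⟨l, hl, ?_, e2⟩
        rw [insert_union]; exact mem_insert_of_mem e1
    obtain ⟨z', U', K', g1, g2, g3, g4⟩ := closure (T := insert x (B ∪ U)) hS hst
      (by rw [insert_union]) (h2.insert x) (by rw [card_insert_of_notMem hxB]; omega)
    refine ⟨z', insert x B, U', insert x N, K', g1, g4, ?_, by simp, insert_subset_insert _ h4,
      by rw [card_insert_of_notMem hxB, card_insert_of_notMem hxN]; omega,
      by rw [card_insert_of_notMem hxN]; omega, ?_, subset_rfl⟩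
    · intro l hl
      refine ⟨?_, ?_⟩
      · rcases mem_union.1 (h3 l hl).1 with e | e
        · exact mem_union_left _ (mem_insert_of_mem e)
        · exact mem_union_right _ (g2 e)
      · rw [g3 _ (Or.inl (mem_insert_of_mem (h3 l hl).1))]
        exact (h3 l hl).2
    · intro y hy
      rw [mem_union, not_or] at hy
      rw [g3 y (Or.inr hy.2), h8 y (by
        rw [mem_union, not_or]; exact ⟨hy.1, fun e => hy.2 (g2 e)⟩)]
  obtain ⟨z', B', U', N', K', g1, g2, g3, g4, g5, g6, g7, g8, g9⟩ := key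
  have fin : ∀ k : Fin S, (k = j ∨ k = l) → (∀ m ∈ P k, m.1 ∈ B' ∪ U' ∧ z' m.1 ≠ m.2) →
      Good c P J s w d z0 k q := by
    intro k hk hm
    refine ⟨z', B', U', N', Fl, K', ph, τ, t + 1, _, _, g1, g2, hm, g5, g6, g7, h7, g8,
      path_extend h9 (h10 ▸ hJ) hk, by simp, by omega, fun y hy => ?_, fun g hg hb => ?_⟩
    · rcases mem_insert.1 (g9 hy) with rfl | hy'
      · exact mem_image.2 ⟨t, mem_Ico.2 ⟨h11, by omega⟩, by simp⟩
      · obtain ⟨r, hr, rfl⟩ := mem_image.1 (h12 hy')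
        obtain ⟨r1, r2⟩ := mem_Ico.1 hr
        exact mem_image.2 ⟨r, mem_Ico.2 ⟨r1, by omega⟩, by simp [r2]⟩
    · refine h13 g hg fun u => (card_le_card fun y hy => ?_).trans (hb u)
      obtain ⟨r, hr, rfl⟩ := mem_image.1 hy
      obtain ⟨r1, r2⟩ := mem_filter.1 hr
      have r3 := mem_range.1 r1
      exact mem_image.2 ⟨r, mem_filter.2 ⟨mem_range.2 (by omega), r2⟩, by simp [r3]⟩
  cases hz : z' x
  · left
    refine fin j (Or.inl rfl) fun m hm => ?_
    by_cases e : m = (x, true)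
    · subst e; exact ⟨g4, by simp [hz]⟩
    · exact g3 m (hP ▸ mem_union_left _ (mem_erase.2 ⟨e, hm⟩))
  · right
    refine fin l (Or.inr rfl) fun m hm => ?_
    by_cases e : m = (x, false)
    · subst e; exact ⟨g4, by simp [hz]⟩
    · exact g3 m (hP ▸ mem_union_right _ (mem_erase.2 ⟨e, hm⟩))

lemma walk (hS : Sparse c s a) (ha : w + q + 8 * s ≤ a) (hs : 1 ≤ s) (hq : d < q)
    (hax : ∀ i, J i = none → ∃ k, P i = c k)
    (hres : ∀ i j l x, J i = some (j, l, x) → j < i ∧ l < i ∧
      P i = (P j).erase (x, true) ∪ (P l).erase (x, false)) (i : Fin S)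
    (h : Good c P J s w d z0 i q) :
    ∃ i', Good c P J s w d z0 i' q ∧ w ≤ ((P i').image Prod.fst).card := by
  induction' hi : i.val using Nat.strong_induction_on with m ih generalizing i
  by_cases hw : w ≤ ((P i).image Prod.fst).card
  · exact ⟨i, h, hw⟩
  have h' := good_prepare hS ha hs hq h (by omega)
  rcases hJ : J i with _ | ⟨j, l, x⟩
  · exfalso
    obtain ⟨k, hk⟩ := hax i hJ
    obtain ⟨z, B, U, N, Fl, K, ph, τ, t, p, v, -, h2, h3, -⟩ := h
    have e := h2 {k} (by simpa using hs) (by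
      intro k' hk' l hl _
      rw [mem_singleton.1 hk', ← hk] at hl
      exact (h3 l hl).2)
    have e2 : vars c {k} \ (B ∪ U) = ∅ := by
      rw [sdiff_eq_empty_iff_subset]
      intro y hy
      obtain ⟨k', hk', l, hl, rfl⟩ := mem_vars.1 hy
      rw [mem_singleton.1 hk', ← hk] at hl
      exact (h3 l hl).1
    simp [e2] at e
  · obtain ⟨e1, e2, e3⟩ := hres i j l x hJ
    rcases good_advance hS ha hq h' hJ e3 with g | g
    · exact ih j.val (hi ▸ e1) j g rfl
    · exact ih l.val (hi ▸ e2) l g rfl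

omit [Fintype ι] [DecidableEq ι] in
lemma card_agree (V : Finset (Fin n)) (Z : Finset (Fin n → Bool))
    (h : ∀ y ∈ Z, ∀ z ∈ Z, ∀ x ∈ V, y x = z x) : Z.card ≤ 2 ^ (n - V.card) := by
  classical
  have e : Fintype.card ({x // x ∈ Vᶜ} → Bool) = 2 ^ (n - V.card) := by
    rw [Fintype.card_fun, Fintype.card_coe, card_compl, Fintype.card_bool, Fintype.card_fin]
  rw [← e, ← card_univ]
  refine card_le_card_of_injOn (fun z (x : {x // x ∈ Vᶜ}) => z x.1) (fun _ _ => mem_univ _) ?_
  intro y hy z hz hyz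
  funext x
  by_cases hx : x ∈ V
  · exact h y hy z hz x hx
  · exact congrFun hyz ⟨x, mem_compl.2 hx⟩

theorem count (hS : Sparse c s a) (ha : w + q + 8 * s ≤ a) (hs : 1 ≤ s) (hq : d < q)
    (v0 : Fin n) (h0 : ∀ K : Finset ι, K.card ≤ s → K.card ≤ (vars c K).card)
    (hroot : ∃ i, P i = ∅) (hax : ∀ i, J i = none → ∃ k, P i = c k)
    (hres : ∀ i j l x, J i = some (j, l, x) → j < i ∧ l < i ∧
      P i = (P j).erase (x, true) ∪ (P l).erase (x, false)) {R f : ℕ}
    (hpath : ∀ t p v, IsPath J t p v → ∃ g : ℕ → ℕ, Monotone g ∧ g t ≤ R ∧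
      ∀ j, (((range t).filter fun r => g r = j).image v).card ≤ d)
    (hf : 2 * s * (R + 1) ≤ f) :
    2 ^ n ≤ S * ((univ.filter fun Fl : Finset (Fin n) => Fl.card ≤ f).card * 2 ^ (n - (w - f))) := by
  classical
  obtain ⟨i0, hi0⟩ := hroot
  let Z : Fin S → Finset (Fin n) → Finset (Fin n → Bool) := fun i Fl =>
    univ.filter fun z => w ≤ ((P i).image Prod.fst).card ∧ ∀ l ∈ P i, l.1 ∉ Fl → z l.1 ≠ l.2
  have hcov : (univ : Finset (Fin n → Bool)) ⊆ univ.biUnion fun i =>
      (univ.filter fun Fl : Finset (Fin n) => Fl.card ≤ f).biUnion fun Fl => Z i Fl := by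
    intro z0 _
    obtain ⟨i, hg, hw⟩ := walk (z0 := z0) hS ha hs hq hax hres i0
      (good_root hS ha hs v0 h0 hi0)
    obtain ⟨z, B, U, N, Fl, K, ph, τ, t, p, v, h1, h2, h3, h4, h5, h6, h7, h8, h9, h10, h11, h12,
    h13⟩ := hg
    obtain ⟨g, hg, hR, hb⟩ := hpath t p v h9
    have e1 := (h13 g hg hb).trans ((hg h11).trans hR)
    have e2 : 2 * s * (ph + 1) ≤ f := (Nat.mul_le_mul_left _ (by omega)).trans hf
    refine mem_biUnion.2 ⟨i, mem_univ _, mem_biUnion.2 ⟨Fl ∪ U, mem_filter.2 ⟨mem_univ _, ?_⟩,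
      mem_filter.2 ⟨mem_univ _, hw, fun l hl hl' => ?_⟩⟩⟩
    · have := card_union_le Fl U
      have := h1.hU
      have := h1.hs
      rw [Nat.mul_succ] at e2; omega
    · rw [← h8 _ hl']; exact (h3 l hl).2
  have hZ : ∀ i, ∀ Fl ∈ univ.filter fun Fl : Finset (Fin n) => Fl.card ≤ f,
      (Z i Fl).card ≤ 2 ^ (n - (w - f)) := by
    intro i Fl hFl
    rcases (Z i Fl).eq_empty_or_nonempty with e | ⟨z1, hz1⟩
    · simp [e]
    have hw := (mem_filter.1 hz1).2.1
    refine (card_agree ((P i).image Prod.fst \ Fl) _ ?_).trans (Nat.pow_le_pow_right two_pos ?_)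
    · intro y hy z hz x hx
      obtain ⟨hx1, hx2⟩ := mem_sdiff.1 hx
      obtain ⟨l, hl, rfl⟩ := mem_image.1 hx1
      have a1 := (mem_filter.1 hy).2.2 l hl hx2
      have a2 := (mem_filter.1 hz).2.2 l hl hx2
      cases e1 : y l.1 <;> cases e2 : z l.1 <;> cases e3 : l.2 <;> simp_all
    · have := le_card_sdiff Fl ((P i).image Prod.fst)
      have := (mem_filter.1 hFl).2
      omega
  calc 2 ^ n = (univ : Finset (Fin n → Bool)).card := by simp
    _ ≤ _ := card_le_card hcov
    _ ≤ _ := by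
      refine (card_biUnion_le_card_mul _ _ _ fun i _ => card_biUnion_le_card_mul _ _ _ (hZ i)).trans ?_
      simp

end Pool.Agent.P.MP_0f6e60_lc
end

-- part Pool.Agent.P.MP_0f6e60_lc.Random
section

set_option autoImplicit false

namespace Pool.Agent.P.MP_0f6e60_lc

open Finset

variable {n k m : ℕ}

lemma card_inside (I : Finset (Fin m)) (A : Finset (Fin n × Bool)) (hn : 0 < n) :
    ((univ.filter fun ω : Fin m → Fin k → Fin n × Bool => ∀ i ∈ I, ∀ j, ω i j ∈ A).card : ℝ) =
      ((2 * n : ℝ) ^ k) ^ m * (((A.card : ℝ) / (2 * n)) ^ k) ^ I.card := by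
  classical
  have e : (univ.filter fun ω : Fin m → Fin k → Fin n × Bool => ∀ i ∈ I, ∀ j, ω i j ∈ A) =
      Fintype.piFinset fun i => if i ∈ I then Fintype.piFinset fun _ => A else univ := by
    ext ω
    simp only [mem_filter, mem_univ, true_and, Fintype.mem_piFinset]
    refine forall_congr' fun i => ?_
    by_cases hi : i ∈ I <;> simp [hi]
  rw [e, Fintype.card_piFinset]
  push_cast
  have hn' : (2 * n : ℝ) ≠ 0 := by positivity
  have : ∀ i : Fin m, ((if i ∈ I then Fintype.piFinset fun _ : Fin k => A else univ).card : ℝ) =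
      (2 * n : ℝ) ^ k * if i ∈ I then ((A.card : ℝ) / (2 * n)) ^ k else 1 := by
    intro i
    by_cases hi : i ∈ I
    · simp only [if_pos hi, Fintype.card_piFinset, prod_const, card_univ, Fintype.card_fin]
      rw [← mul_pow, mul_div_cancel₀ _ hn']; push_cast; rfl
    · simp only [if_neg hi, card_univ, Fintype.card_fun, Fintype.card_prod, Fintype.card_fin,
        Fintype.card_bool]
      push_cast; ring
  simp only [this, prod_mul_distrib, prod_const, card_univ, Fintype.card_fin]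
  rw [prod_ite_mem, univ_inter, prod_const]

lemma card_sat (x : Fin n → Bool) (hn : 0 < n) :
    ((univ.filter fun ω : Fin m → Fin k → Fin n × Bool =>
      ∀ i, ¬ ∀ j, x (ω i j).1 ≠ (ω i j).2).card : ℝ) =
      ((2 * n : ℝ) ^ k) ^ m * (1 - (1 / 2 : ℝ) ^ k) ^ m := by
  classical
  let A : Finset (Fin n × Bool) := univ.image fun v => (v, !x v)
  have hA : A.card = n := by
    rw [card_image_of_injective _ (fun a b h => (Prod.ext_iff.1 h).1)]; simp
  have hmem : ∀ l : Fin n × Bool, l ∈ A ↔ x l.1 ≠ l.2 := by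
    rintro ⟨v, b⟩
    simp only [A, mem_image, mem_univ, true_and, Prod.mk.injEq]
    constructor
    · rintro ⟨u, rfl, rfl⟩; cases x u <;> simp
    · intro h; exact ⟨v, rfl, by cases b <;> cases hx : x v <;> simp_all⟩
  have e : (univ.filter fun ω : Fin m → Fin k → Fin n × Bool =>
      ∀ i, ¬ ∀ j, x (ω i j).1 ≠ (ω i j).2) =
      Fintype.piFinset fun _ => (Fintype.piFinset fun _ : Fin k => A)ᶜ := by
    ext ω
    simp only [mem_filter, mem_univ, true_and, Fintype.mem_piFinset, mem_compl, hmem]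
  rw [e, Fintype.card_piFinset, prod_const, card_univ, Fintype.card_fin, card_compl,
    Fintype.card_piFinset, prod_const, card_univ, Fintype.card_fin, hA]
  simp only [Fintype.card_fun, Fintype.card_prod, Fintype.card_fin, Fintype.card_bool]
  rw [Nat.cast_pow, Nat.cast_sub (Nat.pow_le_pow_left (by omega) _), ← mul_pow]
  congr 1
  push_cast
  rw [mul_sub, ← mul_pow]
  congr 2 <;> ring

theorem exists_formula {s a : ℕ} (hn : 0 < n) (hsn : s ≤ n)
    (h : (2 : ℝ) ^ n * (1 - (1 / 2 : ℝ) ^ k) ^ m +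
      4 ^ n * (m.choose s * (((a : ℝ) / (2 * n)) ^ k) ^ s) +
      ∑ j ∈ Icc 1 s, (n.choose j : ℝ) * (m.choose j * (((j : ℝ) / n) ^ k) ^ j) < 1) :
    ∃ c : Fin m → Finset (Fin n × Bool), (∀ i, (c i).card ≤ k) ∧
      (∀ x : Fin n → Bool, ∃ i, ∀ l ∈ c i, x l.1 ≠ l.2) ∧ Sparse c s a ∧
      ∀ K : Finset (Fin m), K.card ≤ s → K.card ≤ (vars c K).card := by
  classical
  set Tot : ℝ := ((2 * n : ℝ) ^ k) ^ m with hTot
  have hT : 0 < Tot := by positivity
  let Ω := Fin m → Fin k → Fin n × Bool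
  let ins : Finset (Fin m) → Finset (Fin n × Bool) → Finset Ω := fun I A =>
    univ.filter fun ω => ∀ i ∈ I, ∀ j, ω i j ∈ A
  let B1 : Finset Ω := univ.biUnion fun x : Fin n → Bool =>
    univ.filter fun ω => ∀ i, ¬ ∀ j, x (ω i j).1 ≠ (ω i j).2
  let B2 : Finset Ω := (univ.filter fun A : Finset (Fin n × Bool) => A.card ≤ a).biUnion fun A =>
    (powersetCard s univ).biUnion fun I => ins I A
  let B3 : Finset Ω := (Icc 1 s).biUnion fun j => (powersetCard j univ).biUnion
    fun U : Finset (Fin n) => (powersetCard j univ).biUnion fun I => ins I (U ×ˢ univ)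
  have c1 : (B1.card : ℝ) ≤ Tot * ((2 : ℝ) ^ n * (1 - (1 / 2 : ℝ) ^ k) ^ m) := by
    refine (Nat.cast_le.2 card_biUnion_le).trans (le_of_eq ?_)
    push_cast
    rw [sum_congr rfl fun x _ => card_sat x hn]
    simp only [sum_const, card_univ, Fintype.card_fun, Fintype.card_fin, Fintype.card_bool,
      nsmul_eq_mul]
    push_cast; ring
  have c2 : (B2.card : ℝ) ≤ Tot * (4 ^ n * (m.choose s * (((a : ℝ) / (2 * n)) ^ k) ^ s)) := by
    refine (Nat.cast_le.2 card_biUnion_le).trans ?_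
    push_cast
    refine (sum_le_card_nsmul _ _ (Tot * (m.choose s * (((a : ℝ) / (2 * n)) ^ k) ^ s)) ?_).trans ?_
    · intro A hA
      refine (Nat.cast_le.2 card_biUnion_le).trans ?_
      push_cast
      refine (sum_le_card_nsmul _ _ (Tot * (((a : ℝ) / (2 * n)) ^ k) ^ s) ?_).trans (le_of_eq ?_)
      · intro I hI
        rw [card_inside I A hn, (mem_powersetCard.1 hI).2]
        have : (A.card : ℝ) ≤ a := Nat.cast_le.2 (mem_filter.1 hA).2
        gcongr
      · rw [card_powersetCard, card_univ, Fintype.card_fin, nsmul_eq_mul]; ring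
    · have : ((univ.filter fun A : Finset (Fin n × Bool) => A.card ≤ a).card : ℝ) ≤ 4 ^ n := by
        have h1 := card_le_univ (univ.filter fun A : Finset (Fin n × Bool) => A.card ≤ a)
        rw [Fintype.card_finset, Fintype.card_prod, Fintype.card_fin, Fintype.card_bool,
          mul_comm, pow_mul] at h1
        exact_mod_cast h1
      rw [nsmul_eq_mul]
      calc _ ≤ 4 ^ n * (Tot * (m.choose s * (((a : ℝ) / (2 * n)) ^ k) ^ s)) := by gcongr
        _ = _ := by ring
  have c3 : (B3.card : ℝ) ≤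
      Tot * ∑ j ∈ Icc 1 s, (n.choose j : ℝ) * (m.choose j * (((j : ℝ) / n) ^ k) ^ j) := by
    refine (Nat.cast_le.2 card_biUnion_le).trans ?_
    push_cast
    rw [mul_sum]
    refine sum_le_sum fun j _ => ?_
    refine (Nat.cast_le.2 card_biUnion_le).trans ?_
    push_cast
    refine (sum_le_card_nsmul _ _ (Tot * (m.choose j * (((j : ℝ) / n) ^ k) ^ j)) ?_).trans
      (le_of_eq ?_)
    · intro U hU
      refine (Nat.cast_le.2 card_biUnion_le).trans ?_
      push_cast
      refine (sum_le_card_nsmul _ _ (Tot * (((j : ℝ) / n) ^ k) ^ j) ?_).trans (le_of_eq ?_)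
      · intro I hI
        rw [card_inside I _ hn, (mem_powersetCard.1 hI).2, card_product,
          (mem_powersetCard.1 hU).2]
        have : ((j * (univ : Finset Bool).card : ℕ) : ℝ) / (2 * n) = j / n := by
          simp only [card_univ, Fintype.card_bool]; push_cast; field_simp
        rw [this]
      · rw [card_powersetCard, card_univ, Fintype.card_fin, nsmul_eq_mul]; ring
    · rw [card_powersetCard, card_univ, Fintype.card_fin, nsmul_eq_mul]; ring
  have hlt : (B1 ∪ B2 ∪ B3).card < (univ : Finset Ω).card := by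
    have e : ((univ : Finset Ω).card : ℝ) = Tot := by
      simp only [Ω, card_univ, Fintype.card_fun, Fintype.card_prod, Fintype.card_fin,
        Fintype.card_bool, hTot]
      push_cast; ring
    have u1 : ((B1 ∪ B2 ∪ B3).card : ℝ) ≤ B1.card + B2.card + B3.card := by
      exact_mod_cast (card_union_le _ _).trans (Nat.add_le_add_right (card_union_le _ _) _)
    have : ((B1 ∪ B2 ∪ B3).card : ℝ) < (univ : Finset Ω).card := by
      rw [e]; nlinarith
    exact_mod_cast this
  obtain ⟨ω, -, hω⟩ := exists_mem_notMem_of_card_lt_card hlt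
  rw [mem_union, mem_union, not_or, not_or] at hω
  obtain ⟨⟨h1, h2⟩, h3⟩ := hω
  refine ⟨fun i => univ.image (ω i), fun i => card_image_le.trans (by simp), ?_, ?_, ?_⟩
  · intro x
    by_contra hx
    refine h1 (mem_biUnion.2 ⟨x, mem_univ _, mem_filter.2 ⟨mem_univ _, fun i hi => hx ⟨i, ?_⟩⟩⟩)
    intro l hl
    obtain ⟨j, -, rfl⟩ := mem_image.1 hl
    exact hi j
  · intro A hA K hK
    by_contra hs
    obtain ⟨I, hI, hIs⟩ := exists_subset_card_eq (not_lt.1 hs)
    exact h2 (mem_biUnion.2 ⟨A, mem_filter.2 ⟨mem_univ _, hA⟩, mem_biUnion.2 ⟨I,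
      mem_powersetCard.2 ⟨subset_univ _, hIs⟩, mem_filter.2 ⟨mem_univ _, fun i hi j =>
        hK i (hI hi) (mem_image_of_mem _ (mem_univ _))⟩⟩⟩)
  · intro K hK
    by_contra hlt'
    push Not at hlt'
    obtain ⟨U, hU, hUc⟩ := exists_superset_card_eq hlt'.le (by simp; omega)
    exact h3 (mem_biUnion.2 ⟨K.card, mem_Icc.2 ⟨by omega, hK⟩, mem_biUnion.2 ⟨U,
      mem_powersetCard.2 ⟨subset_univ _, hUc⟩, mem_biUnion.2 ⟨K,
      mem_powersetCard.2 ⟨subset_univ _, rfl⟩, mem_filter.2 ⟨mem_univ _, fun i hi j =>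
        mem_product.2 ⟨hU (mem_vars.2 ⟨i, hi, ω i j, mem_image_of_mem _ (mem_univ _), rfl⟩),
          mem_univ _⟩⟩⟩⟩⟩)

end Pool.Agent.P.MP_0f6e60_lc
end
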