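import Pool.Agent.K.MP_0f6e60_lc.C0
import Pool.Agent.K.MP_0f6e60_lc.C1

-- part Pool.Agent.P.MP_0f6e60_lc.RClos
section

set_option autoImplicit false

namespace Pool.Agent.P.MP_0f6e60_lc

open Finset

variable {n : ℕ} {ι : Type} [Fintype ι] [DecidableEq ι]

/-- Fewer than `s` clauses have all literals false under `z` on `B` or on a variable of `X`. -/
def LSp (c : ι → Finset (Fin n × Bool)) (s b x : ℕ) (z : Fin n → Bool) : Prop :=
  ∀ B : Finset (Fin n), B.card ≤ b → ∀ X : Finset (Fin n), X.card ≤ x → ∀ K : Finset ι,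
    (∀ i ∈ K, ∀ l ∈ c i, (l.1 ∈ B ∧ z l.1 ≠ l.2) ∨ l.1 ∈ X) → K.card < s

omit [Fintype ι] [DecidableEq ι] in
lemma LSp.move {c : ι → Finset (Fin n × Bool)} {s b x y : ℕ} {z0 z : Fin n → Bool}
    (h : LSp c s b x z0) {D : Finset (Fin n)} (hD : D.card + y ≤ x) {B : Finset (Fin n)}
    (hB : B.card ≤ b) (hz : ∀ v ∈ B, v ∉ D → z v = z0 v) :
    ∀ W : Finset (Fin n), W.card ≤ y → ∀ K : Finset ι,
      (∀ i ∈ K, ∀ l ∈ c i, (l.1 ∈ B ∧ z l.1 ≠ l.2) ∨ l.1 ∈ W) → K.card < s := by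
  intro W hW K hK
  refine h B hB (D ∪ W) ((card_union_le _ _).trans (by omega)) K fun i hi l hl => ?_
  rcases hK i hi l hl with e | e
  · by_cases hd : l.1 ∈ D
    · exact Or.inr (mem_union_left _ hd)
    · exact Or.inl ⟨e.1, by rw [← hz _ e.1 hd]; exact e.2⟩
  · exact Or.inr (mem_union_right _ e)

omit [Fintype ι] in
lemma St.congr {c : ι → Finset (Fin n × Bool)} {s : ℕ} {z z' : Fin n → Bool}
    {B U : Finset (Fin n)} {K : Finset ι} (h : St c s z B U K) (hz : ∀ v ∈ B ∪ U, z' v = z v) :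
    St c s z' B U K := by
  refine ⟨h.hU, fun i hi l hl => ?_, fun i hi => ?_, h.hs⟩
  · rcases h.hK i hi l hl with e | e
    · exact Or.inl e
    · exact Or.inr ⟨e.1, by rw [hz _ (mem_union_left _ e.1)]; exact e.2⟩
  · obtain ⟨l, hl, e1, e2⟩ := h.hsat i hi
    exact ⟨l, hl, e1, by rw [hz _ e1]; exact e2⟩

omit [Fintype ι] [DecidableEq ι] in
lemma Expands.congr {c : ι → Finset (Fin n × Bool)} {s r : ℕ} {z z' : Fin n → Bool}
    {T : Finset (Fin n)} (h : Expands c s r z T) (hz : ∀ v ∈ T, z' v = z v) :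
    Expands c s r z' T :=
  fun K hK hu => h K hK fun i hi l hl hT => by rw [← hz _ hT]; exact hu i hi l hl hT

omit [Fintype ι] in
lemma St.insert {c : ι → Finset (Fin n × Bool)} {s : ℕ} {z : Fin n → Bool}
    {B U : Finset (Fin n)} {K : Finset ι} (h1 : St c s z B U K) (x : Fin n) :
    St c s z (insert x B) U K := by
  refine ⟨h1.hU, fun i hi l hl => ?_, fun i hi => ?_, h1.hs⟩
  · rcases h1.hK i hi l hl with e | e
    · exact Or.inl e
    · exact Or.inr ⟨mem_insert_of_mem e.1, e.2⟩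
  · obtain ⟨l, hl, e1, e2⟩ := h1.hsat i hi
    refine ⟨l, hl, ?_, e2⟩
    rw [insert_union]; exact mem_insert_of_mem e1

lemma lclosure {c : ι → Finset (Fin n × Bool)} {s : ℕ}
    {z : Fin n → Bool} {B U T : Finset (Fin n)} {K : Finset ι}
    (hS : ∀ W : Finset (Fin n), W.card ≤ 4 * s → ∀ K : Finset ι,
      (∀ i ∈ K, ∀ l ∈ c i, (l.1 ∈ B ∧ z l.1 ≠ l.2) ∨ l.1 ∈ W) → K.card < s)
    (h : St c s z B U K) (hT : B ∪ U ⊆ T) (hE : Expands c s 1 z T) :
    ∃ z' U' K', St c s z' B U' K' ∧ U ⊆ U' ∧ (∀ v, v ∈ T ∨ v ∉ U' → z' v = z v) ∧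
      Expands c s 2 z' (B ∪ U') := by
  classical
  have small : ∀ N : Finset ι, Disjoint K N → (∀ i ∈ N, Uns c z (B ∪ U) i) →
      (vars c N \ (B ∪ U)).card ≤ 2 * N.card → K.card + N.card ≤ 2 * s →
      K.card + N.card < s := by
    intro N hd hu hv hc
    let W := U ∪ (vars c N \ (B ∪ U))
    have hW : W.card ≤ 4 * s := by
      have := card_union_le U (vars c N \ (B ∪ U))
      have := h.hU
      simp only [W]; omega
    have := hS W hW (K ∪ N) (by
      intro i hi l hl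
      rcases mem_union.1 hi with hi | hi
      · rcases h.hK i hi l hl with h1 | h1
        · exact Or.inr (mem_union_left _ h1)
        · exact Or.inl h1
      · by_cases h1 : l.1 ∈ U
        · exact Or.inr (mem_union_left _ h1)
        · by_cases h2 : l.1 ∈ B
          · exact Or.inl ⟨h2, hu i hi l hl (mem_union_left _ h2)⟩
          · exact Or.inr (mem_union_right _ (mem_sdiff.2 ⟨mem_vars.2 ⟨i, hi, l, hl, rfl⟩, by
              simp [h1, h2]⟩)))
    rwa [card_union_of_disjoint hd] at this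
  obtain ⟨N, hN, hmax⟩ := exists_max_image (univ.filter fun N : Finset ι => Disjoint K N ∧
    (∀ i ∈ N, Uns c z (B ∪ U) i) ∧ (vars c N \ (B ∪ U)).card ≤ 2 * N.card ∧
      K.card + N.card < s) card ⟨∅, by simpa [vars] using h.hs⟩
  obtain ⟨hd, hu, hv, hc⟩ := (mem_filter.1 hN).2
  obtain ⟨z', hz, hsat⟩ := hall_sat hE (N := N) (by omega)
  have hzT : ∀ v ∈ B ∪ U, z' v = z v := fun v hv => hz v (Or.inl (hT hv))
  have hst : St c s z' B (U ∪ (vars c N \ (B ∪ U))) (K ∪ N) := by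
    refine ⟨?_, ?_, ?_, ?_⟩
    · have := card_union_le U (vars c N \ (B ∪ U))
      have := h.hU
      rw [card_union_of_disjoint hd]; omega
    · intro i hi l hl
      rcases mem_union.1 hi with hi | hi
      · rcases h.hK i hi l hl with h1 | h1
        · exact Or.inl (mem_union_left _ h1)
        · exact Or.inr ⟨h1.1, by rw [hzT _ (mem_union_left _ h1.1)]; exact h1.2⟩
      · by_cases h1 : l.1 ∈ U
        · exact Or.inl (mem_union_left _ h1)
        · by_cases h2 : l.1 ∈ B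
          · exact Or.inr ⟨h2, by
              rw [hzT _ (mem_union_left _ h2)]; exact hu i hi l hl (mem_union_left _ h2)⟩
          · exact Or.inl (mem_union_right _ (mem_sdiff.2 ⟨mem_vars.2 ⟨i, hi, l, hl, rfl⟩, by
              simp [h1, h2]⟩))
    · intro i hi
      rcases mem_union.1 hi with hi | hi
      · obtain ⟨l, hl, h1, h2⟩ := h.hsat i hi
        refine ⟨l, hl, ?_, by rw [hzT _ h1]; exact h2⟩
        rcases mem_union.1 h1 with h1 | h1
        · exact mem_union_left _ h1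
        · exact mem_union_right _ (mem_union_left _ h1)
      · obtain ⟨l, hl, h1⟩ := hsat i hi
        refine ⟨l, hl, ?_, h1⟩
        have : l.1 ∈ vars c N := mem_vars.2 ⟨i, hi, l, hl, rfl⟩
        simp only [mem_union, mem_sdiff]
        tauto
    · rw [card_union_of_disjoint hd]; exact hc
  refine ⟨z', _, _, hst, subset_union_left, ?_, ?_⟩
  · intro v hv
    rcases hv with hv | hv
    · exact hz v (Or.inl hv)
    · by_cases h1 : v ∈ vars c N
      · refine hz v (Or.inl (hT ?_))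
        by_contra h2
        exact hv (mem_union_right _ (mem_sdiff.2 ⟨h1, h2⟩))
      · exact hz v (Or.inr h1)
  · intro L hL hLu
    by_contra hlt
    push Not at hlt
    have hdL : Disjoint (K ∪ N) L := by
      rw [disjoint_left]
      intro i hi hiL
      obtain ⟨l, hl, h1, h2⟩ := hst.hsat i hi
      exact hLu i hiL l hl h1 h2
    have hd1 : Disjoint K L := hdL.mono_left subset_union_left
    have hd2 : Disjoint N L := hdL.mono_left subset_union_right
    have hcard : (N ∪ L).card = N.card + L.card := card_union_of_disjoint hd2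
    have h1 : Disjoint K (N ∪ L) := disjoint_union_right.2 ⟨hd, hd1⟩
    have h2 : ∀ i ∈ N ∪ L, Uns c z (B ∪ U) i := by
      intro i hi
      rcases mem_union.1 hi with hi | hi
      · exact hu i hi
      · intro l hl hl1
        rw [← hzT _ hl1]
        refine hLu i hi l hl ?_
        rcases mem_union.1 hl1 with h1 | h1
        · exact mem_union_left _ h1
        · exact mem_union_right _ (mem_union_left _ h1)
    have h3 : (vars c (N ∪ L) \ (B ∪ U)).card ≤ 2 * (N ∪ L).card := by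
      have : vars c (N ∪ L) \ (B ∪ U) ⊆ (vars c N \ (B ∪ U)) ∪
          (vars c L \ (B ∪ (U ∪ (vars c N \ (B ∪ U))))) := by
        intro v hv
        rw [vars_union] at hv
        simp only [mem_union, mem_sdiff] at hv ⊢
        tauto
      have h4 := (card_le_card this).trans (card_union_le _ _)
      omega
    have h4 := small (N ∪ L) h1 h2 h3 (by omega)
    have h5 := hmax (N ∪ L) (mem_filter.2 ⟨mem_univ _, h1, h2, h3, h4⟩)
    omega

end Pool.Agent.P.MP_0f6e60_lc
end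

-- part Pool.Agent.P.MP_0f6e60_lc.RRun
section

set_option autoImplicit false

namespace Pool.Agent.P.MP_0f6e60_lc

open Finset

variable {n S : ℕ} {ι : Type} [Fintype ι] [DecidableEq ι]

/-- Memory of the adversary in the first phase. -/
structure Mem (n : ℕ) (ι : Type) where
  z : Fin n → Bool
  B : Finset (Fin n)
  U : Finset (Fin n)
  K : Finset ι

open Classical in
/-- A fixed choice of the closure. -/
noncomputable def clos (c : ι → Finset (Fin n × Bool)) (s : ℕ) (z : Fin n → Bool)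
    (B U T : Finset (Fin n)) (K : Finset ι) : Mem n ι :=
  if h : ∃ q : (Fin n → Bool) × Finset (Fin n) × Finset ι, St c s q.1 B q.2.1 q.2.2 ∧
      U ⊆ q.2.1 ∧ (∀ v, v ∈ T ∨ v ∉ q.2.1 → q.1 v = z v) ∧ Expands c s 2 q.1 (B ∪ q.2.1) then
    ⟨h.choose.1, B, h.choose.2.1, h.choose.2.2⟩ else ⟨z, B, U, K⟩

lemma clos_B (c : ι → Finset (Fin n × Bool)) (s : ℕ) (z : Fin n → Bool)
    (B U T : Finset (Fin n)) (K : Finset ι) : (clos c s z B U T K).B = B := by
  unfold clos; split_ifs <;> rfl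

lemma clos_spec {c : ι → Finset (Fin n × Bool)} {s : ℕ}
    {z : Fin n → Bool} {B U T : Finset (Fin n)} {K : Finset ι}
    (hS : ∀ W : Finset (Fin n), W.card ≤ 4 * s → ∀ K : Finset ι,
      (∀ i ∈ K, ∀ l ∈ c i, (l.1 ∈ B ∧ z l.1 ≠ l.2) ∨ l.1 ∈ W) → K.card < s)
    (h : St c s z B U K) (hT : B ∪ U ⊆ T) (hE : Expands c s 1 z T) :
    St c s (clos c s z B U T K).z B (clos c s z B U T K).U (clos c s z B U T K).K ∧
      U ⊆ (clos c s z B U T K).U ∧
      (∀ v, v ∈ T ∨ v ∉ (clos c s z B U T K).U → (clos c s z B U T K).z v = z v) ∧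
      Expands c s 2 (clos c s z B U T K).z (B ∪ (clos c s z B U T K).U) := by
  obtain ⟨z', U', K', g⟩ := lclosure hS h hT hE
  have e : ∃ q : (Fin n → Bool) × Finset (Fin n) × Finset ι, St c s q.1 B q.2.1 q.2.2 ∧
      U ⊆ q.2.1 ∧ (∀ v, v ∈ T ∨ v ∉ q.2.1 → q.1 v = z v) ∧ Expands c s 2 q.1 (B ∪ q.2.1) :=
    ⟨(z', U', K'), g⟩
  unfold clos
  rw [dif_pos e]
  exact e.choose_spec

/-- The memory after the query of `x`, answered by `a` if `x` is new. -/
noncomputable def ask (c : ι → Finset (Fin n × Bool)) (s : ℕ) (M : Mem n ι) (x : Fin n)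
    (a : Bool) : Mem n ι :=
  if x ∈ M.B ∪ M.U then M else
    clos c s (Function.update M.z x a) (insert x M.B) M.U (insert x (M.B ∪ M.U)) M.K

/-- One step of the first phase. -/
noncomputable def step (c : ι → Finset (Fin n × Bool)) (s b : ℕ)
    (J : Fin S → Option (Fin S × Fin S × Fin n)) (z0 : Fin n → Bool) (σ : Fin S × Mem n ι) :
    Fin S × Mem n ι :=
  if b ≤ σ.2.B.card then σ else
    match J σ.1 with
    | none => σ
    | some (j, l, x) =>
      (if (ask c s σ.2 x (z0 x)).z x = true then l else j, ask c s σ.2 x (z0 x))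

/-- The first phase. -/
noncomputable def run (c : ι → Finset (Fin n × Bool)) (s b : ℕ)
    (J : Fin S → Option (Fin S × Fin S × Fin n)) (i0 : Fin S) (z0 : Fin n → Bool) :
    ℕ → Fin S × Mem n ι
  | 0 => (i0, clos c s (fun _ => false) ∅ ∅ ∅ ∅)
  | m + 1 => step c s b J z0 (run c s b J i0 z0 m)

variable {c : ι → Finset (Fin n × Bool)} {P : Fin S → Finset (Fin n × Bool)}
  {J : Fin S → Option (Fin S × Fin S × Fin n)} {s b x : ℕ} {z0 : Fin n → Bool}

lemma step_local (y : Fin n → Bool) (σ : Fin S × Mem n ι) :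
    σ.2.B ⊆ (step c s b J z0 σ).2.B ∧
      ((∀ v ∈ (step c s b J z0 σ).2.B, y v = z0 v) → step c s b J y σ = step c s b J z0 σ) := by
  unfold step
  by_cases hb : b ≤ σ.2.B.card
  · simp only [if_pos hb]; exact ⟨subset_rfl, fun _ => trivial⟩
  simp only [if_neg hb]
  rcases J σ.1 with _ | ⟨j, l, v⟩
  · exact ⟨subset_rfl, fun _ => rfl⟩
  by_cases hv : v ∈ σ.2.B ∪ σ.2.U
  · have e : ∀ a, ask c s σ.2 v a = σ.2 := fun a => by unfold ask; rw [if_pos hv]
    simp only [e]
    exact ⟨subset_rfl, fun _ => trivial⟩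
  · have e : (ask c s σ.2 v (z0 v)).B = insert v σ.2.B := by
      unfold ask; rw [if_neg hv, clos_B]
    simp only [e]
    refine ⟨subset_insert _ _, fun h => ?_⟩
    rw [h v (mem_insert_self _ _)]

lemma run_local (i0 : Fin S) (y : Fin n → Bool) (m : ℕ)
    (h : ∀ v ∈ (run c s b J i0 z0 m).2.B, y v = z0 v) :
    run c s b J i0 y m = run c s b J i0 z0 m := by
  induction m with
  | zero => rfl
  | succ m ih =>
    obtain ⟨h1, h2⟩ := step_local (c := c) (s := s) (b := b) (J := J) (z0 := z0) y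
      (run c s b J i0 z0 m)
    have e := ih fun v hv => h v (h1 hv)
    show step c s b J y (run c s b J i0 y m) = step c s b J z0 (run c s b J i0 z0 m)
    rw [e]
    exact h2 h

/-- The invariant of the first phase. -/
def Inv (c : ι → Finset (Fin n × Bool)) (P : Fin S → Finset (Fin n × Bool))
    (J : Fin S → Option (Fin S × Fin S × Fin n)) (s b : ℕ) (z0 : Fin n → Bool)
    (σ : Fin S × Mem n ι) : Prop :=
  St c s σ.2.z σ.2.B σ.2.U σ.2.K ∧ Expands c s 2 σ.2.z (σ.2.B ∪ σ.2.U) ∧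
    (∀ l ∈ P σ.1, l.1 ∈ σ.2.B ∪ σ.2.U ∧ σ.2.z l.1 ≠ l.2) ∧ (∀ v ∈ σ.2.B, σ.2.z v = z0 v) ∧
    σ.2.B.card ≤ b ∧ ∃ (t : ℕ) (p : ℕ → Fin S) (v : ℕ → Fin n), IsPath J t p v ∧ p t = σ.1 ∧
      σ.2.B ⊆ (range t).image v

omit [Fintype ι] [DecidableEq ι] in
lemma not_leaf (hs : 1 ≤ s) {z : Fin n → Bool} {T : Finset (Fin n)} (h2 : Expands c s 2 z T)
    {k : ι} (h3 : ∀ l ∈ c k, l.1 ∈ T ∧ z l.1 ≠ l.2) : False := by
  have e := h2 {k} (by simpa using hs) (by
    intro k' hk' l hl _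
    rw [mem_singleton.1 hk'] at hl
    exact (h3 l hl).2)
  have e2 : vars c {k} \ T = ∅ := by
    rw [sdiff_eq_empty_iff_subset]
    intro y hy
    obtain ⟨k', hk', l, hl, rfl⟩ := mem_vars.1 hy
    rw [mem_singleton.1 hk'] at hl
    exact (h3 l hl).1
  simp [e2] at e

lemma ask_spec (hS : LSp c s b x z0) (hx : 4 * s ≤ x) {M : Mem n ι} (v : Fin n)
    (h1 : St c s M.z M.B M.U M.K) (h2 : Expands c s 2 M.z (M.B ∪ M.U))
    (h4 : ∀ u ∈ M.B, M.z u = z0 u) (hb : M.B.card < b) {M' : Mem n ι}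
    (hM : M' = ask c s M v (z0 v)) :
    St c s M'.z M'.B M'.U M'.K ∧ Expands c s 2 M'.z (M'.B ∪ M'.U) ∧
      M.B ∪ M.U ⊆ M'.B ∪ M'.U ∧ (∀ u ∈ M.B ∪ M.U, M'.z u = M.z u) ∧ v ∈ M'.B ∪ M'.U ∧
      (∀ u ∈ M'.B, M'.z u = z0 u) ∧ M'.B.card ≤ b ∧ M'.B ⊆ insert v M.B := by
  unfold ask at hM
  by_cases hv : v ∈ M.B ∪ M.U
  · rw [if_pos hv] at hM
    subst hM
    exact ⟨h1, h2, subset_rfl, fun _ _ => rfl, hv, h4, hb.le, subset_insert _ _⟩
  rw [if_neg hv] at hM
  have hu : ∀ u ∈ M.B ∪ M.U, Function.update M.z v (z0 v) u = M.z u := fun u hu =>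
    Function.update_of_ne (fun e : u = v => hv (e ▸ hu)) _ _
  have hz : ∀ u ∈ insert v M.B, Function.update M.z v (z0 v) u = z0 u := by
    intro u hu'
    rcases mem_insert.1 hu' with rfl | e
    · exact Function.update_self ..
    · rw [hu u (mem_union_left _ e), h4 u e]
  have hc : (insert v M.B).card ≤ b := (card_insert_le _ _).trans hb
  obtain ⟨g1, g2, g3, g4⟩ := clos_spec (T := insert v (M.B ∪ M.U))
    (hS.move (D := ∅) (y := 4 * s) (by simpa using hx) hc fun u hu' _ => hz u hu')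
    ((h1.congr hu).insert v) (by rw [insert_union]) ((h2.congr hu).insert v)
  have eB : M'.B = insert v M.B := by rw [hM, clos_B]
  rw [← hM] at g1 g2 g3 g4
  rw [eB]
  refine ⟨g1, g4, ?_, fun u hu' => ?_, mem_union_left _ (mem_insert_self _ _), fun u hu' => ?_,
    hc, subset_rfl⟩
  · exact union_subset_union (subset_insert _ _) g2
  · rw [g3 u (Or.inl (mem_insert_of_mem hu')), hu u hu']
  · rw [g3 u (Or.inl ?_), hz u hu']
    rcases mem_insert.1 hu' with rfl | e
    · exact mem_insert_self _ _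
    · exact mem_insert_of_mem (mem_union_left _ e)

lemma step_inv (hS : LSp c s b x z0) (hx : 4 * s ≤ x) (hs : 1 ≤ s)
    (hax : ∀ i, J i = none → ∃ k, P i = c k)
    (hres : ∀ i j l x, J i = some (j, l, x) → j < i ∧ l < i ∧
      P i = (P j).erase (x, true) ∪ (P l).erase (x, false)) {σ : Fin S × Mem n ι}
    (h : Inv c P J s b z0 σ) :
    Inv c P J s b z0 (step c s b J z0 σ) ∧
      (b ≤ σ.2.B.card ∧ step c s b J z0 σ = σ ∨ (step c s b J z0 σ).1 < σ.1) := by
  by_cases hb : b ≤ σ.2.B.card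
  · have e : step c s b J z0 σ = σ := by unfold step; rw [if_pos hb]
    rw [e]; exact ⟨h, Or.inl ⟨hb, rfl⟩⟩
  obtain ⟨h1, h2, h3, h4, -, t, p, v, h6, h7, h8⟩ := h
  rcases hJ : J σ.1 with _ | ⟨j, l, u⟩
  · obtain ⟨k, hk⟩ := hax _ hJ
    exact (not_leaf hs h2 (hk ▸ h3)).elim
  obtain ⟨e1, e2, e3⟩ := hres _ j l u hJ
  have e : step c s b J z0 σ =
      (if (ask c s σ.2 u (z0 u)).z u = true then l else j, ask c s σ.2 u (z0 u)) := by
    unfold step; rw [if_neg hb, hJ]
  rw [e]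
  obtain ⟨g1, g2, g3, g4, g5, g6, g7, g8⟩ := ask_spec hS hx u h1 h2 h4 (by omega) rfl
  generalize ask c s σ.2 u (z0 u) = M at *
  have old : ∀ m ∈ P σ.1, m.1 ∈ M.B ∪ M.U ∧ M.z m.1 ≠ m.2 := fun m hm =>
    ⟨g3 (h3 m hm).1, by rw [g4 _ (h3 m hm).1]; exact (h3 m hm).2⟩
  have fin : ∀ k : Fin S, (k = j ∨ k = l) → (∀ m ∈ P k, m.1 ∈ M.B ∪ M.U ∧ M.z m.1 ≠ m.2) →
      Inv c P J s b z0 (k, M) := by
    intro k hk hm
    refine ⟨g1, g2, hm, g6, g7, t + 1, _, _, path_extend h6 (h7 ▸ hJ) hk, by simp,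
      fun y hy => ?_⟩
    rcases mem_insert.1 (g8 hy) with rfl | hy'
    · exact mem_image.2 ⟨t, mem_range.2 (by omega), by simp⟩
    · obtain ⟨r, hr, rfl⟩ := mem_image.1 (h8 hy')
      have r2 := mem_range.1 hr
      exact mem_image.2 ⟨r, mem_range.2 (by omega), by simp [r2]⟩
  cases hz : M.z u
  · rw [if_neg (by simp)]
    refine ⟨fin j (Or.inl rfl) fun m hm => ?_, Or.inr e1⟩
    by_cases e : m = (u, true)
    · subst e; exact ⟨g5, by simp [hz]⟩
    · exact old m (e3 ▸ mem_union_left _ (mem_erase.2 ⟨e, hm⟩))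
  · rw [if_pos rfl]
    refine ⟨fin l (Or.inr rfl) fun m hm => ?_, Or.inr e2⟩
    by_cases e : m = (u, false)
    · subst e; exact ⟨g5, by simp [hz]⟩
    · exact old m (e3 ▸ mem_union_right _ (mem_erase.2 ⟨e, hm⟩))

lemma run_end (hS : LSp c s b x z0) (hx : 4 * s ≤ x) (hs : 1 ≤ s) (v0 : Fin n)
    (h0 : ∀ K : Finset ι, K.card ≤ s → K.card ≤ (vars c K).card)
    (hax : ∀ i, J i = none → ∃ k, P i = c k)
    (hres : ∀ i j l x, J i = some (j, l, x) → j < i ∧ l < i ∧
      P i = (P j).erase (x, true) ∪ (P l).erase (x, false)) {i0 : Fin S} (hi : P i0 = ∅) :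
    Inv c P J s b z0 (run c s b J i0 z0 S) ∧ b ≤ (run c s b J i0 z0 S).2.B.card := by
  have key : ∀ m, Inv c P J s b z0 (run c s b J i0 z0 m) ∧
      (b ≤ (run c s b J i0 z0 m).2.B.card ∨ (run c s b J i0 z0 m).1.val + m ≤ i0.val) := by
    intro m
    induction m with
    | zero =>
      obtain ⟨g1, -, -, g4⟩ := clos_spec (c := c) (s := s) (z := fun _ => false) (B := ∅)
        (U := ∅) (T := ∅) (K := ∅)
        (hS.move (D := ∅) (y := 4 * s) (B := ∅) (z := fun _ => false) (by simpa using hx)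
          (by simp) (by simp))
        (St.empty hs _ ∅) (by simp) (fun K hK _ => by simpa using h0 K hK)
      refine ⟨?_, Or.inr le_rfl⟩
      unfold run Inv
      simp only [clos_B]
      exact ⟨g1, g4, by simp [hi], by simp, by simp, 0, fun _ => i0, fun _ => v0,
        fun r hr => absurd hr (by omega), rfl, by simp⟩
    | succ m ih =>
      obtain ⟨a1, a2⟩ := step_inv hS hx hs hax hres ih.1
      refine ⟨a1, ?_⟩
      show b ≤ (step c s b J z0 (run c s b J i0 z0 m)).2.B.card ∨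
        (step c s b J z0 (run c s b J i0 z0 m)).1.val + (m + 1) ≤ i0.val
      rcases a2 with ⟨a2, a3⟩ | a2
      · rw [a3]; exact Or.inl a2
      · rcases ih.2 with a4 | a4
        · exact Or.inl (a4.trans (card_le_card (step_local z0 _).1))
        · have : (step c s b J z0 (run c s b J i0 z0 m)).1.val < (run c s b J i0 z0 m).1.val := a2
          exact Or.inr (by omega)
  refine ⟨(key S).1, (key S).2.resolve_right ?_⟩
  have := i0.isLt
  omega

end Pool.Agent.P.MP_0f6e60_lc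
end

-- part Pool.Agent.P.MP_0f6e60_lc.RWalk
section

set_option autoImplicit false

namespace Pool.Agent.P.MP_0f6e60_lc

open Finset

variable {n S : ℕ} {ι : Type} [Fintype ι] [DecidableEq ι]

open Classical in
/-- Variables resolved at a step of segment `j` and at an earlier step. -/
noncomputable def Rep (t : ℕ) (v : ℕ → Fin n) (g : ℕ → ℕ) (j : ℕ) : Finset (Fin n) :=
  univ.filter fun x => ∃ a b : ℕ, a < b ∧ b < t ∧ g b = j ∧ v a = x ∧ v b = x

/-- The state at the end of a phase. -/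
def Fin1 (c : ι → Finset (Fin n × Bool)) (P : Fin S → Finset (Fin n × Bool))
    (J : Fin S → Option (Fin S × Fin S × Fin n)) (s e : ℕ) (z1 : Fin n → Bool)
    (Q : Finset (Fin n)) (i : Fin S) : Prop :=
  ∃ (z : Fin n → Bool) (T Fl : Finset (Fin n)) (ph t : ℕ) (p : ℕ → Fin S) (v : ℕ → Fin n),
    Expands c s 1 z T ∧ (∀ l ∈ P i, l.1 ∈ T ∧ z l.1 ≠ l.2) ∧ Fl.card ≤ 2 * s * ph ∧
    (∀ x, x ∉ Fl → z x = z1 x) ∧ IsPath J t p v ∧ p t = i ∧ Q ⊆ (range t).image v ∧
    ∀ g : ℕ → ℕ, Monotone g → (∀ j, (Rep t v g j).card ≤ e) → ph ≤ g t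

/-- The state inside a later phase. -/
def Mid (c : ι → Finset (Fin n × Bool)) (P : Fin S → Finset (Fin n × Bool))
    (J : Fin S → Option (Fin S × Fin S × Fin n)) (s e w : ℕ) (z1 : Fin n → Bool)
    (Q : Finset (Fin n)) (i : Fin S) (lim : ℕ) : Prop :=
  ∃ (z : Fin n → Bool) (B U N Fl : Finset (Fin n)) (K : Finset ι) (ph τ t : ℕ) (p : ℕ → Fin S)
    (v : ℕ → Fin n), St c s z B U K ∧ Expands c s 2 z (B ∪ U) ∧
    (∀ l ∈ P i, l.1 ∈ B ∪ U ∧ z l.1 ≠ l.2) ∧ N ⊆ B ∧ B.card < w + N.card ∧ B.card ≤ lim ∧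
    Fl.card ≤ 2 * s * ph ∧ (∀ x, x ∉ Fl ∪ U → z x = z1 x) ∧ IsPath J t p v ∧ p t = i ∧
    τ ≤ t ∧ N ⊆ (Ico τ t).image v ∧ Q ⊆ (range τ).image v ∧
    ∀ g : ℕ → ℕ, Monotone g → (∀ j, (Rep t v g j).card ≤ e) → ph ≤ g τ

variable {c : ι → Finset (Fin n × Bool)} {P : Fin S → Finset (Fin n × Bool)}
  {J : Fin S → Option (Fin S × Fin S × Fin n)} {s b x e w d R : ℕ} {z1 : Fin n → Bool}
  {Q : Finset (Fin n)}

lemma fin1_restart (hS : LSp c s b x z1) (hx : 2 * s * (R + 1) + 4 * s ≤ x) (hs : 1 ≤ s)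
    (hpath : ∀ t p v, IsPath J t p v → ∃ g : ℕ → ℕ, Monotone g ∧ g t ≤ R ∧
      ∀ j, (Rep t v g j).card ≤ e) (hwb : w ≤ b)
    {i : Fin S} (h : Fin1 c P J s e z1 Q i) (hw : ((P i).image Prod.fst).card < w) :
    Mid c P J s e w z1 Q i (b - 1) := by
  obtain ⟨z, T, Fl, ph, t, p, v, h1, h2, h3, h4, h5, h6, h7, h8⟩ := h
  obtain ⟨g, hg, hR, hb⟩ := hpath t p v h5
  have e1 : 2 * s * ph ≤ 2 * s * R := Nat.mul_le_mul_left _ ((h8 g hg hb).trans hR)
  rw [Nat.mul_succ] at hx
  have hT : (P i).image Prod.fst ∪ ∅ ⊆ T := by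
    intro y hy
    rw [union_empty] at hy
    obtain ⟨l, hl, rfl⟩ := mem_image.1 hy
    exact (h2 l hl).1
  obtain ⟨z', U', K', g1, -, g3, g4⟩ := lclosure (T := T)
    (hS.move (D := Fl) (y := 4 * s) (B := (P i).image Prod.fst) (z := z) (by omega) (by omega)
      fun u _ hu => h4 u hu) (St.empty hs z ((P i).image Prod.fst)) hT h1
  refine ⟨z', _, U', ∅, Fl, K', ph, t, t, p, v, g1, g4, ?_, by simp, by simpa using hw,
    by omega, h3, ?_, h5, h6, le_rfl, by simp, h7, h8⟩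
  · intro l hl
    refine ⟨mem_union_left _ (mem_image_of_mem _ hl), ?_⟩
    rw [g3 _ (Or.inl (h2 l hl).1)]
    exact (h2 l hl).2
  · intro y hy
    rw [mem_union, not_or] at hy
    rw [g3 y (Or.inr hy.2), h4 y hy.1]

lemma mid_cases (hQ : n ≤ Q.card + d) (hw : w + d + e ≤ b) {i : Fin S}
    (h : Mid c P J s e w z1 Q i b) : Mid c P J s e w z1 Q i (b - 1) ∨ Fin1 c P J s e z1 Q i := by
  classical
  obtain ⟨z, B, U, N, Fl, K, ph, τ, t, p, v, h1, h2, h3, h4, h5, h6, h7, h8, h9, h10, h11, h12,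
    h13, h14⟩ := h
  by_cases hB : B.card ≤ b - 1
  · exact Or.inl ⟨z, B, U, N, Fl, K, ph, τ, t, p, v, h1, h2, h3, h4, h5, hB, h7, h8, h9, h10,
      h11, h12, h13, h14⟩
  refine Or.inr ⟨z, B ∪ U, Fl ∪ U, ph + 1, t, p, v, h2.one, h3, ?_, h8, h9, h10,
    h13.trans (image_subset_image (range_subset_range.2 h11)), fun g hg hb => ?_⟩
  · have := card_union_le Fl U
    have := h1.hU
    have := h1.hs
    rw [Nat.mul_succ]; omega
  · have e1 := h14 g hg hb
    by_contra hlt
    have e2 : N ∩ Q ⊆ Rep t v g (g τ) := by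
      intro y hy
      obtain ⟨a, ha, ea⟩ := mem_image.1 (h13 (mem_inter.1 hy).2)
      obtain ⟨r, hr, er⟩ := mem_image.1 (h12 (mem_inter.1 hy).1)
      obtain ⟨r1, r2⟩ := mem_Ico.1 hr
      have a1 := mem_range.1 ha
      have := hg r1
      have := hg r2.le
      unfold Rep
      exact mem_filter.2 ⟨mem_univ _, a, r, by omega, r2, by omega, ea, er⟩
    have e3 := (card_le_card e2).trans (hb _)
    have e4 := card_union_add_card_inter N Q
    have e5 : (N ∪ Q).card ≤ n := (card_le_univ _).trans (by simp)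
    omega

lemma mid_advance (hS : LSp c s b x z1) (hx : 2 * s * (R + 1) + 4 * s ≤ x)
    (hpath : ∀ t p v, IsPath J t p v → ∃ g : ℕ → ℕ, Monotone g ∧ g t ≤ R ∧
      ∀ j, (Rep t v g j).card ≤ e) (hb1 : 1 ≤ b) {i j l : Fin S}
    {u : Fin n} (h : Mid c P J s e w z1 Q i (b - 1)) (hJ : J i = some (j, l, u))
    (hP : P i = (P j).erase (u, true) ∪ (P l).erase (u, false)) :
    Mid c P J s e w z1 Q j b ∨ Mid c P J s e w z1 Q l b := by
  classical
  obtain ⟨z, B, U, N, Fl, K, ph, τ, t, p, v, h1, h2, h3, h4, h5, h6, h7, h8, h9, h10, h11, h12,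
    h13, h14⟩ := h
  obtain ⟨g0, hg0, hR, hb0⟩ := hpath t p v h9
  have e1 : 2 * s * ph ≤ 2 * s * R :=
    Nat.mul_le_mul_left _ ((h14 g0 hg0 hb0).trans ((hg0 h11).trans hR))
  rw [Nat.mul_succ] at hx
  have key : ∃ (z' : Fin n → Bool) (B' U' N' : Finset (Fin n)) (K' : Finset ι),
      St c s z' B' U' K' ∧ Expands c s 2 z' (B' ∪ U') ∧
      (∀ l ∈ P i, l.1 ∈ B' ∪ U' ∧ z' l.1 ≠ l.2) ∧ u ∈ B' ∪ U' ∧ N' ⊆ B' ∧
      B'.card < w + N'.card ∧ B'.card ≤ b ∧ (∀ y, y ∉ Fl ∪ U' → z' y = z1 y) ∧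
      N' ⊆ insert u N := by
    by_cases hu : u ∈ B ∪ U
    · exact ⟨z, B, U, N, K, h1, h2, h3, hu, h4, h5, by omega, h8, subset_insert _ _⟩
    have hxB : u ∉ B := fun h => hu (mem_union_left _ h)
    have hxN : u ∉ N := fun h => hxB (h4 h)
    have hc : (insert u B).card ≤ b := by rw [card_insert_of_notMem hxB]; omega
    obtain ⟨z', U', K', g1, g2, g3, g4⟩ := lclosure (T := insert u (B ∪ U))
      (hS.move (D := Fl ∪ U) (y := 4 * s) (B := insert u B) (z := z) (by
        have := card_union_le Fl U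
        have := h1.hU
        have := h1.hs
        omega) hc fun y _ hy => h8 y hy) (h1.insert u) (by rw [insert_union]) (h2.insert u)
    refine ⟨z', insert u B, U', insert u N, K', g1, g4, ?_, by simp, insert_subset_insert _ h4,
      by rw [card_insert_of_notMem hxB, card_insert_of_notMem hxN]; omega, hc, ?_, subset_rfl⟩
    · intro l hl
      refine ⟨?_, ?_⟩
      · rcases mem_union.1 (h3 l hl).1 with e | e
        · exact mem_union_left _ (mem_insert_of_mem e)
        · exact mem_union_right _ (g2 e)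
      · rw [g3 _ (Or.inl (mem_insert_of_mem (h3 l hl).1))]
        exact (h3 l hl).2
    · intro y hy
      rw [mem_union, not_or] at hy
      rw [g3 y (Or.inr hy.2), h8 y (by
        rw [mem_union, not_or]; exact ⟨hy.1, fun e => hy.2 (g2 e)⟩)]
  obtain ⟨z', B', U', N', K', g1, g2, g3, g4, g5, g6, g7, g8, g9⟩ := key
  have fin : ∀ k : Fin S, (k = j ∨ k = l) → (∀ m ∈ P k, m.1 ∈ B' ∪ U' ∧ z' m.1 ≠ m.2) →
      Mid c P J s e w z1 Q k b := by
    intro k hk hm
    refine ⟨z', B', U', N', Fl, K', ph, τ, t + 1, _, _, g1, g2, hm, g5, g6, g7, h7, g8,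
      path_extend h9 (h10 ▸ hJ) hk, by simp, by omega, fun y hy => ?_, fun y hy => ?_,
      fun g hg hb => ?_⟩
    · rcases mem_insert.1 (g9 hy) with rfl | hy'
      · exact mem_image.2 ⟨t, mem_Ico.2 ⟨h11, by omega⟩, by simp⟩
      · obtain ⟨r, hr, rfl⟩ := mem_image.1 (h12 hy')
        obtain ⟨r1, r2⟩ := mem_Ico.1 hr
        exact mem_image.2 ⟨r, mem_Ico.2 ⟨r1, by omega⟩, by simp [r2]⟩
    · obtain ⟨r, hr, rfl⟩ := mem_image.1 (h13 hy)
      have r1 := mem_range.1 hr
      exact mem_image.2 ⟨r, hr, by simp [show r < t by omega]⟩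
    · refine h14 g hg fun a => (card_le_card fun y hy => ?_).trans (hb a)
      unfold Rep at hy ⊢
      obtain ⟨-, a1, a2, r1, r2, r3, r4, r5⟩ := mem_filter.1 hy
      exact mem_filter.2 ⟨mem_univ _, a1, a2, r1, by omega, r3,
        by simp [show a1 < t by omega, r4], by simp [r2, r5]⟩
  cases hz : z' u
  · left
    refine fin j (Or.inl rfl) fun m hm => ?_
    by_cases e : m = (u, true)
    · subst e; exact ⟨g4, by simp [hz]⟩
    · exact g3 m (hP ▸ mem_union_left _ (mem_erase.2 ⟨e, hm⟩))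
  · right
    refine fin l (Or.inr rfl) fun m hm => ?_
    by_cases e : m = (u, false)
    · subst e; exact ⟨g4, by simp [hz]⟩
    · exact g3 m (hP ▸ mem_union_right _ (mem_erase.2 ⟨e, hm⟩))

lemma rwalk (hS : LSp c s b x z1) (hx : 2 * s * (R + 1) + 4 * s ≤ x) (hs : 1 ≤ s)
    (hpath : ∀ t p v, IsPath J t p v → ∃ g : ℕ → ℕ, Monotone g ∧ g t ≤ R ∧
      ∀ j, (Rep t v g j).card ≤ e) (hQ : n ≤ Q.card + d) (hw : w + d + e ≤ b) (hb1 : 1 ≤ b)
    (hax : ∀ i, J i = none → ∃ k, P i = c k)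
    (hres : ∀ i j l x, J i = some (j, l, x) → j < i ∧ l < i ∧
      P i = (P j).erase (x, true) ∪ (P l).erase (x, false)) (i : Fin S)
    (h : Mid c P J s e w z1 Q i b ∨ Fin1 c P J s e z1 Q i) :
    ∃ i', Fin1 c P J s e z1 Q i' ∧ w ≤ ((P i').image Prod.fst).card := by
  induction' hi : i.val using Nat.strong_induction_on with m ih generalizing i
  have h2 : Mid c P J s e w z1 Q i (b - 1) ∨ Fin1 c P J s e z1 Q i := by
    rcases h with h | h
    · exact mid_cases hQ hw h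
    · exact Or.inr h
  have h3 : Mid c P J s e w z1 Q i (b - 1) ∨
      (Fin1 c P J s e z1 Q i ∧ w ≤ ((P i).image Prod.fst).card) := by
    rcases h2 with h | h
    · exact Or.inl h
    · by_cases hw' : w ≤ ((P i).image Prod.fst).card
      · exact Or.inr ⟨h, hw'⟩
      · exact Or.inl (fin1_restart hS hx hs hpath (by omega) h (by omega))
  rcases h3 with h' | h'
  swap
  · exact ⟨i, h'⟩
  rcases hJ : J i with _ | ⟨j, l, u⟩
  · obtain ⟨k, hk⟩ := hax i hJ
    obtain ⟨z, B, U, N, Fl, K, ph, τ, t, p, v, -, a2, a3, -⟩ := h'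
    exact (not_leaf hs a2 (hk ▸ a3)).elim
  · obtain ⟨e1, e2, e3⟩ := hres i j l u hJ
    rcases mid_advance hS hx hpath hb1 h' hJ e3 with g | g
    · exact ih j.val (hi ▸ e1) j (Or.inl g) rfl
    · exact ih l.val (hi ▸ e2) l (Or.inl g) rfl

end Pool.Agent.P.MP_0f6e60_lc
end

-- part Pool.Agent.P.MP_0f6e60_lc.RCount
section

set_option autoImplicit false

namespace Pool.Agent.P.MP_0f6e60_lc

open Finset

variable {n S : ℕ} {ι : Type} [Fintype ι] [DecidableEq ι]
  {c : ι → Finset (Fin n × Bool)} {P : Fin S → Finset (Fin n × Bool)}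
  {J : Fin S → Option (Fin S × Fin S × Fin n)} {s b x e w d R : ℕ}

theorem rcount (G : Finset (Fin n → Bool)) (hG : ∀ z ∈ G, LSp c s b (2 * s + x) z)
    (hx : 2 * s * (R + 1) + 4 * s ≤ x) (hs : 1 ≤ s) (v0 : Fin n)
    (h0 : ∀ K : Finset ι, K.card ≤ s → K.card ≤ (vars c K).card)
    (hroot : ∃ i, P i = ∅) (hax : ∀ i, J i = none → ∃ k, P i = c k)
    (hres : ∀ i j l x, J i = some (j, l, x) → j < i ∧ l < i ∧
      P i = (P j).erase (x, true) ∪ (P l).erase (x, false))
    (hpath : ∀ t p v, IsPath J t p v → ∃ g : ℕ → ℕ, Monotone g ∧ g t ≤ R ∧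
      ∀ j, (Rep t v g j).card ≤ e) (hb : n ≤ b + d) (hw : w + d + e ≤ b) (hb1 : 1 ≤ b) :
    G.card ≤ S * ((univ.filter fun Fl : Finset (Fin n) => Fl.card ≤ 2 * s * R).card *
      (2 ^ (n - (w - 2 * s * R)) * 2 ^ (2 * s))) := by
  classical
  obtain ⟨i0, hi0⟩ := hroot
  set f := 2 * s * R with hf
  let Z : Fin S → Finset (Fin n) → Finset (Fin n → Bool) := fun i Fl =>
    univ.filter fun z => w ≤ ((P i).image Prod.fst).card ∧ ∀ l ∈ P i, l.1 ∉ Fl → z l.1 ≠ l.2
  let Y : (Fin n → Bool) → Finset (Fin n → Bool) := fun y =>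
    univ.filter fun z => (run c s b J i0 y S).2.U.card ≤ 2 * s ∧
      ∀ v, v ∉ (run c s b J i0 y S).2.U → z v = y v
  have hcov : G ⊆ univ.biUnion fun i =>
      (univ.filter fun Fl : Finset (Fin n) => Fl.card ≤ f).biUnion fun Fl =>
        (Z i Fl).biUnion Y := by
    intro z0 hz0
    have hS := hG z0 hz0
    obtain ⟨⟨h1, h2, h3, h4, -, t, p, v, h6, h7, h8⟩, hB⟩ :=
      run_end (P := P) (J := J) hS (by omega) hs v0 h0 hax hres hi0
    have hloc := fun y => run_local (c := c) (s := s) (b := b) (J := J) (z0 := z0) i0 y S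
    generalize run c s b J i0 z0 S = σ at *
    let z1 : Fin n → Bool := fun u => if u ∈ σ.2.B ∪ σ.2.U then σ.2.z u else z0 u
    have a1 : ∀ u ∈ σ.2.B ∪ σ.2.U, z1 u = σ.2.z u := fun u hu => if_pos hu
    have aB : ∀ u ∈ σ.2.B, z1 u = z0 u := fun u hu => by
      rw [a1 u (mem_union_left _ hu), h4 u hu]
    have a2 : ∀ u, u ∉ σ.2.U → z1 u = z0 u := by
      intro u hu
      by_cases e1 : u ∈ σ.2.B
      · exact aB u e1
      · exact if_neg (by simp [e1, hu])
    have hU : σ.2.U.card ≤ 2 * s := by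
      have := h1.hU
      have := h1.hs
      omega
    have hS1 : LSp c s b x z1 := fun B hB' =>
      hS.move (D := σ.2.U) (y := x) (by omega) hB' fun u _ hu => a2 u hu
    obtain ⟨i, ⟨z, T, Fl, ph, t', p', v', -, g2, g3, g4, g5, -, -, g8⟩, hwi⟩ :=
      rwalk (Q := σ.2.B) (d := d) hS1 hx hs hpath (by omega) hw hb1 hax hres σ.1
        (Or.inr ⟨z1, σ.2.B ∪ σ.2.U, ∅, 0, t, p, v, (h2.congr a1).one,
          fun l hl => ⟨(h3 l hl).1, by rw [a1 _ (h3 l hl).1]; exact (h3 l hl).2⟩, by simp,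
          fun _ _ => rfl, h6, h7, h8, fun _ _ _ => Nat.zero_le _⟩)
    obtain ⟨g, hg, hR, hbd⟩ := hpath t' p' v' g5
    have e1 : 2 * s * ph ≤ f := Nat.mul_le_mul_left _ ((g8 g hg hbd).trans hR)
    let y : Fin n → Bool := fun u => if u ∉ Fl then z u else z0 u
    have b1 : ∀ u, z1 u = z0 u → y u = z0 u := by
      intro u hu
      by_cases e2 : u ∉ Fl
      · show (if u ∉ Fl then z u else z0 u) = z0 u
        rw [if_pos e2, g4 u e2, hu]
      · exact if_neg e2
    have b2 := hloc y fun u hu => b1 u (aB u hu)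
    refine mem_biUnion.2 ⟨i, mem_univ _, mem_biUnion.2 ⟨Fl, mem_filter.2 ⟨mem_univ _, by omega⟩,
      mem_biUnion.2 ⟨y, mem_filter.2 ⟨mem_univ _, hwi, fun l hl hl' => ?_⟩,
        mem_filter.2 ⟨mem_univ _, ?_⟩⟩⟩⟩
    · show (if l.1 ∉ Fl then z l.1 else z0 l.1) ≠ l.2
      rw [if_pos hl']; exact (g2 l hl).2
    · rw [b2]
      exact ⟨hU, fun u hu => (b1 u (a2 u hu)).symm⟩
  have hY : ∀ y, (Y y).card ≤ 2 ^ (2 * s) := by
    intro y
    rcases (Y y).eq_empty_or_nonempty with e | ⟨z1, hz1⟩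
    · simp [e]
    have hU := (mem_filter.1 hz1).2.1
    refine (card_agree ((run c s b J i0 y S).2.U)ᶜ _ ?_).trans (Nat.pow_le_pow_right two_pos ?_)
    · intro a ha a' ha' u hu
      rw [(mem_filter.1 ha).2.2 u (mem_compl.1 hu), (mem_filter.1 ha').2.2 u (mem_compl.1 hu)]
    · rw [card_compl, Fintype.card_fin]; omega
  have hZ : ∀ i, ∀ Fl ∈ univ.filter fun Fl : Finset (Fin n) => Fl.card ≤ f,
      (Z i Fl).card ≤ 2 ^ (n - (w - f)) := by
    intro i Fl hFl
    rcases (Z i Fl).eq_empty_or_nonempty with e | ⟨z1, hz1⟩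
    · simp [e]
    have hw := (mem_filter.1 hz1).2.1
    refine (card_agree ((P i).image Prod.fst \ Fl) _ ?_).trans (Nat.pow_le_pow_right two_pos ?_)
    · intro y hy z hz x hx
      obtain ⟨hx1, hx2⟩ := mem_sdiff.1 hx
      obtain ⟨l, hl, rfl⟩ := mem_image.1 hx1
      have a1 := (mem_filter.1 hy).2.2 l hl hx2
      have a2 := (mem_filter.1 hz).2.2 l hl hx2
      cases e1 : y l.1 <;> cases e2 : z l.1 <;> cases e3 : l.2 <;> simp_all
    · have := le_card_sdiff Fl ((P i).image Prod.fst)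
      have := (mem_filter.1 hFl).2
      omega
  refine (card_le_card hcov).trans ((card_biUnion_le_card_mul _ _ _ fun i _ =>
    card_biUnion_le_card_mul _ _ _ fun Fl hFl => (card_biUnion_le_card_mul _ _ _
      fun y _ => hY y).trans (Nat.mul_le_mul_right _ (hZ i Fl hFl))).trans ?_)
  simp

end Pool.Agent.P.MP_0f6e60_lc
end

-- part Pool.Agent.P.MP_0f6e60_lc.RRandom
section

set_option autoImplicit false

namespace Pool.Agent.P.MP_0f6e60_lc

open Finset

variable {n k m : ℕ}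

lemma markov {α β : Type} [Fintype α] [Fintype β] [DecidableEq α] (bad : β → Finset α) {M : ℝ}
    (hβ : 0 < Fintype.card β) (h : ∀ z, ((bad z).card : ℝ) ≤ M) :
    ((univ.filter fun ω : α => Fintype.card β <
      2 * (univ.filter fun z => ω ∈ bad z).card).card : ℝ) ≤ 2 * M := by
  have e : ∑ ω : α, (univ.filter fun z => ω ∈ bad z).card = ∑ z : β, (bad z).card := by
    simp only [card_filter]
    rw [sum_comm]
    refine sum_congr rfl fun z _ => ?_
    rw [← card_filter]; simp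
  set A := univ.filter fun ω : α => Fintype.card β < 2 * (univ.filter fun z => ω ∈ bad z).card
  have h1 : A.card * Fintype.card β ≤ 2 * ∑ z : β, (bad z).card := by
    rw [← e, mul_sum]
    calc _ = ∑ _ω ∈ A, Fintype.card β := by rw [sum_const, smul_eq_mul]
      _ ≤ ∑ ω ∈ A, 2 * (univ.filter fun z => ω ∈ bad z).card :=
          sum_le_sum fun ω hω => (mem_filter.1 hω).2.le
      _ ≤ _ := sum_le_sum_of_subset (subset_univ _)
  have h2 : (A.card : ℝ) * Fintype.card β ≤ 2 * ∑ z : β, ((bad z).card : ℝ) := by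
    exact_mod_cast h1
  have h3 : ∑ z : β, ((bad z).card : ℝ) ≤ Fintype.card β * M := by
    have := sum_le_card_nsmul univ _ M fun z _ => h z
    rwa [card_univ, nsmul_eq_mul] at this
  have h4 : (0 : ℝ) < Fintype.card β := by exact_mod_cast hβ
  refine le_of_mul_le_mul_right ?_ h4
  linarith

theorem exists_formula2 {s b x : ℕ} (hn : 0 < n) (hsn : s ≤ n) (hbn : b ≤ n) (hxn : x ≤ n)
    (h : (2 : ℝ) ^ n * (1 - (1 / 2 : ℝ) ^ k) ^ m +
      2 * (n.choose b * (n.choose x * (m.choose s * ((((b : ℝ) + 2 * x) / (2 * n)) ^ k) ^ s))) +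
      ∑ j ∈ Icc 1 s, (n.choose j : ℝ) * (m.choose j * (((j : ℝ) / n) ^ k) ^ j) < 1) :
    ∃ c : Fin m → Finset (Fin n × Bool), (∀ i, (c i).card ≤ k) ∧
      (∀ x : Fin n → Bool, ∃ i, ∀ l ∈ c i, x l.1 ≠ l.2) ∧
      (∃ G : Finset (Fin n → Bool), 2 ^ n ≤ 2 * G.card ∧ ∀ z ∈ G, LSp c s b x z) ∧
      ∀ K : Finset (Fin m), K.card ≤ s → K.card ≤ (vars c K).card := by
  classical
  set Tot : ℝ := ((2 * n : ℝ) ^ k) ^ m with hTot
  have hT : 0 < Tot := by positivity
  let Ω := Fin m → Fin k → Fin n × Bool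
  let ins : Finset (Fin m) → Finset (Fin n × Bool) → Finset Ω := fun I A =>
    univ.filter fun ω => ∀ i ∈ I, ∀ j, ω i j ∈ A
  let B1 : Finset Ω := univ.biUnion fun x : Fin n → Bool =>
    univ.filter fun ω => ∀ i, ¬ ∀ j, x (ω i j).1 ≠ (ω i j).2
  let bad : (Fin n → Bool) → Finset Ω := fun z => (powersetCard b univ).biUnion
    fun B : Finset (Fin n) => (powersetCard x univ).biUnion fun X : Finset (Fin n) =>
      (powersetCard s univ).biUnion fun I => ins I (B.image (fun v => (v, !z v)) ∪ X ×ˢ univ)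
  let B2 : Finset Ω := univ.filter fun ω => Fintype.card (Fin n → Bool) <
    2 * (univ.filter fun z => ω ∈ bad z).card
  let B3 : Finset Ω := (Icc 1 s).biUnion fun j => (powersetCard j univ).biUnion
    fun U : Finset (Fin n) => (powersetCard j univ).biUnion fun I => ins I (U ×ˢ univ)
  have c1 : (B1.card : ℝ) ≤ Tot * ((2 : ℝ) ^ n * (1 - (1 / 2 : ℝ) ^ k) ^ m) := by
    refine (Nat.cast_le.2 card_biUnion_le).trans (le_of_eq ?_)
    push_cast
    rw [sum_congr rfl fun x _ => card_sat x hn]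
    simp only [sum_const, card_univ, Fintype.card_fun, Fintype.card_fin, Fintype.card_bool,
      nsmul_eq_mul]
    push_cast; ring
  have c2 : (B2.card : ℝ) ≤ Tot * (2 * (n.choose b * (n.choose x *
      (m.choose s * ((((b : ℝ) + 2 * x) / (2 * n)) ^ k) ^ s)))) := by
    refine (markov bad (M := Tot * (n.choose b * (n.choose x *
      (m.choose s * ((((b : ℝ) + 2 * x) / (2 * n)) ^ k) ^ s)))) Fintype.card_pos
      fun z => ?_).trans (le_of_eq (by ring))
    refine (Nat.cast_le.2 card_biUnion_le).trans ?_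
    push_cast
    refine (sum_le_card_nsmul _ _ (Tot * (n.choose x *
      (m.choose s * ((((b : ℝ) + 2 * x) / (2 * n)) ^ k) ^ s))) ?_).trans (le_of_eq ?_)
    · intro B hB
      refine (Nat.cast_le.2 card_biUnion_le).trans ?_
      push_cast
      refine (sum_le_card_nsmul _ _ (Tot *
        (m.choose s * ((((b : ℝ) + 2 * x) / (2 * n)) ^ k) ^ s)) ?_).trans (le_of_eq ?_)
      · intro X hX
        refine (Nat.cast_le.2 card_biUnion_le).trans ?_
        push_cast
        refine (sum_le_card_nsmul _ _ (Tot * ((((b : ℝ) + 2 * x) / (2 * n)) ^ k) ^ s) ?_).trans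
          (le_of_eq ?_)
        · intro I hI
          rw [card_inside I _ hn, (mem_powersetCard.1 hI).2]
          have h1 := card_union_le (B.image (fun v => (v, !z v))) (X ×ˢ (univ : Finset Bool))
          have h2 : (B.image (fun v => (v, !z v))).card ≤ B.card := card_image_le
          have h3 : (X ×ˢ (univ : Finset Bool)).card = X.card * 2 := by simp
          rw [(mem_powersetCard.1 hB).2] at h2
          rw [(mem_powersetCard.1 hX).2] at h3
          have : ((B.image (fun v => (v, !z v)) ∪ X ×ˢ (univ : Finset Bool)).card : ℝ) ≤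
              b + 2 * x := by exact_mod_cast (show _ ≤ b + 2 * x by omega)
          gcongr
        · rw [card_powersetCard, card_univ, Fintype.card_fin, nsmul_eq_mul]; ring
      · rw [card_powersetCard, card_univ, Fintype.card_fin, nsmul_eq_mul]; ring
    · rw [card_powersetCard, card_univ, Fintype.card_fin, nsmul_eq_mul]; ring
  have c3 : (B3.card : ℝ) ≤
      Tot * ∑ j ∈ Icc 1 s, (n.choose j : ℝ) * (m.choose j * (((j : ℝ) / n) ^ k) ^ j) := by
    refine (Nat.cast_le.2 card_biUnion_le).trans ?_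
    push_cast
    rw [mul_sum]
    refine sum_le_sum fun j _ => ?_
    refine (Nat.cast_le.2 card_biUnion_le).trans ?_
    push_cast
    refine (sum_le_card_nsmul _ _ (Tot * (m.choose j * (((j : ℝ) / n) ^ k) ^ j)) ?_).trans
      (le_of_eq ?_)
    · intro U hU
      refine (Nat.cast_le.2 card_biUnion_le).trans ?_
      push_cast
      refine (sum_le_card_nsmul _ _ (Tot * (((j : ℝ) / n) ^ k) ^ j) ?_).trans (le_of_eq ?_)
      · intro I hI
        rw [card_inside I _ hn, (mem_powersetCard.1 hI).2, card_product,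
          (mem_powersetCard.1 hU).2]
        have : ((j * (univ : Finset Bool).card : ℕ) : ℝ) / (2 * n) = j / n := by
          simp only [card_univ, Fintype.card_bool]; push_cast; field_simp
        rw [this]
      · rw [card_powersetCard, card_univ, Fintype.card_fin, nsmul_eq_mul]; ring
    · rw [card_powersetCard, card_univ, Fintype.card_fin, nsmul_eq_mul]; ring
  have hlt : (B1 ∪ B2 ∪ B3).card < (univ : Finset Ω).card := by
    have e : ((univ : Finset Ω).card : ℝ) = Tot := by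
      simp only [Ω, card_univ, Fintype.card_fun, Fintype.card_prod, Fintype.card_fin,
        Fintype.card_bool, hTot]
      push_cast; ring
    have u1 : ((B1 ∪ B2 ∪ B3).card : ℝ) ≤ B1.card + B2.card + B3.card := by
      exact_mod_cast (card_union_le _ _).trans (Nat.add_le_add_right (card_union_le _ _) _)
    have : ((B1 ∪ B2 ∪ B3).card : ℝ) < (univ : Finset Ω).card := by
      rw [e]; nlinarith
    exact_mod_cast this
  obtain ⟨ω, -, hω⟩ := exists_mem_notMem_of_card_lt_card hlt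
  rw [mem_union, mem_union, not_or, not_or] at hω
  obtain ⟨⟨h1, h2⟩, h3⟩ := hω
  refine ⟨fun i => univ.image (ω i), fun i => card_image_le.trans (by simp), ?_, ?_, ?_⟩
  · intro x
    by_contra hx
    refine h1 (mem_biUnion.2 ⟨x, mem_univ _, mem_filter.2 ⟨mem_univ _, fun i hi => hx ⟨i, ?_⟩⟩⟩)
    intro l hl
    obtain ⟨j, -, rfl⟩ := mem_image.1 hl
    exact hi j
  · have e1 : ¬ Fintype.card (Fin n → Bool) < 2 * (univ.filter fun z => ω ∈ bad z).card :=
      fun e => h2 (mem_filter.2 ⟨mem_univ _, e⟩)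
    have e2 := card_filter_add_card_filter_not (s := (univ : Finset (Fin n → Bool)))
      fun z => ω ∈ bad z
    have e3 : Fintype.card (Fin n → Bool) = 2 ^ n := by simp
    rw [card_univ] at e2
    refine ⟨univ.filter fun z => ¬ ω ∈ bad z, by omega, fun z hz B hB X hX K hK => ?_⟩
    by_contra hs
    obtain ⟨I, hI, hIs⟩ := exists_subset_card_eq (not_lt.1 hs)
    obtain ⟨B', hB', hBc⟩ := exists_superset_card_eq hB (by simpa using hbn)
    obtain ⟨X', hX', hXc⟩ := exists_superset_card_eq hX (by simpa using hxn)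
    refine (mem_filter.1 hz).2 (mem_biUnion.2 ⟨B', mem_powersetCard.2 ⟨subset_univ _, hBc⟩,
      mem_biUnion.2 ⟨X', mem_powersetCard.2 ⟨subset_univ _, hXc⟩, mem_biUnion.2 ⟨I,
      mem_powersetCard.2 ⟨subset_univ _, hIs⟩, mem_filter.2 ⟨mem_univ _, fun i hi j => ?_⟩⟩⟩⟩)
    rcases hK i (hI hi) (ω i j) (mem_image_of_mem _ (mem_univ _)) with e | e
    · refine mem_union_left _ (mem_image.2 ⟨(ω i j).1, hB' e.1, ?_⟩)
      have e4 := e.2
      generalize ω i j = l at e4
      obtain ⟨v, a⟩ := l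
      simp only at e4 ⊢
      cases a <;> cases hz : z v <;> simp_all
    · exact mem_union_right _ (mem_product.2 ⟨hX' e, mem_univ _⟩)
  · intro K hK
    by_contra hlt'
    push Not at hlt'
    obtain ⟨U, hU, hUc⟩ := exists_superset_card_eq hlt'.le (by simp; omega)
    exact h3 (mem_biUnion.2 ⟨K.card, mem_Icc.2 ⟨by omega, hK⟩, mem_biUnion.2 ⟨U,
      mem_powersetCard.2 ⟨subset_univ _, hUc⟩, mem_biUnion.2 ⟨K,
      mem_powersetCard.2 ⟨subset_univ _, rfl⟩, mem_filter.2 ⟨mem_univ _, fun i hi j =>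
        mem_product.2 ⟨hU (mem_vars.2 ⟨i, hi, ω i j, mem_image_of_mem _ (mem_univ _), rfl⟩),
          mem_univ _⟩⟩⟩⟩⟩)

end Pool.Agent.P.MP_0f6e60_lc
end

-- part Pool.Agent.P.MP_0f6e60_lc.RMain
section

set_option autoImplicit false

namespace Pool.Agent.P.MP_0f6e60_lc

open Finset Real

lemma term4 {k n s a : ℕ} {L : ℝ} (hn : 0 < n) (hs : 0 < s) (ha : 8 ≤ a) (hL : 1 ≤ L)
    (h1 : 7 * L * n ≤ s * k) (h2 : (n : ℝ) ≤ exp L * (a * s)) (hd : 4 * (a * s) ≤ n) :
    (n.choose (n - 4 * (a * s)) : ℝ) * (n.choose (a * s) * ((2 ^ k * n).choose s *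
      (((((n - 4 * (a * s) : ℕ) : ℝ) + 2 * ((a * s : ℕ) : ℝ)) / (2 * n)) ^ k) ^ s)) ≤ 1 / 8 := by
  have hn' : (0 : ℝ) < n := by exact_mod_cast hn
  have hs' : (1 : ℝ) ≤ s := by exact_mod_cast hs
  have ha' : (8 : ℝ) ≤ a := by exact_mod_cast ha
  have hx : 0 < a * s := Nat.mul_pos (by omega) hs
  have hx' : (0 : ℝ) < a * s := by positivity
  have hd' : 4 * ((a : ℝ) * s) ≤ n := by exact_mod_cast hd
  have eL := exp_pos L
  have e0 := exp_pos 1
  have q1 : (n.choose (n - 4 * (a * s)) : ℝ) ≤ exp (1 + L) ^ (4 * (a * s)) := by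
    rw [Nat.choose_symm hd]
    refine (choose_le _ _ (by omega)).trans ?_
    gcongr
    rw [exp_add, div_le_iff₀ (by positivity)]
    push_cast
    nlinarith
  have q2 : (n.choose (a * s) : ℝ) ≤ exp (1 + L) ^ (a * s) := by
    refine (choose_le _ _ hx).trans ?_
    gcongr
    rw [exp_add, div_le_iff₀ (by positivity)]
    push_cast
    nlinarith
  have q3 : ((2 ^ k * n).choose s : ℝ) ≤ (2 ^ k * exp (1 + L + a)) ^ s := by
    refine (choose_le _ _ hs).trans ?_
    gcongr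
    rw [exp_add, exp_add, div_le_iff₀ (by positivity)]
    push_cast
    have : (a : ℝ) ≤ exp a := by linarith [add_one_le_exp (a : ℝ)]
    have h3 : (n : ℝ) ≤ exp L * (exp a * s) := h2.trans (by gcongr)
    calc exp 1 * (2 ^ k * (n : ℝ)) ≤ exp 1 * (2 ^ k * (exp L * (exp a * s))) := by gcongr
      _ = _ := by ring
  have q4 : (((((n - 4 * (a * s) : ℕ) : ℝ) + 2 * ((a * s : ℕ) : ℝ)) / (2 * n)) ^ k) ≤
      exp (-(14 * a * L)) / 2 ^ k := by
    have e1 : ((((n - 4 * (a * s) : ℕ) : ℝ) + 2 * ((a * s : ℕ) : ℝ)) / (2 * n)) ≤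
        exp (-(2 * (a * s) / n)) / 2 := by
      rw [Nat.cast_sub hd, div_le_div_iff₀ (by positivity) (by norm_num)]
      push_cast
      have e2 := add_one_le_exp (-(2 * ((a : ℝ) * s) / n))
      have e3 : (-(2 * ((a : ℝ) * s) / n) + 1) * n = n - 2 * (a * s) := by field_simp; ring
      nlinarith
    calc _ ≤ (exp (-(2 * (a * s) / n)) / 2) ^ k := by gcongr
      _ = exp (k * -(2 * (a * s) / n)) / 2 ^ k := by rw [div_pow, ← exp_nat_mul]
      _ ≤ _ := by
          gcongr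
          rw [mul_neg, neg_le_neg_iff, ← mul_div_assoc, le_div_iff₀ hn']
          nlinarith
  calc _ ≤ exp (1 + L) ^ (4 * (a * s)) * (exp (1 + L) ^ (a * s) * ((2 ^ k * exp (1 + L + a)) ^ s *
        (exp (-(14 * a * L)) / 2 ^ k) ^ s)) := by gcongr
    _ = exp (s * (5 * a * (1 + L) + (1 + L + a) - 14 * a * L)) := by
        rw [← mul_pow, show 2 ^ k * exp (1 + L + a) * (exp (-(14 * a * L)) / 2 ^ k) =
          exp (1 + L + a + -(14 * a * L)) by rw [exp_add (1 + L + a)]; field_simp,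
          ← exp_nat_mul, ← exp_nat_mul, ← exp_nat_mul, ← exp_add, ← exp_add]
        congr 1; push_cast; ring
    _ ≤ exp (-3) := by
        rw [exp_le_exp]
        have : 5 * a * (1 + L) + (1 + L + a) - 14 * a * L ≤ -3 := by nlinarith
        nlinarith
    _ ≤ 1 / 8 := by
        have : exp (-3) = exp (-1) ^ 3 := by rw [← exp_nat_mul]; norm_num
        have h2 : exp (-1) ≤ 1 / 2 := by
          rw [exp_neg, inv_le_comm₀ (exp_pos 1) (by norm_num)]
          linarith [exp_one_gt_d9]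
        rw [this]
        calc _ ≤ (1 / 2 : ℝ) ^ 3 := by gcongr
          _ = _ := by norm_num

lemma log_small {y : ℝ} (hy : 1048576 ≤ y) : 1 ≤ log y ∧ 512 * log y ≤ y := by
  have h0 : 0 < y := by linarith
  refine ⟨?_, ?_⟩
  · rw [le_log_iff_exp_le h0]; linarith [exp_one_lt_d9]
  · have h1 : 1024 ≤ √y := by
      rw [le_sqrt (by norm_num) h0.le]; linarith
    have h2 := log_le_sub_one_of_pos (show 0 < √y by linarith)
    rw [log_sqrt h0.le] at h2
    have h3 := mul_self_sqrt h0.le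
    nlinarith

lemma final_num {S Nf L A E n : ℝ} {W f t : ℕ} (h3 : (2 : ℝ) ^ W ≤ S * Nf * 2 ^ t)
    (h4 : Nf * exp (-L) ^ f ≤ exp (exp (-L) * n)) (f2 : f * L ≤ 16 * A) (f4 : exp (-L) * n ≤ A)
    (hS : 0 ≤ S ∧ 0 ≤ A) (h9 : E + t + 25 * A ≤ W) : (2 : ℝ) ^ E ≤ S := by
  have hl2 : 0.69 ≤ log 2 := by linarith [log_two_gt_d9]
  have hS0 := hS.1
  have h6 : (2 : ℝ) ^ W * exp (-L) ^ f ≤ S * (exp (exp (-L) * n) * 2 ^ t) := by
    calc _ ≤ S * Nf * 2 ^ t * exp (-L) ^ f := by gcongr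
      _ = S * (Nf * exp (-L) ^ f * 2 ^ t) := by ring
      _ ≤ _ := by gcongr
  have h7 : (2 : ℝ) ^ W * exp (-L) ^ f = exp ((W : ℝ) * log 2 + f * -L) := by
    rw [exp_add, exp_nat_mul, exp_nat_mul, exp_log (by norm_num)]
  have h8 : exp (exp (-L) * n) * 2 ^ t = exp (exp (-L) * n + (t : ℝ) * log 2) := by
    rw [exp_add, exp_nat_mul, exp_log (by norm_num)]
  rw [h7, h8] at h6
  rw [rpow_def_of_pos (by norm_num)]
  refine le_of_mul_le_mul_right (le_trans ?_ h6) (exp_pos _)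
  rw [← exp_add, exp_le_exp]
  have h10 := mul_le_mul_of_nonneg_left h9 (show 0 ≤ log 2 by linarith)
  have h11 := mul_le_mul_of_nonneg_right hl2 hS.2
  linarith

theorem rate_main {k r n : ℕ} (hk : 1048576 * (r + 1) ≤ k) (hn : k ≤ n) :
    ∃ F : Finset (Finset (Fin n × Bool)), (∀ C ∈ F, C.card ≤ k) ∧
      (∀ x : Fin n → Bool, ∃ C ∈ F, ∀ l ∈ C, x l.1 ≠ l.2) ∧
      ∀ (δ : ℝ) (S : ℕ) (P : Fin S → Finset (Fin n × Bool))
        (J : Fin S → Option (Fin S × Fin S × Fin n)),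
        (∃ i, P i = ∅) → (∀ i, J i = none → P i ∈ F) →
        (∀ i j l x, J i = some (j, l, x) → j < i ∧ l < i ∧
          P i = (P j).erase (x, true) ∪ (P l).erase (x, false)) →
        (∀ t p v, IsPath J t p v → ∃ g : ℕ → ℕ, Monotone g ∧ g t ≤ r ∧
          ∀ j, ((Rep t v g j).card : ℝ) ≤ δ * n) →
        (2 : ℝ) ^ ((1 - δ - 600 * ((1 + r * log (k / (r + 1))) * log (k / (r + 1)) / k)) * n)
          ≤ S := by
  classical
  have hr0 : (0 : ℝ) ≤ r := by positivity
  have hk' : 1048576 * ((r : ℝ) + 1) ≤ k := by exact_mod_cast hk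
  have hkn : (k : ℝ) ≤ n := by exact_mod_cast hn
  have hk0 : (0 : ℝ) < k := by linarith
  have hn0 : (0 : ℝ) < n := by linarith
  have hnpos : 0 < n := by omega
  have hy : (1048576 : ℝ) ≤ k / (r + 1) := by rw [le_div_iff₀ (by linarith)]; exact hk'
  obtain ⟨hL, hL2⟩ := log_small hy
  have eL : exp (log ((k : ℝ) / (r + 1))) = k / (r + 1) := exp_log (by linarith)
  generalize log ((k : ℝ) / (r + 1)) = L at *
  rw [le_div_iff₀ (by linarith)] at hL2
  set u : ℝ := n / k with hu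
  have hun : u * k = n := by rw [hu]; field_simp
  have hu1 : 1 ≤ u := by rw [hu, le_div_iff₀ hk0]; linarith
  have hLu : 1 ≤ L * u := by nlinarith
  set s := ⌈7 * (L * u)⌉₊ with hs
  have s1 : 7 * (L * u) ≤ s := Nat.le_ceil _
  have s2 : (s : ℝ) ≤ 8 * (L * u) := by
    have : (s : ℝ) ≤ 7 * (L * u) + 1 := (Nat.ceil_lt_add_one (by linarith)).le
    linarith
  have spos : 0 < s := by exact_mod_cast (show (0 : ℝ) < s by linarith)
  have hB : 512 * ((r + 1) * (L * u)) ≤ n := by rw [← hun]; nlinarith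
  set a := 2 * r + 8 with ha
  have ha' : (a : ℝ) = 2 * r + 8 := by rw [ha]; push_cast; ring
  have hd1 : 4 * ((a : ℝ) * s) ≤ 256 * ((r + 1) * (L * u)) := by
    calc 4 * ((a : ℝ) * s) ≤ 4 * ((8 * (r + 1)) * (8 * (L * u))) := by
          gcongr; rw [ha']; linarith
      _ = _ := by ring
  have hd2 : 2 * (4 * (a * s)) ≤ n := by
    exact_mod_cast (show 2 * (4 * ((a : ℝ) * s)) ≤ n by linarith)
  have hrLu : L * u ≤ (r + 1) * (L * u) := by nlinarith
  have hs32 : (s : ℝ) ≤ n / 32 := by linarith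
  obtain ⟨c, c1, c2, ⟨G, hG1, hG2⟩, c4⟩ := exists_formula2 (n := n) (k := k) (m := 2 ^ k * n)
    (s := s) (b := n - 4 * (a * s)) (x := a * s) hnpos
    (by exact_mod_cast (show (s : ℝ) ≤ n by linarith)) (by omega) (by omega) (by
      have t1 := term1 (k := k) (n := n) (by omega)
      have t2 := term4 (k := k) (n := n) (s := s) (a := a) (L := L) hnpos spos (by omega) hL
        (by rw [← hun]; nlinarith) (by
          rw [eL, div_mul_eq_mul_div, le_div_iff₀ (by linarith), ← hun, ha']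
          have h1 : u ≤ s := by nlinarith
          have h2 : u * (r + 1) ≤ (2 * r + 8) * s := by
            rw [mul_comm]
            exact mul_le_mul (by linarith) h1 (by linarith) (by linarith)
          calc u * k * (r + 1) = k * (u * (r + 1)) := by ring
            _ ≤ _ := by gcongr) (by omega)
      have t3 := term3 (k := k) hnpos (by omega) hs32
      linarith)
  refine ⟨univ.image c, fun C hC => ?_, fun x => ?_, fun δ S P J hroot hax hres hpath => ?_⟩
  · obtain ⟨i, -, rfl⟩ := mem_image.1 hC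
    exact c1 i
  · obtain ⟨i, hi⟩ := c2 x
    exact ⟨c i, mem_image_of_mem _ (mem_univ _), hi⟩
  have hS1 : (1 : ℝ) ≤ S := by
    obtain ⟨i, -⟩ := hroot
    exact_mod_cast i.pos
  have hδ : 0 ≤ δ * n := by
    obtain ⟨i, -⟩ := hroot
    obtain ⟨g, -, -, h⟩ := hpath 0 (fun _ => i) (fun _ => ⟨0, hnpos⟩)
      fun r hr => absurd hr (by omega)
    exact le_trans (by positivity) (h 0)
  set e := ⌊δ * n⌋₊ with he
  have e1 : (e : ℝ) ≤ δ * n := Nat.floor_le hδ
  set A : ℝ := (1 + r * L) * (L * u) with hA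
  have eA : (1 - δ - 600 * ((1 + r * L) * L / k)) * n = n - δ * n - 600 * A := by
    rw [hA, hu]; field_simp
  rw [eA]
  have hA1 : (r + 1) * (L * u) ≤ A := by
    have : (r : ℝ) * 1 ≤ r * L := by gcongr
    rw [hA]
    exact mul_le_mul_of_nonneg_right (by linarith) (by linarith)
  set d := 4 * (a * s) with hd
  have hd3 : (d : ℝ) ≤ 256 * A := by rw [hd]; push_cast; linarith
  by_cases hc : n < 2 * d + e
  · have : (n : ℝ) < 2 * d + e := by exact_mod_cast hc
    exact (rpow_le_one_of_one_le_of_nonpos (by norm_num) (by linarith)).trans hS1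
  have hcount := rcount (c := c) (P := P) (J := J) (s := s) (b := n - d)
    (x := 2 * s * (r + 1) + 4 * s) (e := e) (w := n - 2 * d - e) (d := d) (R := r) G
    (fun z hz => by
      rw [show 2 * s + (2 * s * (r + 1) + 4 * s) = a * s by rw [ha]; ring]; exact hG2 z hz)
    le_rfl spos ⟨0, hnpos⟩ c4 hroot (fun i hi => by
      obtain ⟨u, -, hu⟩ := mem_image.1 (hax i hi)
      exact ⟨u, hu.symm⟩) hres (fun t p v hp => by
      obtain ⟨g, g1, g2, g3⟩ := hpath t p v hp
      exact ⟨g, g1, g2, fun j => Nat.le_floor (g3 j)⟩) (by omega) (by omega) (by omega)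
  set f := 2 * s * r with hf
  set w := n - 2 * d - e with hw
  set Nf := (univ.filter fun Fl : Finset (Fin n) => Fl.card ≤ f).card with hNf
  have h2 : 2 ^ (w - f) ≤ S * Nf * 2 ^ (2 * s + 1) := by
    have e : 2 ^ n = 2 ^ (w - f) * 2 ^ (n - (w - f)) := by rw [← pow_add]; congr 1; omega
    refine Nat.le_of_mul_le_mul_right (c := 2 ^ (n - (w - f))) ?_ (by positivity)
    rw [← e]
    refine hG1.trans ((Nat.mul_le_mul_left 2 hcount).trans (le_of_eq ?_))
    ring
  have h3 : (2 : ℝ) ^ (w - f) ≤ S * Nf * 2 ^ (2 * s + 1) := by exact_mod_cast h2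
  have h4 := small_sets n f (exp_pos (-L)) (exp_le_one_iff.2 (by linarith))
  rw [← hNf] at h4
  have hLu0 : 0 ≤ L * u := by linarith
  have hf0 : (0 : ℝ) ≤ f := by positivity
  have f1 : (f : ℝ) ≤ 16 * (r * (L * u)) := by
    calc (f : ℝ) = 2 * s * r := by rw [hf]; push_cast; ring
      _ ≤ 2 * (8 * (L * u)) * r := by gcongr
      _ = _ := by ring
  have f2 : (f : ℝ) * L ≤ 16 * A := by
    calc (f : ℝ) * L ≤ 16 * (r * (L * u)) * L := by gcongr
      _ = 16 * (A - L * u) := by rw [hA]; ring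
      _ ≤ _ := by linarith
  have f3 : (f : ℝ) ≤ 16 * A := (le_mul_of_one_le_right hf0 hL).trans f2
  have f4 : exp (-L) * n ≤ A := by
    have h1 : u ≤ L * u := le_mul_of_one_le_left (by linarith) hL
    calc exp (-L) * n = (r + 1) * u := by
          rw [exp_neg, eL, inv_div, ← hun]; field_simp
      _ ≤ (r + 1) * (L * u) := by gcongr
      _ ≤ A := hA1
  have h5 : (n : ℝ) - 2 * d - e - f ≤ ((w - f : ℕ) : ℝ) := by
    have : (n : ℝ) ≤ ((w - f : ℕ) : ℝ) + f + e + 2 * d := by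
      exact_mod_cast (show n ≤ w - f + f + e + 2 * d by omega)
    linarith
  exact final_num h3 h4 f2 f4 ⟨by linarith, by linarith⟩ (by push_cast; linarith)

end Pool.Agent.P.MP_0f6e60_lc
end
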