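import Mathlib

-- part Pool.Agent.P.MP_0f6e60_lc.TDefs
section

/-! Tree-like lower bound: basic definitions (cubes, bad cubes, value of decision trees,
query systems). -/

namespace Pool.Agent.P.MP_0f6e60_lc.T

open Finset Classical

variable {P H ι : Type} [Fintype P] [Fintype H] [Fintype ι]
  [DecidableEq P] [DecidableEq H] [DecidableEq ι]

/-- `b` lies in the cube with free coordinates `S` through `a`. -/
def Cube (S : Finset ι) (a b : ι → Bool) : Prop := ∀ i, i ∉ S → b i = a i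

/-- Some facet of the cube `(S, a)` has no label in `T`. -/
def Bd (g : (ι → Bool) → H) (T : Finset H) (S : Finset ι) (a : ι → Bool) : Prop :=
  ∃ i ∈ S, ∃ c : Bool, ∀ b, Cube S a b → b i = c → g b ∉ T

/-- The cube `(S, a)` has a point with label `j`. -/
def Sees (g : (ι → Bool) → H) (S : Finset ι) (a : ι → Bool) (j : H) : Prop :=
  ∃ b, Cube S a b ∧ g b = j

/-- Largest number of bad leaves of a complete decision tree of depth `j` on the cube `(S, a)`. -/
noncomputable def Val (g : (ι → Bool) → H) (T : Finset H) : ℕ → Finset ι → (ι → Bool) → ℕ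
  | 0, S, a => if Bd g T S a then 1 else 0
  | j + 1, S, a => S.sup fun i => Val g T j (S.erase i) (Function.update a i false) +
      Val g T j (S.erase i) (Function.update a i true)

/-- Points of odd weight. -/
def OddPt (a : ι → Bool) : Prop := Odd (univ.filter fun i => a i = true).card

/-- Labelling: `γ` on the odd points, `f` on the even points. -/
noncomputable def mixLab (f γ : (ι → Bool) → H) (a : ι → Bool) : H :=
  if OddPt a then γ a else f a

noncomputable def wN (μ : ℕ) : ℕ := ⌈((4 : ℝ) / 3) ^ μ⌉₊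

noncomputable def mN (r μ : ℕ) : ℕ := ⌈(r : ℝ) * ((3 : ℝ) / 4) ^ μ⌉₊

/-- The labelling `g` is robust for `T` at level `μ`. -/
def Rob (g : (ι → Bool) → H) (T : Finset H) (μ : ℕ) : Prop :=
  Val g T (Fintype.card ι - μ) univ (fun _ => false) * 2 ^ (10 * μ * wN μ) ≤
    2 ^ (Fintype.card ι - μ)

/-- Free coordinates of block `u` at time `τ` on the run of `x`, frozen at level `μ`. -/
noncomputable def Fz (q : (P → ι → Bool) → ℕ → Option (P × ι)) (μ : ℕ) (x : P → ι → Bool)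
    (u : P) : ℕ → Finset ι
  | 0 => univ
  | τ + 1 => if (Fz q μ x u τ).card ≤ μ then Fz q μ x u τ
      else (Fz q μ x u τ).filter fun i => q x τ ≠ some (u, i)

/-- The query at time `τ` depends only on the answers given before. -/
def Adapt (q : (P → ι → Bool) → ℕ → Option (P × ι)) : Prop :=
  ∀ x x' τ, (∀ u, Cube (Fz q 0 x u τ) (x u) (x' u)) → q x' τ = q x τ

/-- The key property fails at `x`. -/
def BadX (lab : P → (ι → Bool) → H) (q : (P → ι → Bool) → ℕ → Option (P × ι)) (Tm : ℕ)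
    (m : ℕ → ℕ) (L : ℕ) (x : P → ι → Bool) : Prop :=
  ∃ μ, L ≤ μ ∧ μ ≤ Fintype.card ι ∧ ∃ (A : Finset P) (T : Finset H), m μ ≤ A.card ∧
    m μ ≤ T.card ∧ ∀ u ∈ A, Bd (lab u) T (Fz q μ x u Tm) (x u)

/-- Two fully queried blocks have the same label. -/
def Coll (lab : P → (ι → Bool) → H) (q : (P → ι → Bool) → ℕ → Option (P × ι))
    (x : P → ι → Bool) (τ : ℕ) : Prop :=
  ∃ u w, u ≠ w ∧ Fz q 0 x u τ = ∅ ∧ Fz q 0 x w τ = ∅ ∧ lab u (x u) = lab w (x w)

/-- At some time without collision at most `B` bits are free. -/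
def DeepX (lab : P → (ι → Bool) → H) (q : (P → ι → Bool) → ℕ → Option (P × ι)) (B : ℕ)
    (x : P → ι → Bool) : Prop :=
  ∃ τ, ¬ Coll lab q x τ ∧ ∑ u, (Fz q 0 x u τ).card ≤ B

/-- `x0` is close to `x`: it differs only on frozen free sets of total size at most `B`. -/
def Near (q : (P → ι → Bool) → ℕ → Option (P × ι)) (Tm B : ℕ) (x x0 : P → ι → Bool) : Prop :=
  ∃ z : P → ℕ, (∀ u, z u ≤ Fintype.card ι) ∧ ∑ u, z u ≤ B ∧
    ∀ u, Cube (Fz q (z u) x u Tm) (x u) (x0 u)

/-- Block `u` can move to the hole of block `w`; `v` is the homeless block. -/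
def Arc (lab : P → (ι → Bool) → H) (Fr : P → Finset ι) (x : P → ι → Bool) (v u w : P) : Prop :=
  w ≠ v ∧ Sees (lab u) (Fr u) (x u) (lab w (x w))

/-- The recursion for the moment generating function of `Val`. -/
noncomputable def zs (p : ℝ) (μ : ℕ) : ℕ → ℝ
  | 0 => p
  | j + 1 => ((μ : ℝ) + j + 1) * (zs p μ j ^ 2 + 2 * zs p μ j)

/-- Bound for the probability that a cube of dimension `μ` is bad. -/
noncomputable def pB (μ : ℕ) : ℝ := 2 * μ * Real.exp (-(((3 : ℝ) / 4) ^ μ * 2 ^ (μ - 2)))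

theorem Cube.refl (S : Finset ι) (a : ι → Bool) : Cube S a a := fun _ _ => rfl

theorem Cube.symm {S : Finset ι} {a b : ι → Bool} (h : Cube S a b) : Cube S b a :=
  fun i hi => (h i hi).symm

theorem Cube.trans {S : Finset ι} {a b c : ι → Bool} (h : Cube S a b) (h' : Cube S b c) :
    Cube S a c := fun i hi => (h' i hi).trans (h i hi)

theorem Cube.mono {S S' : Finset ι} {a b : ι → Bool} (h : Cube S a b) (hs : S ⊆ S') :
    Cube S' a b := fun i hi => h i fun h' => hi (hs h')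

theorem Bd.congr {g : (ι → Bool) → H} {T : Finset H} {S : Finset ι} {a a' : ι → Bool}
    (h : Bd g T S a) (hc : Cube S a a') : Bd g T S a' := by
  obtain ⟨i, hi, c, hb⟩ := h
  exact ⟨i, hi, c, fun b h1 h2 => hb b (hc.trans h1) h2⟩

theorem Sees.mono {g : (ι → Bool) → H} {S S' : Finset ι} {a : ι → Bool} {j : H}
    (h : Sees g S a j) (hs : S ⊆ S') : Sees g S' a j := by
  obtain ⟨b, h1, h2⟩ := h
  exact ⟨b, h1.mono hs, h2⟩

theorem Sees.congr {g : (ι → Bool) → H} {S : Finset ι} {a a' : ι → Bool} {j : H}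
    (h : Sees g S a j) (hc : Cube S a a') : Sees g S a' j := by
  obtain ⟨b, h1, h2⟩ := h
  exact ⟨b, hc.symm.trans h1, h2⟩

theorem sees_of_not_bd {g : (ι → Bool) → H} {T : Finset H} {S : Finset ι} {a : ι → Bool}
    (h : ¬ Bd g T S a) {i : ι} (hi : i ∈ S) : ∃ j ∈ T, Sees g (S.erase i) a j := by
  by_contra hn
  refine h ⟨i, hi, a i, fun b h1 h2 h3 => hn ⟨g b, h3, b, fun k hk => ?_, rfl⟩⟩
  by_cases hki : k = i
  · rw [hki, h2]
  · exact h1 k fun hk' => hk (mem_erase.2 ⟨hki, hk'⟩)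

theorem Val_congr (g : (ι → Bool) → H) (T : Finset H) :
    ∀ (j : ℕ) (S : Finset ι) (a a' : ι → Bool), Cube S a a' → Val g T j S a = Val g T j S a'
  | 0, S, a, a', h => by
      have : Bd g T S a ↔ Bd g T S a' := ⟨fun hb => hb.congr h, fun hb => hb.congr h.symm⟩
      simp only [Val, this]
  | j + 1, S, a, a', h => by
      simp only [Val]
      refine Finset.sup_congr rfl fun i _ => ?_
      have hc : ∀ c : Bool, Cube (S.erase i) (Function.update a i c) (Function.update a' i c) := by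
        intro c k hk
        by_cases hki : k = i
        · subst hki; simp
        · rw [Function.update_of_ne hki, Function.update_of_ne hki]
          exact h k fun hk' => hk (mem_erase.2 ⟨hki, hk'⟩)
      rw [Val_congr g T j _ _ _ (hc false), Val_congr g T j _ _ _ (hc true)]

section Fz

variable (q : (P → ι → Bool) → ℕ → Option (P × ι)) (μ : ℕ) (x : P → ι → Bool) (u : P)

theorem Fz_succ_subset (τ : ℕ) : Fz q μ x u (τ + 1) ⊆ Fz q μ x u τ := by
  simp only [Fz]
  split_ifs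
  · exact Subset.refl _
  · exact filter_subset _ _

theorem Fz_anti {σ τ : ℕ} (h : σ ≤ τ) : Fz q μ x u τ ⊆ Fz q μ x u σ := by
  induction h with
  | refl => exact Subset.refl _
  | step _ ih => exact (Fz_succ_subset q μ x u _).trans ih

theorem Fz_zero_succ (τ : ℕ) :
    Fz q 0 x u (τ + 1) = (Fz q 0 x u τ).filter fun i => q x τ ≠ some (u, i) := by
  simp only [Fz]
  split_ifs with h
  · rw [card_eq_zero.1 (Nat.le_zero.1 h)]; simp
  · rfl

theorem mem_Fz_zero (τ : ℕ) (i : ι) :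
    i ∈ Fz q 0 x u τ ↔ ∀ σ < τ, q x σ ≠ some (u, i) := by
  induction τ with
  | zero => simp [Fz]
  | succ τ ih =>
    rw [Fz_zero_succ, mem_filter, ih]
    constructor
    · rintro ⟨h1, h2⟩ σ hσ
      rcases Nat.lt_succ_iff_lt_or_eq.1 hσ with h | h
      · exact h1 σ h
      · rw [h]; exact h2
    · exact fun h => ⟨fun σ hσ => h σ (by omega), h τ (by omega)⟩

theorem card_filter_ne (S : Finset ι) (o : Option (P × ι)) :
    S.card ≤ (S.filter fun i => o ≠ some (u, i)).card + 1 := by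
  have h1 : (S.filter fun i => ¬ o ≠ some (u, i)).card ≤ 1 := by
    refine card_le_one.2 fun a ha b hb => ?_
    have h2 := (mem_filter.1 ha).2
    have h3 := (mem_filter.1 hb).2
    push Not at h2 h3
    rw [h2] at h3
    simpa using h3
  have := card_filter_add_card_filter_not (s := S) (fun i => o ≠ some (u, i))
  omega

theorem Fz_frozen {σ τ : ℕ} (h : σ ≤ τ) (hc : (Fz q μ x u σ).card ≤ μ) :
    Fz q μ x u τ = Fz q μ x u σ := by
  induction h with
  | refl => rfl
  | step _ ih => simp only [Fz]; rw [ih, if_pos hc]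

theorem le_card_Fz (h : μ ≤ Fintype.card ι) (τ : ℕ) : μ ≤ (Fz q μ x u τ).card := by
  induction τ with
  | zero => simpa [Fz] using h
  | succ τ ih =>
    simp only [Fz]
    split_ifs with h1
    · exact ih
    · have := card_filter_ne u (Fz q μ x u τ) (q x τ)
      omega

/-- Before freezing the frozen set is the free set. -/
theorem Fz_eq_or (τ : ℕ) : Fz q μ x u τ = Fz q 0 x u τ ∨
    ((Fz q μ x u τ).card ≤ μ ∧ Fz q 0 x u τ ⊆ Fz q μ x u τ) := by
  induction τ with
  | zero => left; rfl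
  | succ τ ih =>
    by_cases h1 : (Fz q μ x u τ).card ≤ μ
    · right
      have h2 : Fz q μ x u (τ + 1) = Fz q μ x u τ := by simp only [Fz]; rw [if_pos h1]
      rw [h2]
      refine ⟨h1, (Fz_succ_subset q 0 x u τ).trans ?_⟩
      rcases ih with h | h
      · rw [h]
      · exact h.2
    · left
      rcases ih with h | h
      · rw [Fz_zero_succ, ← h]; simp only [Fz]; rw [if_neg h1]
      · exact absurd h.1 h1

theorem Fz_eq_of_le (τ : ℕ) (h : μ ≤ (Fz q 0 x u τ).card) : Fz q μ x u τ = Fz q 0 x u τ := by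
  rcases Fz_eq_or q μ x u τ with h1 | h1
  · exact h1
  · exact (eq_of_subset_of_card_le h1.2 (h1.1.trans h)).symm

theorem card_Fz_end {Tm : ℕ} (hT : Fz q 0 x u Tm = ∅) (h : μ ≤ Fintype.card ι) :
    (Fz q μ x u Tm).card = μ := by
  have h0 := le_card_Fz q μ x u h Tm
  rcases Fz_eq_or q μ x u Tm with h1 | h1
  · rw [h1, hT] at h0 ⊢; simp at h0 ⊢; omega
  · omega

theorem Fz_end_subset {Tm τ : ℕ} (hτ : τ ≤ Tm) (h : μ ≤ (Fz q 0 x u τ).card) :
    Fz q μ x u Tm ⊆ Fz q 0 x u τ := by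
  rw [← Fz_eq_of_le q μ x u τ h]; exact Fz_anti q μ x u hτ

theorem Fz_end_eq {Tm τ : ℕ} (hτ : τ ≤ Tm) :
    Fz q (Fz q 0 x u τ).card x u Tm = Fz q 0 x u τ := by
  have h1 := Fz_eq_of_le q (Fz q 0 x u τ).card x u τ le_rfl
  rw [Fz_frozen q _ x u hτ (by rw [h1]), h1]

variable {q} in
theorem Adapt.q_eq (hq : Adapt q) {x x' : P → ι → Bool} {τ : ℕ}
    (h : ∀ u, Cube (Fz q 0 x u τ) (x u) (x' u)) {σ : ℕ} (hσ : σ ≤ τ) : q x' σ = q x σ :=
  hq x x' σ fun u => (h u).mono (Fz_anti q 0 x u hσ)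

variable {q} in
theorem Adapt.Fz_eq (hq : Adapt q) {x x' : P → ι → Bool} {τ : ℕ}
    (h : ∀ u, Cube (Fz q 0 x u τ) (x u) (x' u)) (μ : ℕ) (u : P) {σ : ℕ} (hσ : σ ≤ τ + 1) :
    Fz q μ x' u σ = Fz q μ x u σ := by
  induction σ with
  | zero => rfl
  | succ σ ih => simp only [Fz]; rw [ih (by omega), hq.q_eq h (by omega : σ ≤ τ)]

end Fz

end Pool.Agent.P.MP_0f6e60_lc.T
end

-- part Pool.Agent.P.MP_0f6e60_lc.TVal
section

namespace Pool.Agent.P.MP_0f6e60_lc.T

open Finset Classical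

variable {P H ι : Type} [Fintype P] [Fintype H] [Fintype ι]
  [DecidableEq P] [DecidableEq H] [DecidableEq ι]

omit [Fintype ι] in
theorem tval_cube {S : Finset ι} {a b : ι → Bool} {i : ι} {c : Bool} (hi : i ∈ S)
    (h : Cube (S.erase i) (Function.update a i c) b) : Cube S a b ∧ b i = c := by
  refine ⟨fun k hk => ?_, ?_⟩
  · have hki : k ≠ i := fun e => hk (e ▸ hi)
    rw [h k fun hk' => hk (mem_of_mem_erase hk'), Function.update_of_ne hki]
  · rw [h i (notMem_erase i S), Function.update_self]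

omit [Fintype H] [Fintype ι] [DecidableEq H] in
theorem tval_loc (g g' : (ι → Bool) → H) (T : Finset H) :
    ∀ (j : ℕ) (S : Finset ι) (a : ι → Bool), (∀ b, Cube S a b → g b = g' b) →
      Val g T j S a = Val g' T j S a
  | 0, S, a, h => by
      have : Bd g T S a ↔ Bd g' T S a := by
        constructor
        · rintro ⟨i, hi, c, hb⟩
          exact ⟨i, hi, c, fun b h1 h2 => h b h1 ▸ hb b h1 h2⟩
        · rintro ⟨i, hi, c, hb⟩
          exact ⟨i, hi, c, fun b h1 h2 => (h b h1).symm ▸ hb b h1 h2⟩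
      simp only [Val, this]
  | j + 1, S, a, h => by
      simp only [Val]
      refine Finset.sup_congr rfl fun i hi => ?_
      rw [tval_loc g g' T j _ _ fun b hb => h b (tval_cube hi hb).1,
        tval_loc g g' T j _ (Function.update a i true) fun b hb => h b (tval_cube hi hb).1]

omit [DecidableEq H] in
theorem tval_indep (i : ι) (F G : ((ι → Bool) → H) → ℝ)
    (hF : ∀ γ γ', (∀ b, b i = false → γ b = γ' b) → F γ = F γ')
    (hG : ∀ γ γ', (∀ b, b i = true → γ b = γ' b) → G γ = G γ') :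
    (∑ γ, F γ) * (∑ γ, G γ) = Fintype.card ((ι → Bool) → H) * ∑ γ, F γ * G γ := by
  let mx : ((ι → Bool) → H) → ((ι → Bool) → H) → (ι → Bool) → H :=
    fun γ γ' b => if b i = true then γ' b else γ b
  let e : ((ι → Bool) → H) × ((ι → Bool) → H) → ((ι → Bool) → H) × ((ι → Bool) → H) :=
    fun p => (mx p.1 p.2, mx p.2 p.1)
  have he : Function.Involutive e := by
    rintro ⟨γ, γ'⟩
    refine Prod.ext (funext fun b => ?_) (funext fun b => ?_) <;>
      by_cases hb : b i = true <;> simp [e, mx, hb]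
  have h1 : (∑ γ, F γ) * (∑ γ, G γ) =
      ∑ p : ((ι → Bool) → H) × ((ι → Bool) → H), F (e p).1 * G (e p).1 := by
    rw [sum_mul_sum, Fintype.sum_prod_type]
    refine sum_congr rfl fun γ _ => sum_congr rfl fun γ' _ => ?_
    rw [hF γ (e (γ, γ')).1 fun b hb => by simp [e, mx, hb],
      hG γ' (e (γ, γ')).1 fun b hb => by simp [e, mx, hb]]
  rw [h1, he.bijective.sum_comp fun p => F p.1 * G p.1, Fintype.sum_prod_type, mul_sum]
  refine sum_congr rfl fun γ _ => ?_
  simp only [sum_const, card_univ, nsmul_eq_mul]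

omit [Fintype ι] [DecidableEq ι] in
theorem tval_sup (S : Finset ι) (n : ι → ℕ) :
    (2 : ℝ) ^ S.sup n ≤ 1 + ∑ i ∈ S, ((2 : ℝ) ^ n i - 1) := by
  have h0 : ∀ i ∈ S, (0 : ℝ) ≤ (2 : ℝ) ^ n i - 1 := fun i _ =>
    sub_nonneg.2 (one_le_pow₀ (by norm_num))
  rcases S.eq_empty_or_nonempty with h | h
  · simp [h]
  · obtain ⟨i, hi, e⟩ := exists_mem_eq_sup S h n
    have := single_le_sum h0 hi
    rw [e]; linarith

theorem val_mgf (f : (ι → Bool) → H) (T : Finset H) (μ : ℕ) (p : ℝ) (hp0 : 0 ≤ p)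
    (hp : ∀ (S : Finset ι) (a : ι → Bool), S.card = μ →
      ((univ.filter fun γ : (ι → Bool) → H => Bd (mixLab f γ) T S a).card : ℝ) ≤
        p * Fintype.card ((ι → Bool) → H)) :
    ∀ (j : ℕ) (S : Finset ι) (a : ι → Bool), S.card = μ + j →
      ∑ γ : (ι → Bool) → H, (2 : ℝ) ^ Val (mixLab f γ) T j S a ≤
        (1 + zs p μ j) * Fintype.card ((ι → Bool) → H) := by
  have _ := hp0
  intro j
  induction j with
  | zero =>
    intro S a hS
    have h1 : ∀ γ : (ι → Bool) → H, (2 : ℝ) ^ Val (mixLab f γ) T 0 S a =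
        1 + if Bd (mixLab f γ) T S a then 1 else 0 := by
      intro γ
      simp only [Val]
      split_ifs <;> norm_num
    have h2 := hp S a (by simpa using hS)
    simp only [h1, sum_add_distrib, sum_const, card_univ, nsmul_eq_mul, mul_one, sum_boole, zs]
    linarith
  | succ j ih =>
    intro S a hS
    set N : ℝ := ((Fintype.card ((ι → Bool) → H) : ℕ) : ℝ) with hN
    set z := zs p μ j with hz
    have key : ∀ i ∈ S, ∑ γ : (ι → Bool) → H,
        (2 : ℝ) ^ (Val (mixLab f γ) T j (S.erase i) (Function.update a i false) +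
          Val (mixLab f γ) T j (S.erase i) (Function.update a i true)) ≤ (1 + z) ^ 2 * N := by
      intro i hi
      have hc : (S.erase i).card = μ + j := by rw [card_erase_of_mem hi]; omega
      have hl : ∀ (c : Bool) (γ γ' : (ι → Bool) → H), (∀ b, b i = c → γ b = γ' b) →
          (2 : ℝ) ^ Val (mixLab f γ) T j (S.erase i) (Function.update a i c) =
            (2 : ℝ) ^ Val (mixLab f γ') T j (S.erase i) (Function.update a i c) := by
        intro c γ γ' h
        rw [tval_loc (mixLab f γ) (mixLab f γ') T j _ _ fun b hb => by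
          simp only [mixLab, h b (tval_cube hi hb).2]]
      have hi1 := tval_indep i _ _ (hl false) (hl true)
      have a0 := ih _ (Function.update a i false) hc
      have a1 := ih _ (Function.update a i true) hc
      have n0 : (0 : ℝ) ≤ ∑ γ : (ι → Bool) → H,
          (2 : ℝ) ^ Val (mixLab f γ) T j (S.erase i) (Function.update a i false) :=
        sum_nonneg fun _ _ => by positivity
      have n1 : (0 : ℝ) ≤ ∑ γ : (ι → Bool) → H,
          (2 : ℝ) ^ Val (mixLab f γ) T j (S.erase i) (Function.update a i true) :=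
        sum_nonneg fun _ _ => by positivity
      have hm := mul_le_mul a0 a1 n1 (n0.trans a0)
      rw [hi1, ← hN] at hm
      simp only [pow_add]
      rcases isEmpty_or_nonempty ((ι → Bool) → H) with he | he
      · rw [univ_eq_empty, sum_empty]
        exact mul_nonneg (sq_nonneg _) (Nat.cast_nonneg _)
      · have hpos : 0 < N := by rw [hN]; exact_mod_cast Fintype.card_pos
        refine le_of_mul_le_mul_left (hm.trans (le_of_eq ?_)) hpos
        ring
    calc ∑ γ : (ι → Bool) → H, (2 : ℝ) ^ Val (mixLab f γ) T (j + 1) S a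
        ≤ ∑ γ : (ι → Bool) → H, (1 + ∑ i ∈ S,
          ((2 : ℝ) ^ (Val (mixLab f γ) T j (S.erase i) (Function.update a i false) +
            Val (mixLab f γ) T j (S.erase i) (Function.update a i true)) - 1)) :=
          sum_le_sum fun γ _ => by simp only [Val]; exact tval_sup S _
      _ = N + ∑ i ∈ S, (∑ γ : (ι → Bool) → H,
          (2 : ℝ) ^ (Val (mixLab f γ) T j (S.erase i) (Function.update a i false) +
            Val (mixLab f γ) T j (S.erase i) (Function.update a i true)) - N) := by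
          rw [sum_add_distrib, sum_comm]
          simp only [sum_sub_distrib, sum_const, card_univ, nsmul_eq_mul, mul_one, hN]
      _ ≤ N + ∑ _i ∈ S, ((1 + z) ^ 2 * N - N) := by
          have := sum_le_sum fun i hi => sub_le_sub_right (key i hi) N
          linarith
      _ = (1 + zs p μ (j + 1)) * N := by
          rw [sum_const, nsmul_eq_mul, hS]
          simp only [zs, ← hz]
          push_cast
          ring

theorem tval_flip (b : ι → Bool) (i : ι) (h : ¬ OddPt b) :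
    OddPt (Function.update b i (!b i)) := by
  unfold OddPt at h ⊢
  cases hb : b i with
  | false =>
    have e : (univ.filter fun k => Function.update b i (!false) k = true) =
        insert i (univ.filter fun k => b k = true) := by
      ext k
      by_cases hk : k = i
      · subst hk; simp
      · simp [hk]
    rw [e, card_insert_of_notMem (by simp [hb])]
    exact (Nat.not_odd_iff_even.1 h).add_one
  | true =>
    have e : (univ.filter fun k => b k = true) =
        insert i (univ.filter fun k => Function.update b i (!true) k = true) := by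
      ext k
      by_cases hk : k = i
      · subst hk; simp [hb]
      · simp [hk]
    rw [e, card_insert_of_notMem (by simp)] at h
    by_contra h'
    exact h (Nat.not_odd_iff_even.1 h').add_one

theorem tval_card (S : Finset ι) (a : ι → Bool) (hS : 2 ≤ S.card) {i : ι} (hi : i ∈ S)
    (c : Bool) : 2 ^ (S.card - 2) ≤
      (univ.filter fun b : ι → Bool => OddPt b ∧ Cube S a b ∧ b i = c).card := by
  have h1 : (S.erase i).card = S.card - 1 := card_erase_of_mem hi
  obtain ⟨i0, h0⟩ : (S.erase i).Nonempty := card_pos.1 (by omega)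
  have hne : i0 ≠ i := (mem_erase.1 h0).1
  have h0S : i0 ∈ S := mem_of_mem_erase h0
  have h2 : ((S.erase i).erase i0).card = S.card - 2 := by rw [card_erase_of_mem h0]; omega
  let b0 : Finset ι → ι → Bool := fun U k =>
    if k ∈ (S.erase i).erase i0 then decide (k ∈ U) else Function.update a i c k
  let b1 : Finset ι → ι → Bool := fun U =>
    if OddPt (b0 U) then b0 U else Function.update (b0 U) i0 (!b0 U i0)
  have hb : ∀ U k, k ≠ i0 → b1 U k = b0 U k := by
    intro U k hk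
    simp only [b1]
    split_ifs
    · rfl
    · exact Function.update_of_ne hk _ _
  rw [← h2, ← card_powerset]
  refine card_le_card_of_injOn b1 (fun U _ => ?_) (fun U hU V hV e => ?_)
  · refine mem_coe.2 (mem_filter.2 ⟨mem_univ _, ?_, fun k hk => ?_, ?_⟩)
    · simp only [b1]
      split_ifs with h
      · exact h
      · exact tval_flip _ _ h
    · have k0 : k ≠ i0 := fun e => hk (e ▸ h0S)
      have k1 : k ≠ i := fun e => hk (e ▸ hi)
      rw [hb U k k0]
      simp only [b0]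
      rw [if_neg fun h => hk (mem_of_mem_erase (mem_of_mem_erase h)), Function.update_of_ne k1]
    · rw [hb U i hne.symm]
      simp only [b0]
      rw [if_neg fun h => notMem_erase i S (mem_of_mem_erase h), Function.update_self]
  · have hU' := mem_powerset.1 (mem_coe.1 hU)
    have hV' := mem_powerset.1 (mem_coe.1 hV)
    ext k
    by_cases hk : k ∈ (S.erase i).erase i0
    · have e1 := congrFun e k
      rw [hb U k (mem_erase.1 hk).1, hb V k (mem_erase.1 hk).1] at e1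
      simp only [b0, if_pos hk] at e1
      exact decide_eq_decide.1 e1
    · exact ⟨fun h => absurd (hU' h) hk, fun h => absurd (hV' h) hk⟩

theorem tval_pi (T : Finset H) (η : ℝ) (hT : η * Fintype.card H ≤ T.card)
    (Q : Finset (ι → Bool)) :
    ((Fintype.piFinset fun b : ι → Bool => if b ∈ Q then Tᶜ else univ).card : ℝ) ≤
      Real.exp (-(η * Q.card)) * Fintype.card ((ι → Bool) → H) := by
  have hc : ((Tᶜ).card : ℝ) ≤ Real.exp (-η) * Fintype.card H := by
    have h1 : ((Tᶜ).card : ℝ) + T.card = Fintype.card H := by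
      exact_mod_cast card_compl_add_card T
    have h2 : -η + 1 ≤ Real.exp (-η) := Real.add_one_le_exp _
    have h3 := mul_le_mul_of_nonneg_right h2 (Nat.cast_nonneg (α := ℝ) (Fintype.card H))
    linarith
  rw [Fintype.card_piFinset, Nat.cast_prod]
  calc ∏ b : ι → Bool, (((if b ∈ Q then Tᶜ else univ : Finset H).card : ℕ) : ℝ)
      ≤ ∏ b : ι → Bool, ((if b ∈ Q then Real.exp (-η) else 1) * Fintype.card H) := by
        refine prod_le_prod (fun _ _ => Nat.cast_nonneg _) fun b _ => ?_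
        split_ifs
        · exact hc
        · simp
    _ = Real.exp (-(η * Q.card)) * Fintype.card ((ι → Bool) → H) := by
        rw [prod_mul_distrib, prod_ite_mem, univ_inter, prod_const, prod_const, card_univ,
          Fintype.card_fun (α := ι → Bool), ← Real.exp_nat_mul]
        push_cast
        rw [show (Q.card : ℝ) * -η = -(η * Q.card) by ring]

theorem bd_prob (f : (ι → Bool) → H) (T : Finset H) (η : ℝ) (hη : 0 ≤ η)
    (hT : η * Fintype.card H ≤ T.card) (S : Finset ι) (a : ι → Bool) (hS : 2 ≤ S.card) :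
    ((univ.filter fun γ : (ι → Bool) → H => Bd (mixLab f γ) T S a).card : ℝ) ≤
      2 * S.card * Real.exp (-(η * 2 ^ (S.card - 2))) * Fintype.card ((ι → Bool) → H) := by
  let Q : ι × Bool → Finset (ι → Bool) := fun e =>
    univ.filter fun b : ι → Bool => OddPt b ∧ Cube S a b ∧ b e.1 = e.2
  let E : ι × Bool → Finset ((ι → Bool) → H) := fun e =>
    Fintype.piFinset fun b : ι → Bool => if b ∈ Q e then Tᶜ else univ
  have hsub : (univ.filter fun γ : (ι → Bool) → H => Bd (mixLab f γ) T S a) ⊆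
      (S ×ˢ (univ : Finset Bool)).biUnion E := by
    intro γ hγ
    obtain ⟨i, hi, c, hb⟩ := (mem_filter.1 hγ).2
    refine mem_biUnion.2 ⟨(i, c), mem_product.2 ⟨hi, mem_univ _⟩, Fintype.mem_piFinset.2 fun b => ?_⟩
    split_ifs with h
    · obtain ⟨h1, h2, h3⟩ := (mem_filter.1 h).2
      have := hb b h2 h3
      rw [mixLab, if_pos h1] at this
      exact mem_compl.2 this
    · exact mem_univ _
  have hE : ∀ e ∈ S ×ˢ (univ : Finset Bool), ((E e).card : ℝ) ≤
      Real.exp (-(η * 2 ^ (S.card - 2))) * Fintype.card ((ι → Bool) → H) := by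
    intro e he
    refine (tval_pi T η hT (Q e)).trans (mul_le_mul_of_nonneg_right ?_ (Nat.cast_nonneg _))
    refine Real.exp_le_exp.2 (neg_le_neg (mul_le_mul_of_nonneg_left ?_ hη))
    exact_mod_cast tval_card S a hS (mem_product.1 he).1 e.2
  calc ((univ.filter fun γ : (ι → Bool) → H => Bd (mixLab f γ) T S a).card : ℝ)
      ≤ ∑ e ∈ S ×ˢ (univ : Finset Bool), ((E e).card : ℝ) := by
        exact_mod_cast (card_le_card hsub).trans card_biUnion_le
    _ ≤ ∑ _e ∈ S ×ˢ (univ : Finset Bool),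
        Real.exp (-(η * 2 ^ (S.card - 2))) * Fintype.card ((ι → Bool) → H) := sum_le_sum hE
    _ = _ := by
        rw [sum_const, nsmul_eq_mul, card_product, card_univ, Fintype.card_bool]
        push_cast
        ring

end Pool.Agent.P.MP_0f6e60_lc.T
end

-- part Pool.Agent.P.MP_0f6e60_lc.TNum
section

namespace Pool.Agent.P.MP_0f6e60_lc.T

open Finset Classical

variable {P H ι : Type} [Fintype P] [Fintype H] [Fintype ι]
  [DecidableEq P] [DecidableEq H] [DecidableEq ι]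

theorem tnum_zs_nonneg {p : ℝ} (hp : 0 ≤ p) (μ j : ℕ) : 0 ≤ zs p μ j := by
  induction j with
  | zero => exact hp
  | succ j ih =>
    simp only [zs]
    positivity

theorem tnum_pB_nonneg (μ : ℕ) : 0 ≤ pB μ := by
  unfold pB
  positivity

theorem tnum_wN_pos (μ : ℕ) : 1 ≤ wN μ := by
  unfold wN
  exact Nat.one_le_ceil_iff.2 (by positivity)

theorem tnum_wN_le (μ : ℕ) : (wN μ : ℝ) ≤ 2 * ((4 : ℝ) / 3) ^ μ := by
  have h1 : (1 : ℝ) ≤ ((4 : ℝ) / 3) ^ μ := one_le_pow₀ (by norm_num)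
  have h2 := Nat.ceil_lt_add_one (show (0 : ℝ) ≤ ((4 : ℝ) / 3) ^ μ by positivity)
  unfold wN
  linarith

theorem tnum_zs_le {p : ℝ} (hp : 0 ≤ p) (μ N : ℕ) (hN : 1 ≤ N)
    (hB : p * (3 * ((μ : ℝ) + N)) ^ N ≤ 1) :
    ∀ j, j ≤ N → zs p μ j ≤ p * (3 * ((μ : ℝ) + N)) ^ j := by
  have hN' : (1 : ℝ) ≤ N := by exact_mod_cast hN
  have hμ : (0 : ℝ) ≤ μ := Nat.cast_nonneg μ
  have hD : (1 : ℝ) ≤ 3 * ((μ : ℝ) + N) := by linarith
  intro j
  induction j with
  | zero => intro _; simp [zs]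
  | succ j ih =>
    intro hj
    have h1 := ih (by omega)
    have h0 := tnum_zs_nonneg hp μ j
    have h2 : zs p μ j ≤ 1 :=
      h1.trans ((mul_le_mul_of_nonneg_left (pow_le_pow_right₀ hD (by omega)) hp).trans hB)
    have h3 : (μ : ℝ) + j + 1 ≤ μ + N := by
      have : (j : ℝ) + 1 ≤ N := by exact_mod_cast hj
      linarith
    have h4 : zs p μ j ^ 2 + 2 * zs p μ j ≤ 3 * zs p μ j := by nlinarith
    simp only [zs]
    calc ((μ : ℝ) + j + 1) * (zs p μ j ^ 2 + 2 * zs p μ j)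
        ≤ ((μ : ℝ) + N) * (3 * zs p μ j) :=
          mul_le_mul h3 h4 (by positivity) (by positivity)
      _ ≤ ((μ : ℝ) + N) * (3 * (p * (3 * ((μ : ℝ) + N)) ^ j)) := by gcongr
      _ = p * (3 * ((μ : ℝ) + N)) ^ (j + 1) := by ring

theorem tnum_two_pow_le_exp (n : ℕ) : (2 : ℝ) ^ n ≤ Real.exp n := by
  have h : (2 : ℝ) ≤ Real.exp 1 := by
    have := Real.add_one_le_exp (1 : ℝ)
    linarith
  calc (2 : ℝ) ^ n ≤ Real.exp 1 ^ n := pow_le_pow_left₀ (by norm_num) h n
    _ = Real.exp n := by rw [← Real.exp_nat_mul, mul_one]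

theorem tnum_big (μ : ℕ) (h7 : 7 ≤ μ) (h9 : 532 * (μ : ℝ) ^ 2 ≤ ((9 : ℝ) / 8) ^ μ) :
    pB μ * (3 * ((μ : ℝ) + (20 * μ * wN μ : ℕ))) ^ (20 * μ * wN μ) * 2 ^ (6 * wN μ) ≤ 1 := by
  obtain ⟨W, hW⟩ : ∃ W : ℝ, W = ((4 : ℝ) / 3) ^ μ := ⟨_, rfl⟩
  have hW1 : 1 ≤ W := hW ▸ one_le_pow₀ (by norm_num)
  have hw2 : (wN μ : ℝ) ≤ 2 * W := hW ▸ tnum_wN_le μ
  have hw1 : (1 : ℝ) ≤ wN μ := by exact_mod_cast tnum_wN_pos μ
  have hμ : (7 : ℝ) ≤ μ := by exact_mod_cast h7
  have he := tnum_two_pow_le_exp μ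
  have hepos : 0 < Real.exp μ := Real.exp_pos _
  have h128 : (128 : ℝ) ≤ Real.exp μ := by
    refine le_trans ?_ he
    calc (128 : ℝ) = 2 ^ 7 := by norm_num
      _ ≤ 2 ^ μ := pow_le_pow_right₀ (by norm_num) h7
  have hWe : W ≤ Real.exp μ := by
    refine le_trans ?_ he
    rw [hW]
    exact pow_le_pow_left₀ (by norm_num) (by norm_num) μ
  have hμe : (μ : ℝ) ≤ Real.exp μ := by
    have := Real.add_one_le_exp (μ : ℝ)
    linarith
  have h2μ : 2 * (μ : ℝ) ≤ Real.exp (2 * μ) := by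
    rw [two_mul (μ : ℝ) , Real.exp_add]
    nlinarith
  have hD : 3 * ((μ : ℝ) + (20 * μ * wN μ : ℕ)) ≤ Real.exp (3 * μ) := by
    have e3 : Real.exp (3 * μ) = Real.exp μ * (Real.exp μ * Real.exp μ) := by
      rw [← Real.exp_add, ← Real.exp_add]
      congr 1
      ring
    have a1 : (μ : ℝ) * W ≤ Real.exp μ * Real.exp μ :=
      mul_le_mul hμe hWe (by linarith) hepos.le
    have a2 : (μ : ℝ) * wN μ ≤ μ * (2 * W) := mul_le_mul_of_nonneg_left hw2 (by linarith)
    have a3 : (μ : ℝ) ≤ μ * W := by nlinarith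
    have a4 : 128 * (Real.exp μ * Real.exp μ) ≤ Real.exp μ * (Real.exp μ * Real.exp μ) :=
      mul_le_mul_of_nonneg_right h128 (by positivity)
    have a5 : 0 ≤ Real.exp μ * Real.exp μ := by positivity
    push_cast
    rw [e3]
    nlinarith
  have hpow : (3 * ((μ : ℝ) + (20 * μ * wN μ : ℕ))) ^ (20 * μ * wN μ) ≤
      Real.exp ((20 * μ * wN μ : ℕ) * (3 * μ)) := by
    rw [Real.exp_nat_mul]
    exact pow_le_pow_left₀ (by positivity) hD _
  have h6 := tnum_two_pow_le_exp (6 * wN μ)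
  have hexp : ((3 : ℝ) / 4) ^ μ * 2 ^ (μ - 2) = W * ((9 : ℝ) / 8) ^ μ / 4 := by
    obtain ⟨k, rfl⟩ : ∃ k, μ = k + 2 := ⟨μ - 2, by omega⟩
    rw [hW, ← mul_pow, Nat.add_sub_cancel]
    have : ((4 : ℝ) / 3 * (9 / 8)) = 3 / 4 * 2 := by norm_num
    rw [this, mul_pow, pow_add (2 : ℝ)]
    ring
  have hfin : 2 * (μ : ℝ) + -(W * ((9 : ℝ) / 8) ^ μ / 4) + (20 * μ * wN μ : ℕ) * (3 * μ) +
      (6 * wN μ : ℕ) ≤ 0 := by
    have b1 : W * (532 * (μ : ℝ) ^ 2) ≤ W * ((9 : ℝ) / 8) ^ μ :=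
      mul_le_mul_of_nonneg_left h9 (by linarith)
    have b2 : (μ : ℝ) ^ 2 * wN μ ≤ (μ : ℝ) ^ 2 * (2 * W) :=
      mul_le_mul_of_nonneg_left hw2 (by positivity)
    have b3 : (49 : ℝ) ≤ (μ : ℝ) ^ 2 := by nlinarith
    have b4 : 49 * W ≤ (μ : ℝ) ^ 2 * W := mul_le_mul_of_nonneg_right b3 (by linarith)
    have b5 : (μ : ℝ) ≤ (μ : ℝ) ^ 2 := by nlinarith
    have b6 : (μ : ℝ) ^ 2 ≤ (μ : ℝ) ^ 2 * W := by nlinarith
    push_cast
    nlinarith
  unfold pB
  rw [hexp]
  calc 2 * (μ : ℝ) * Real.exp (-(W * ((9 : ℝ) / 8) ^ μ / 4)) *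
        (3 * ((μ : ℝ) + (20 * μ * wN μ : ℕ))) ^ (20 * μ * wN μ) * 2 ^ (6 * wN μ)
      ≤ Real.exp (2 * μ) * Real.exp (-(W * ((9 : ℝ) / 8) ^ μ / 4)) *
        Real.exp ((20 * μ * wN μ : ℕ) * (3 * μ)) * Real.exp (6 * wN μ : ℕ) := by gcongr
    _ = Real.exp (2 * (μ : ℝ) + -(W * ((9 : ℝ) / 8) ^ μ / 4) + (20 * μ * wN μ : ℕ) * (3 * μ) +
        (6 * wN μ : ℕ)) := by simp only [Real.exp_add]
    _ ≤ 1 := Real.exp_le_one_iff.2 hfin

theorem tnum_sq {p : ℝ} (hp : 0 ≤ p) (μ N : ℕ) (h1 : zs p μ N ≤ 1) (t : ℕ) :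
    ((μ : ℝ) + N + t + 2) * (1 + zs p μ (N + t)) ≤ (2 * ((μ : ℝ) + N + 2)) ^ 2 ^ t := by
  induction t with
  | zero =>
    have : (0 : ℝ) ≤ (μ : ℝ) + N + 2 := by positivity
    simp only [Nat.cast_zero, add_zero, pow_zero, pow_one]
    nlinarith
  | succ t ih =>
    have h0 := tnum_zs_nonneg hp μ (N + t)
    obtain ⟨z, hz⟩ : ∃ z, z = zs p μ (N + t) := ⟨_, rfl⟩
    obtain ⟨D, hD⟩ : ∃ D : ℝ, D = (μ : ℝ) + N + t := ⟨_, rfl⟩
    have hD0 : 0 ≤ D := by rw [hD]; positivity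
    have e : zs p μ (N + (t + 1)) = (D + 1) * (z ^ 2 + 2 * z) := by
      rw [← add_assoc, hz, hD]
      simp only [zs]
      push_cast
      ring
    have e2 : (μ : ℝ) + N + (t + 1 : ℕ) + 2 = D + 3 := by
      rw [hD]
      push_cast
      ring
    rw [e, e2, pow_succ 2 t, pow_mul]
    rw [← hz] at ih h0
    rw [← hD] at ih
    refine le_trans ?_ (pow_le_pow_left₀ (by positivity) ih 2)
    have c1 : 1 + (D + 1) * (z ^ 2 + 2 * z) ≤ (D + 1) * (1 + z) ^ 2 := by nlinarith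
    calc (D + 3) * (1 + (D + 1) * (z ^ 2 + 2 * z)) ≤ (D + 3) * ((D + 1) * (1 + z) ^ 2) :=
          mul_le_mul_of_nonneg_left c1 (by positivity)
      _ = ((D + 3) * (D + 1)) * (1 + z) ^ 2 := by ring
      _ ≤ (D + 2) ^ 2 * (1 + z) ^ 2 := mul_le_mul_of_nonneg_right (by nlinarith) (by positivity)
      _ = ((D + 2) * (1 + z)) ^ 2 := by ring

theorem tnum_four_mul (J : ℕ) (h : 4 ≤ J) : 4 * J ≤ 2 ^ J := by
  induction J, h using Nat.le_induction with
  | base => norm_num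
  | succ n hn ih =>
    rw [pow_succ]
    omega

theorem zs_tail : ∃ L : ℕ, 2 ≤ L ∧ ∀ μ, L ≤ μ →
    (∀ j, j ≤ 20 * μ * wN μ → zs (pB μ) μ j * 2 ^ (6 * wN μ) ≤ 1) ∧
    ∀ t : ℕ, (1 + zs (pB μ) μ (20 * μ * wN μ + t)) * 2 ^ (6 * wN μ) ≤
      2 ^ 2 ^ (10 * μ * wN μ + t) := by
  have ht := tendsto_pow_const_div_const_pow_of_one_lt 2 (show (1 : ℝ) < 9 / 8 by norm_num)
  have hev := ht.eventually (ge_mem_nhds (show (0 : ℝ) < 1 / 532 by norm_num))
  obtain ⟨L, hL⟩ := Filter.eventually_atTop.1 hev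
  refine ⟨max L 7, le_trans (by norm_num) (le_max_right _ _), fun μ hμ => ?_⟩
  have h7 : 7 ≤ μ := le_trans (le_max_right _ _) hμ
  have h9 : 532 * (μ : ℝ) ^ 2 ≤ ((9 : ℝ) / 8) ^ μ := by
    have := hL μ (le_trans (le_max_left _ _) hμ)
    rw [div_le_iff₀ (by positivity)] at this
    linarith
  have hb := tnum_big μ h7 h9
  have hw := tnum_wN_pos μ
  have hp := tnum_pB_nonneg μ
  have hmw : μ ≤ μ * wN μ := Nat.le_mul_of_pos_right _ hw
  have hwm : wN μ ≤ μ * wN μ := Nat.le_mul_of_pos_left _ (by omega)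
  have e20 : 20 * μ * wN μ = 20 * (μ * wN μ) := mul_assoc _ _ _
  have e10 : 10 * μ * wN μ = 10 * (μ * wN μ) := mul_assoc _ _ _
  obtain ⟨N, hN⟩ : ∃ N, N = 20 * μ * wN μ := ⟨_, rfl⟩
  rw [← hN] at hb ⊢
  have hN1 : 1 ≤ N := by omega
  have h6 : (1 : ℝ) ≤ 2 ^ (6 * wN μ) := one_le_pow₀ (by norm_num)
  have hD : (1 : ℝ) ≤ 3 * ((μ : ℝ) + N) := by
    have : (1 : ℝ) ≤ N := by exact_mod_cast hN1
    have : (0 : ℝ) ≤ μ := Nat.cast_nonneg μ
    linarith
  have hB : pB μ * (3 * ((μ : ℝ) + N)) ^ N ≤ 1 :=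
    le_trans (le_mul_of_one_le_right (by positivity) h6) hb
  have h1 : ∀ j, j ≤ N → zs (pB μ) μ j ≤ pB μ * (3 * ((μ : ℝ) + N)) ^ N := fun j hj =>
    (tnum_zs_le hp μ N hN1 hB j hj).trans
      (mul_le_mul_of_nonneg_left (pow_le_pow_right₀ hD hj) hp)
  refine ⟨fun j hj => le_trans (mul_le_mul_of_nonneg_right (h1 j hj) (by positivity)) hb,
    fun t => ?_⟩
  have h2 := tnum_sq hp μ N ((h1 N le_rfl).trans hB) t
  have h0 := tnum_zs_nonneg hp μ (N + t)
  have h3 : 1 + zs (pB μ) μ (N + t) ≤ (2 * ((μ : ℝ) + N + 2)) ^ 2 ^ t := by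
    refine le_trans (le_mul_of_one_le_left (by positivity) ?_) h2
    have : (0 : ℝ) ≤ (μ : ℝ) + N + t := by positivity
    linarith
  have h4 : 2 * ((μ : ℝ) + N + 2) ≤ 2 ^ (μ + N + 2) := by
    have := tnum_four_mul (μ + N + 2) (by omega)
    have h5 : 2 * (μ + N + 2) ≤ 2 ^ (μ + N + 2) := by omega
    exact_mod_cast h5
  have h5 : (μ + N + 2) * 2 ^ t + 6 * wN μ ≤ 2 ^ (10 * μ * wN μ + t) := by
    have a1 := tnum_four_mul (10 * μ * wN μ) (by omega)
    have a2 : μ + N + 2 + 6 * wN μ ≤ 2 ^ (10 * μ * wN μ) := by omega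
    have a3 : 6 * wN μ ≤ 6 * wN μ * 2 ^ t := Nat.le_mul_of_pos_right _ (by positivity)
    calc (μ + N + 2) * 2 ^ t + 6 * wN μ ≤ (μ + N + 2 + 6 * wN μ) * 2 ^ t := by
          rw [add_mul (μ + N + 2)]
          omega
      _ ≤ 2 ^ (10 * μ * wN μ) * 2 ^ t := Nat.mul_le_mul_right _ a2
      _ = 2 ^ (10 * μ * wN μ + t) := (pow_add _ _ _).symm
  calc (1 + zs (pB μ) μ (N + t)) * 2 ^ (6 * wN μ)
      ≤ ((2 : ℝ) ^ (μ + N + 2)) ^ 2 ^ t * 2 ^ (6 * wN μ) :=
        mul_le_mul_of_nonneg_right (h3.trans (pow_le_pow_left₀ (by positivity) h4 _))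
          (by positivity)
    _ = 2 ^ ((μ + N + 2) * 2 ^ t + 6 * wN μ) := by rw [← pow_mul, ← pow_add]
    _ ≤ 2 ^ 2 ^ (10 * μ * wN μ + t) := pow_le_pow_right₀ (by norm_num) h5

theorem mN_anti (r : ℕ) : Antitone (mN r) := by
  intro a b hab
  unfold mN
  exact Nat.ceil_mono (mul_le_mul_of_nonneg_left
    (pow_le_pow_of_le_one (by norm_num) (by norm_num) hab) (Nat.cast_nonneg r))

theorem le_wN_mul_mN (r μ : ℕ) : r ≤ wN μ * mN r μ := by
  have h1 : ((4 : ℝ) / 3) ^ μ ≤ wN μ := Nat.le_ceil _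
  have h2 : (r : ℝ) * ((3 : ℝ) / 4) ^ μ ≤ mN r μ := Nat.le_ceil _
  have h3 : (r : ℝ) = ((4 : ℝ) / 3) ^ μ * ((r : ℝ) * ((3 : ℝ) / 4) ^ μ) := by
    rw [mul_left_comm, ← mul_pow]
    norm_num
  have h4 : (r : ℝ) ≤ (wN μ : ℝ) * mN r μ := by
    rw [h3]
    exact mul_le_mul h1 (h3 ▸ h2) (by positivity) (by positivity)
  exact_mod_cast h4

theorem tnum_geom (μ n : ℕ) :
    ∑ i ∈ Ico μ (μ + n), ((3 : ℝ) / 4) ^ i = 4 * (3 / 4) ^ μ - 4 * (3 / 4) ^ (μ + n) := by
  induction n with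
  | zero => simp
  | succ n ih =>
    rw [← add_assoc, Finset.sum_Ico_succ_top (by omega), ih, pow_succ]
    ring

theorem tnum_sum (r l μ : ℕ) (hμ : μ ≤ l) (hl : l + 1 ≤ mN r l) :
    ∑ i ∈ Icc μ l, mN r i ≤ 5 * mN r μ := by
  have e : Icc μ l = Ico μ (μ + (l + 1 - μ)) := by
    ext i
    simp only [mem_Icc, mem_Ico]
    omega
  have h1 : ∀ i, (mN r i : ℝ) ≤ r * ((3 : ℝ) / 4) ^ i + 1 := fun i =>
    (Nat.ceil_lt_add_one (by positivity)).le
  have h2 : (r : ℝ) * ((3 : ℝ) / 4) ^ μ ≤ mN r μ := Nat.le_ceil _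
  have h3 : ((l + 1 - μ : ℕ) : ℝ) ≤ mN r μ := by
    have := mN_anti r hμ
    exact_mod_cast (show l + 1 - μ ≤ mN r μ by omega)
  have h4 : ((∑ i ∈ Icc μ l, mN r i : ℕ) : ℝ) ≤ 5 * (mN r μ : ℝ) := by
    rw [e]
    push_cast
    refine le_trans (Finset.sum_le_sum fun i _ => h1 i) ?_
    rw [Finset.sum_add_distrib, ← Finset.mul_sum, tnum_geom, Finset.sum_const, Nat.card_Ico,
      Nat.add_sub_cancel_left, nsmul_eq_mul, mul_one]
    have : 0 ≤ (r : ℝ) * ((3 : ℝ) / 4) ^ (μ + (l + 1 - μ)) := by positivity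
    nlinarith
  exact_mod_cast h4

theorem mN_props (l L : ℕ) (hL : 1 ≤ L) : ∃ r₀ : ℕ, ∀ r, r₀ ≤ r → ∃ j₀ : ℕ, r < 2 ^ j₀ ∧
    (2 * j₀ + 4) * (l + 1) ≤ mN r l ∧ (∀ μ ≤ l, ∑ i ∈ Icc μ l, mN r i ≤ 5 * mN r μ) ∧
    mN r L + 2 ≤ r ∧ l + 1 < 2 ^ r := by
  obtain ⟨c, hc⟩ : ∃ c : ℝ, c = ((3 : ℝ) / 4) ^ l := ⟨_, rfl⟩
  have hc0 : 0 < c := by rw [hc]; positivity
  obtain ⟨K, hK⟩ := exists_nat_ge (12 * ((l : ℝ) + 1) / c)
  rw [div_le_iff₀ hc0] at hK
  refine ⟨(K + 1) * (K + 1) + 8 + (l + 1), fun r hr => ?_⟩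
  obtain ⟨a, ha⟩ : ∃ a, a = Nat.sqrt r := ⟨_, rfl⟩
  have ha1 : K + 1 ≤ a := ha ▸ Nat.le_sqrt.2 (by omega)
  have ha2 : a * a ≤ r := ha ▸ Nat.sqrt_le r
  have ha3 : r < (a + 1) * (a + 1) := ha ▸ Nat.lt_succ_sqrt r
  have hmain : (2 * (2 * (a + 1)) + 4) * (l + 1) ≤ mN r l := by
    have h2 : (r : ℝ) * c ≤ mN r l := hc ▸ Nat.le_ceil _
    have b1 : (K : ℝ) + 1 ≤ a := by exact_mod_cast ha1
    have b2 : (a : ℝ) * a ≤ r := by exact_mod_cast ha2
    have b3 : (0 : ℝ) ≤ K := Nat.cast_nonneg K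
    have b4 : (0 : ℝ) ≤ l := Nat.cast_nonneg l
    have b5 : 12 * ((l : ℝ) + 1) ≤ a * c := hK.trans (by nlinarith)
    have b6 : (a : ℝ) * (12 * ((l : ℝ) + 1)) ≤ a * (a * c) :=
      mul_le_mul_of_nonneg_left b5 (by linarith)
    have b7 : (a : ℝ) * a * c ≤ r * c := mul_le_mul_of_nonneg_right b2 hc0.le
    have b8 : (4 * (a : ℝ) + 8) * (l + 1) ≤ 12 * a * (l + 1) :=
      mul_le_mul_of_nonneg_right (by linarith) (by linarith)
    have h4 : (((2 * (2 * (a + 1)) + 4) * (l + 1) : ℕ) : ℝ) ≤ mN r l := by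
      push_cast
      nlinarith
    exact_mod_cast h4
  refine ⟨2 * (a + 1), ?_, hmain, fun μ hμ => tnum_sum r l μ hμ ?_, ?_, ?_⟩
  · have h1 : a + 1 ≤ 2 ^ (a + 1) := Nat.lt_two_pow_self.le
    calc r < (a + 1) * (a + 1) := ha3
      _ ≤ 2 ^ (a + 1) * 2 ^ (a + 1) := Nat.mul_le_mul h1 h1
      _ = 2 ^ (2 * (a + 1)) := by rw [← pow_add, two_mul]
  · exact le_trans (Nat.le_mul_of_pos_left _ (by omega)) hmain
  · have h1 := mN_anti r hL
    have h8 : 8 ≤ r := by omega
    have h2 : mN r 1 ≤ r - 2 := by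
      unfold mN
      refine Nat.ceil_le.2 ?_
      have : (8 : ℝ) ≤ r := by exact_mod_cast h8
      rw [Nat.cast_sub (by omega)]
      push_cast
      linarith
    omega
  · exact lt_of_le_of_lt (by omega) Nat.lt_two_pow_self

end Pool.Agent.P.MP_0f6e60_lc.T
end

-- part Pool.Agent.P.MP_0f6e60_lc.TTail
section

namespace Pool.Agent.P.MP_0f6e60_lc.T

open Finset Classical

variable {P H ι : Type} [Fintype P] [Fintype H] [Fintype ι]
  [DecidableEq P] [DecidableEq H] [DecidableEq ι]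

theorem ttail_markov {Om : Type} [Fintype Om] (B : Finset Om) (F : Om → ℝ) (c d : ℝ)
    (hd : ∀ x, d ≤ F x) (hc : ∀ x ∈ B, c + d ≤ F x) :
    (B.card : ℝ) * c + d * Fintype.card Om ≤ ∑ x, F x := by
  have h1 : ∑ x : Om, ((if x ∈ B then c else 0) + d) ≤ ∑ x, F x := by
    refine sum_le_sum fun x _ => ?_
    split_ifs with h
    · exact hc x h
    · simpa using hd x
  rw [sum_add_distrib, sum_ite_mem, univ_inter, sum_const, sum_const, card_univ, nsmul_eq_mul,
    nsmul_eq_mul] at h1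
  linarith

theorem val_tail : ∃ L : ℕ, 2 ≤ L ∧ ∀ μ, L ≤ μ → ∀ (H ι : Type) [Fintype H] [Fintype ι]
    [DecidableEq H] [DecidableEq ι] (f : (ι → Bool) → H) (T : Finset H), μ ≤ Fintype.card ι →
    ((3 : ℝ) / 4) ^ μ * Fintype.card H ≤ T.card →
    (univ.filter fun γ : (ι → Bool) → H => ¬ Rob (mixLab f γ) T μ).card * 2 ^ (6 * wN μ) ≤
      Fintype.card ((ι → Bool) → H) := by
  obtain ⟨L, hL2, hL⟩ := zs_tail
  refine ⟨L, hL2, fun μ hμ H ι _ _ _ _ f T hμι hT => ?_⟩
  obtain ⟨h1, h2⟩ := hL μ hμ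
  have hp0 : 0 ≤ pB μ := by unfold pB; positivity
  have hm := val_mgf f T μ (pB μ) hp0 (fun S a hS => by
    have h := bd_prob f T (((3 : ℝ) / 4) ^ μ) (by positivity) hT S a (by omega)
    rw [hS] at h
    exact h) (Fintype.card ι - μ) univ (fun _ => false) (by rw [card_univ]; omega)
  set B := univ.filter fun γ : (ι → Bool) → H => ¬ Rob (mixLab f γ) T μ with hB
  set N : ℝ := (Fintype.card ((ι → Bool) → H) : ℝ) with hN
  have hN0 : 0 ≤ N := Nat.cast_nonneg _
  have hW : (0 : ℝ) < 2 ^ (6 * wN μ) := by positivity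
  have hmem : ∀ γ ∈ B, 2 ^ (Fintype.card ι - μ) <
      Val (mixLab f γ) T (Fintype.card ι - μ) univ (fun _ => false) * 2 ^ (10 * μ * wN μ) :=
    fun γ hγ => not_le.1 (mem_filter.1 hγ).2
  have goal : (B.card : ℝ) * 2 ^ (6 * wN μ) ≤ N := by
    rcases le_total (Fintype.card ι - μ) (20 * μ * wN μ) with hj | hj
    · have h3 := ttail_markov B (fun γ => (2 : ℝ) ^
          Val (mixLab f γ) T (Fintype.card ι - μ) univ (fun _ => false)) 1 1
        (fun γ => one_le_pow₀ (by norm_num)) (fun γ hγ => by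
          have h4 := hmem γ hγ
          have h5 : Val (mixLab f γ) T (Fintype.card ι - μ) univ (fun _ => false) ≠ 0 := by
            intro h0
            rw [h0] at h4
            simp at h4
          have h6 := le_self_pow₀ (by norm_num : (1 : ℝ) ≤ 2) h5
          linarith)
      have h4 : (B.card : ℝ) ≤ zs (pB μ) μ (Fintype.card ι - μ) * N := by linarith
      have h5 := h1 _ hj
      calc (B.card : ℝ) * 2 ^ (6 * wN μ)
          ≤ zs (pB μ) μ (Fintype.card ι - μ) * N * 2 ^ (6 * wN μ) :=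
            mul_le_mul_of_nonneg_right h4 hW.le
        _ = zs (pB μ) μ (Fintype.card ι - μ) * 2 ^ (6 * wN μ) * N := by ring
        _ ≤ 1 * N := mul_le_mul_of_nonneg_right h5 hN0
        _ = N := one_mul N
    · obtain ⟨t, ht⟩ := Nat.exists_eq_add_of_le hj
      have h3 := ttail_markov B (fun γ => (2 : ℝ) ^
          Val (mixLab f γ) T (Fintype.card ι - μ) univ (fun _ => false))
        (2 ^ 2 ^ (10 * μ * wN μ + t)) 0 (fun γ => by positivity) (fun γ hγ => by
          have h4 := hmem γ hγ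
          have h5 : 2 ^ (Fintype.card ι - μ) =
              2 ^ (10 * μ * wN μ + t) * 2 ^ (10 * μ * wN μ) := by
            rw [← pow_add, ht]; congr 1; ring
          rw [h5] at h4
          have h6 := lt_of_mul_lt_mul_right h4 (Nat.zero_le _)
          rw [add_zero]
          exact pow_le_pow_right₀ (by norm_num) h6.le)
      have h5 := h2 t
      rw [← ht] at h5
      have hX : (0 : ℝ) < 2 ^ 2 ^ (10 * μ * wN μ + t) := by positivity
      have h4 : (B.card : ℝ) * 2 ^ 2 ^ (10 * μ * wN μ + t) ≤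
          (1 + zs (pB μ) μ (Fintype.card ι - μ)) * N := by linarith
      refine le_of_mul_le_mul_right ?_ hX
      calc (B.card : ℝ) * 2 ^ (6 * wN μ) * 2 ^ 2 ^ (10 * μ * wN μ + t)
          = (B.card : ℝ) * 2 ^ 2 ^ (10 * μ * wN μ + t) * 2 ^ (6 * wN μ) := by ring
        _ ≤ (1 + zs (pB μ) μ (Fintype.card ι - μ)) * N * 2 ^ (6 * wN μ) :=
            mul_le_mul_of_nonneg_right h4 hW.le
        _ = (1 + zs (pB μ) μ (Fintype.card ι - μ)) * 2 ^ (6 * wN μ) * N := by ring
        _ ≤ 2 ^ 2 ^ (10 * μ * wN μ + t) * N := mul_le_mul_of_nonneg_right h5 hN0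
        _ = N * 2 ^ 2 ^ (10 * μ * wN μ + t) := mul_comm _ _
  rw [hN] at goal
  exact_mod_cast goal

theorem ttail_pi {P Om : Type} [Fintype P] [DecidableEq P] [Fintype Om] (E : P → Finset Om)
    (A : Finset P) (W : ℕ) (hE : ∀ u, (E u).card * W ≤ Fintype.card Om) :
    (Fintype.piFinset fun u => if u ∈ A then E u else univ).card * W ^ A.card ≤
      Fintype.card Om ^ Fintype.card P := by
  have h1 : W ^ A.card = ∏ u : P, if u ∈ A then W else 1 := by
    rw [prod_ite_mem, univ_inter, prod_const]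
  rw [Fintype.card_piFinset, h1, ← prod_mul_distrib, ← card_univ (α := P), ← prod_const]
  refine prod_le_prod' fun u _ => ?_
  split_ifs
  · exact hE u
  · simp

theorem ttail_frac {r h μ t : ℕ} (hh : h ≤ r) (ht : mN r μ ≤ t) :
    ((3 : ℝ) / 4) ^ μ * h ≤ t := by
  have h1 : (r : ℝ) * ((3 : ℝ) / 4) ^ μ ≤ mN r μ := Nat.le_ceil _
  have h2 : (mN r μ : ℝ) ≤ t := by exact_mod_cast ht
  have h3 : (h : ℝ) ≤ r := by exact_mod_cast hh
  have h4 : (0 : ℝ) ≤ ((3 : ℝ) / 4) ^ μ := by positivity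
  nlinarith

theorem exists_lab : ∃ L : ℕ, 2 ≤ L ∧ ∀ (P H ι : Type) [Fintype P] [Fintype H] [Fintype ι]
    [DecidableEq P] [DecidableEq H] [DecidableEq ι] [Nonempty H] (f : P → (ι → Bool) → H),
    Fintype.card H ≤ Fintype.card P → Fintype.card ι + 1 < 2 ^ Fintype.card P →
    ∃ Γ : P → (ι → Bool) → H, ∀ μ, L ≤ μ → μ ≤ Fintype.card ι → ∀ T : Finset H,
      mN (Fintype.card P) μ ≤ T.card →
      2 * (univ.filter fun u => ¬ Rob (mixLab (f u) (Γ u)) T μ).card < mN (Fintype.card P) μ := by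
  obtain ⟨L, hL2, hL⟩ := val_tail
  refine ⟨L, hL2, fun P H ι _ _ _ _ _ _ _ f hHP hι => ?_⟩
  by_contra hcon
  push Not at hcon
  set r := Fintype.card P with hr
  set N := Fintype.card ((ι → Bool) → H) with hN
  have hN0 : 0 < N := Fintype.card_pos
  let B : ℕ × Finset H × Finset P → Finset (P → (ι → Bool) → H) := fun z =>
    if L ≤ z.1 ∧ z.1 ≤ Fintype.card ι ∧ mN r z.1 ≤ z.2.1.card ∧ mN r z.1 ≤ 2 * z.2.2.card then
      Fintype.piFinset fun u => if u ∈ z.2.2 then
        univ.filter fun γ : (ι → Bool) → H => ¬ Rob (mixLab (f u) γ) z.2.1 z.1 else univ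
    else ∅
  have hB : ∀ z, (B z).card * 2 ^ (3 * r) ≤ N ^ r := by
    rintro ⟨μ, T, A⟩
    simp only [B]
    split_ifs with h
    · obtain ⟨h1, h2, h3, h4⟩ := h
      have h5 := ttail_pi (fun u => univ.filter fun γ : (ι → Bool) → H =>
        ¬ Rob (mixLab (f u) γ) T μ) A (2 ^ (6 * wN μ))
        (fun u => hL μ h1 H ι (f u) T h2 (ttail_frac hHP h3))
      refine le_trans (Nat.mul_le_mul_left _ ?_) h5
      rw [← pow_mul]
      refine Nat.pow_le_pow_right (by norm_num) ?_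
      have h6 := le_wN_mul_mN r μ
      have h7 : wN μ * mN r μ ≤ wN μ * (2 * A.card) := Nat.mul_le_mul_left _ h4
      nlinarith
    · simp
  let I : Finset (ℕ × Finset H × Finset P) := range (Fintype.card ι + 1) ×ˢ univ
  have hsub : (univ : Finset (P → (ι → Bool) → H)) ⊆ I.biUnion B := by
    intro Γ _
    obtain ⟨μ, h1, h2, T, h3, h4⟩ := hcon Γ
    refine mem_biUnion.2 ⟨(μ, T, univ.filter fun u => ¬ Rob (mixLab (f u) (Γ u)) T μ), ?_, ?_⟩
    · exact mem_product.2 ⟨mem_range.2 (by omega), mem_univ _⟩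
    · simp only [B]
      rw [if_pos ⟨h1, h2, h3, h4⟩]
      refine Fintype.mem_piFinset.2 fun u => ?_
      split_ifs with hu
      · exact mem_filter.2 ⟨mem_univ _, (mem_filter.1 hu).2⟩
      · exact mem_univ _
  have h1 : N ^ r ≤ ∑ z ∈ I, (B z).card := by
    have := (card_le_card hsub).trans card_biUnion_le
    rwa [card_univ, Fintype.card_fun] at this
  have h2 : N ^ r * 2 ^ (3 * r) ≤ I.card * N ^ r := by
    calc N ^ r * 2 ^ (3 * r) ≤ (∑ z ∈ I, (B z).card) * 2 ^ (3 * r) := Nat.mul_le_mul_right _ h1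
      _ = ∑ z ∈ I, (B z).card * 2 ^ (3 * r) := sum_mul _ _ _
      _ ≤ ∑ _z ∈ I, N ^ r := sum_le_sum fun z _ => hB z
      _ = I.card * N ^ r := by rw [sum_const, smul_eq_mul]
  have h3 : I.card = (Fintype.card ι + 1) * (2 ^ Fintype.card H * 2 ^ r) := by
    simp only [I]
    rw [card_product, card_range, card_univ, Fintype.card_prod, Fintype.card_finset,
      Fintype.card_finset]
  have h4 : I.card < 2 ^ (3 * r) := by
    have h5 : 2 ^ Fintype.card H ≤ 2 ^ r := Nat.pow_le_pow_right (by norm_num) hHP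
    have h6 : 0 < 2 ^ r := by positivity
    calc I.card ≤ (Fintype.card ι + 1) * (2 ^ r * 2 ^ r) := by
          rw [h3]; exact Nat.mul_le_mul_left _ (Nat.mul_le_mul_right _ h5)
      _ < 2 ^ r * (2 ^ r * 2 ^ r) := Nat.mul_lt_mul_of_pos_right hι (by positivity)
      _ = 2 ^ (3 * r) := by rw [← pow_add, ← pow_add]; congr 1; ring
  have h5 : 0 < N ^ r := by positivity
  have h6 : I.card * N ^ r < 2 ^ (3 * r) * N ^ r := Nat.mul_lt_mul_of_pos_right h4 h5
  rw [mul_comm (2 ^ (3 * r))] at h6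
  omega

end Pool.Agent.P.MP_0f6e60_lc.T
end

-- part Pool.Agent.P.MP_0f6e60_lc.TMart
section

namespace Pool.Agent.P.MP_0f6e60_lc.T

open Finset Classical

variable {P H ι : Type} [Fintype P] [Fintype H] [Fintype ι]
  [DecidableEq P] [DecidableEq H] [DecidableEq ι]

/-- Normalised value of the cube `(Z, a)`. -/
noncomputable def tmartPhi (g : (ι → Bool) → H) (T : Finset H) (μ : ℕ) (Z : Finset ι)
    (a : ι → Bool) : ℝ :=
  (Val g T (Z.card - μ) Z a : ℝ) / 2 ^ (Z.card - μ)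

/-- Flip the bit that is queried at time `τ`, if it is still free. -/
noncomputable def tmartFl (q : (P → ι → Bool) → ℕ → Option (P × ι)) (τ : ℕ)
    (x : P → ι → Bool) : P → ι → Bool :=
  fun u i => if q x τ = some (u, i) ∧ i ∈ Fz q 0 x u τ then !(x u i) else x u i

theorem tmart_phi_nonneg (g : (ι → Bool) → H) (T : Finset H) (μ : ℕ) (Z : Finset ι)
    (a : ι → Bool) : 0 ≤ tmartPhi g T μ Z a := by
  unfold tmartPhi; positivity

theorem tmart_phi_congr (g : (ι → Bool) → H) (T : Finset H) (μ : ℕ) {Z : Finset ι}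
    {a a' : ι → Bool} (h : Cube Z a a') : tmartPhi g T μ Z a' = tmartPhi g T μ Z a := by
  unfold tmartPhi; rw [Val_congr g T _ _ _ _ h]

theorem tmart_phi_step (g : (ι → Bool) → H) (T : Finset H) (μ : ℕ) {Z : Finset ι} {i : ι}
    (hi : i ∈ Z) (hμ : μ < Z.card) (a a' : ι → Bool) (h1 : a' i = !(a i))
    (h2 : ∀ k, k ≠ i → a' k = a k) :
    tmartPhi g T μ (Z.erase i) a + tmartPhi g T μ (Z.erase i) a' ≤ 2 * tmartPhi g T μ Z a := by
  obtain ⟨j, hj⟩ : ∃ j, Z.card - μ = j + 1 := ⟨Z.card - μ - 1, by omega⟩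
  have hj' : (Z.erase i).card - μ = j := by rw [card_erase_of_mem hi]; omega
  have ha : a = Function.update a i (a i) := by simp
  have ha' : a' = Function.update a i (!(a i)) := by
    funext k
    by_cases hk : k = i
    · subst hk; simp [h1]
    · rw [Function.update_of_ne hk, h2 k hk]
  have hle : Val g T j (Z.erase i) (Function.update a i false) +
      Val g T j (Z.erase i) (Function.update a i true) ≤ Val g T (j + 1) Z a := by
    simp only [Val]
    exact Finset.le_sup (f := fun i => Val g T j (Z.erase i) (Function.update a i false) +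
      Val g T j (Z.erase i) (Function.update a i true)) hi
  have hle2 : Val g T j (Z.erase i) a + Val g T j (Z.erase i) a' ≤ Val g T (j + 1) Z a := by
    cases hc : a i
    · rw [hc] at ha ha'
      rw [← ha] at hle
      simp only [Bool.not_false] at ha'
      rw [ha']; exact hle
    · rw [hc] at ha ha'
      rw [← ha] at hle
      simp only [Bool.not_true] at ha'
      rw [ha', add_comm]; exact hle
  unfold tmartPhi
  rw [hj, hj', ← add_div, pow_succ]
  have h3 : ((Val g T j (Z.erase i) a : ℝ) + Val g T j (Z.erase i) a') ≤ Val g T (j + 1) Z a := by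
    exact_mod_cast hle2
  have h4 : (0 : ℝ) < 2 ^ j := by positivity
  calc _ ≤ (Val g T (j + 1) Z a : ℝ) / 2 ^ j := by gcongr
    _ = _ := by field_simp

theorem tmart_fl_cube (q : (P → ι → Bool) → ℕ → Option (P × ι)) (τ : ℕ) (x : P → ι → Bool)
    (u : P) : Cube (Fz q 0 x u τ) (x u) (tmartFl q τ x u) := by
  intro i hi
  simp [tmartFl, hi]

theorem tmart_fl_fl {q : (P → ι → Bool) → ℕ → Option (P × ι)} (hq : Adapt q) (τ : ℕ) :
    Function.Involutive (tmartFl q τ) := by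
  intro x
  funext u i
  have h1 : q (tmartFl q τ x) τ = q x τ := hq.q_eq (tmart_fl_cube q τ x) le_rfl
  have h2 : Fz q 0 (tmartFl q τ x) u τ = Fz q 0 x u τ :=
    hq.Fz_eq (tmart_fl_cube q τ x) 0 u (by omega)
  have h3 : tmartFl q τ (tmartFl q τ x) u i =
      if q x τ = some (u, i) ∧ i ∈ Fz q 0 x u τ then !(tmartFl q τ x u i)
        else tmartFl q τ x u i := by
    rw [← h1, ← h2]; rfl
  rw [h3]
  by_cases h : q x τ = some (u, i) ∧ i ∈ Fz q 0 x u τ
  · rw [if_pos h]; unfold tmartFl; rw [if_pos h]; simp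
  · rw [if_neg h]; unfold tmartFl; rw [if_neg h]

theorem tmart_zero_subset (q : (P → ι → Bool) → ℕ → Option (P × ι)) (μ : ℕ)
    (x : P → ι → Bool) (u : P) (τ : ℕ) : Fz q 0 x u τ ⊆ Fz q μ x u τ := by
  rcases Fz_eq_or q μ x u τ with h | h
  · rw [h]
  · exact h.2

theorem tmart_pair (lab : P → (ι → Bool) → H) {q : (P → ι → Bool) → ℕ → Option (P × ι)}
    (hq : Adapt q) (μ : ℕ) (T : Finset H) (A : Finset P) (τ : ℕ) (x : P → ι → Bool) :
    ∏ u ∈ A, tmartPhi (lab u) T μ (Fz q μ x u (τ + 1)) (x u) +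
      ∏ u ∈ A, tmartPhi (lab u) T μ (Fz q μ (tmartFl q τ x) u (τ + 1)) (tmartFl q τ x u) ≤
      2 * ∏ u ∈ A, tmartPhi (lab u) T μ (Fz q μ x u τ) (x u) := by
  have hF : ∀ u, Fz q μ (tmartFl q τ x) u (τ + 1) = Fz q μ x u (τ + 1) :=
    fun u => hq.Fz_eq (tmart_fl_cube q τ x) μ u le_rfl
  simp only [hF]
  have hsame : ∀ u, Fz q μ x u (τ + 1) = Fz q μ x u τ →
      tmartPhi (lab u) T μ (Fz q μ x u (τ + 1)) (x u) =
        tmartPhi (lab u) T μ (Fz q μ x u τ) (x u) ∧
      tmartPhi (lab u) T μ (Fz q μ x u (τ + 1)) (tmartFl q τ x u) =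
        tmartPhi (lab u) T μ (Fz q μ x u τ) (x u) := by
    intro u hu
    rw [hu]
    exact ⟨rfl, tmart_phi_congr _ _ _
      ((tmart_fl_cube q τ x u).mono (tmart_zero_subset q μ x u τ))⟩
  by_cases h : ∃ v ∈ A, Fz q μ x v (τ + 1) ≠ Fz q μ x v τ
  · obtain ⟨v, hvA, hv⟩ := h
    have hc : ¬ (Fz q μ x v τ).card ≤ μ := by
      intro hc; apply hv; simp only [Fz]; rw [if_pos hc]
    have hv1 : Fz q μ x v (τ + 1) = (Fz q μ x v τ).filter fun i => q x τ ≠ some (v, i) := by
      simp only [Fz]; rw [if_neg hc]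
    obtain ⟨i, hi, hqi⟩ : ∃ i ∈ Fz q μ x v τ, q x τ = some (v, i) := by
      by_contra hn
      push Not at hn
      exact hv (hv1.trans (filter_true_of_mem hn))
    have hi0 : i ∈ Fz q 0 x v τ := by
      rcases Fz_eq_or q μ x v τ with h' | h'
      · rw [← h']; exact hi
      · exact absurd h'.1 hc
    have hv2 : Fz q μ x v (τ + 1) = (Fz q μ x v τ).erase i := by
      rw [hv1, hqi]
      ext k
      simp only [mem_filter, mem_erase, ne_eq, Option.some.injEq, Prod.mk.injEq, true_and]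
      exact ⟨fun h => ⟨fun h' => h.2 h'.symm, h.1⟩, fun h => ⟨h.2, fun h' => h.1 h'.symm⟩⟩
    have hoth : ∀ u ∈ A.erase v, Fz q μ x u (τ + 1) = Fz q μ x u τ := by
      intro u hu
      simp only [Fz]
      split_ifs
      · rfl
      · refine filter_true_of_mem fun k _ => ?_
        rw [hqi]
        intro h'
        simp only [Option.some.injEq, Prod.mk.injEq] at h'
        exact (mem_erase.1 hu).1 h'.1.symm
    rw [← mul_prod_erase A _ hvA, ← mul_prod_erase A _ hvA,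
      ← mul_prod_erase A (fun u => tmartPhi (lab u) T μ (Fz q μ x u τ) (x u)) hvA,
      prod_congr rfl fun u hu => (hsame u (hoth u hu)).1,
      prod_congr rfl fun u hu => (hsame u (hoth u hu)).2, ← add_mul, ← mul_assoc, hv2]
    refine mul_le_mul_of_nonneg_right ?_ (prod_nonneg fun u _ => tmart_phi_nonneg _ _ _ _ _)
    refine tmart_phi_step _ _ _ hi (by omega) _ _ ?_ ?_
    · unfold tmartFl; rw [if_pos ⟨hqi, hi0⟩]
    · intro k hk
      unfold tmartFl
      rw [if_neg]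
      rintro ⟨h', -⟩
      rw [hqi] at h'
      simp only [Option.some.injEq, Prod.mk.injEq, true_and] at h'
      exact hk h'.symm
  · push Not at h
    rw [prod_congr rfl fun u hu => (hsame u (h u hu)).1,
      prod_congr rfl fun u hu => (hsame u (h u hu)).2]
    linarith

theorem tmart_sum_anti (lab : P → (ι → Bool) → H) {q : (P → ι → Bool) → ℕ → Option (P × ι)}
    (hq : Adapt q) (μ : ℕ) (T : Finset H) (A : Finset P) (τ : ℕ) :
    ∑ x : P → ι → Bool, ∏ u ∈ A, tmartPhi (lab u) T μ (Fz q μ x u τ) (x u) ≤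
      ∑ x : P → ι → Bool, ∏ u ∈ A, tmartPhi (lab u) T μ (Fz q μ x u 0) (x u) := by
  induction τ with
  | zero => exact le_rfl
  | succ τ ih =>
    refine le_trans ?_ ih
    have h1 := Equiv.sum_comp (tmart_fl_fl hq τ).toPerm
      (fun x => ∏ u ∈ A, tmartPhi (lab u) T μ (Fz q μ x u (τ + 1)) (x u))
    have h2 := Finset.sum_le_sum (s := (univ : Finset (P → ι → Bool)))
      fun x _ => tmart_pair lab hq μ T A τ x
    rw [sum_add_distrib, ← mul_sum] at h2
    simp only [Function.Involutive.coe_toPerm] at h1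
    rw [h1] at h2
    linarith

theorem mart (lab : P → (ι → Bool) → H) (q : (P → ι → Bool) → ℕ → Option (P × ι)) (Tm : ℕ)
    (hq : Adapt q) (hT : ∀ x u, Fz q 0 x u Tm = ∅) (μ : ℕ) (hμ : μ ≤ Fintype.card ι)
    (T : Finset H) (A : Finset P) (J : ℕ)
    (hA : ∀ u ∈ A, Val (lab u) T (Fintype.card ι - μ) univ (fun _ => false) * 2 ^ J ≤
      2 ^ (Fintype.card ι - μ)) :
    (univ.filter fun x : P → ι → Bool => ∀ u ∈ A, Bd (lab u) T (Fz q μ x u Tm) (x u)).card *
      2 ^ (J * A.card) ≤ 2 ^ (Fintype.card ι * Fintype.card P) := by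
  have h1 := tmart_sum_anti lab hq μ T A Tm
  have h2 : ∀ x : P → ι → Bool,
      ∏ u ∈ A, tmartPhi (lab u) T μ (Fz q μ x u 0) (x u) ≤ 1 / 2 ^ (J * A.card) := by
    intro x
    have : ∀ u ∈ A, tmartPhi (lab u) T μ (Fz q μ x u 0) (x u) ≤ 1 / 2 ^ J := by
      intro u hu
      have h3 : Val (lab u) T (Fintype.card ι - μ) univ (x u) =
          Val (lab u) T (Fintype.card ι - μ) univ (fun _ => false) :=
        Val_congr _ _ _ _ _ _ fun i hi => absurd (mem_univ i) hi
      have h4 : (Val (lab u) T (Fintype.card ι - μ) univ (fun _ => false) : ℝ) * 2 ^ J ≤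
          2 ^ (Fintype.card ι - μ) := by exact_mod_cast hA u hu
      simp only [tmartPhi, Fz, card_univ, h3]
      rw [div_le_div_iff₀ (by positivity) (by positivity)]
      linarith
    calc _ ≤ ∏ _u ∈ A, (1 / 2 ^ J : ℝ) :=
          prod_le_prod (fun u _ => tmart_phi_nonneg _ _ _ _ _) this
      _ = _ := by rw [prod_const, one_div_pow, ← pow_mul]
  have h3 : ∑ x : P → ι → Bool, ∏ u ∈ A, tmartPhi (lab u) T μ (Fz q μ x u 0) (x u) ≤
      2 ^ (Fintype.card ι * Fintype.card P) * (1 / 2 ^ (J * A.card)) := by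
    refine (sum_le_card_nsmul _ _ _ fun x _ => h2 x).trans ?_
    simp [pow_mul]
  have h4 : ((univ.filter fun x : P → ι → Bool =>
      ∀ u ∈ A, Bd (lab u) T (Fz q μ x u Tm) (x u)).card : ℝ) ≤
      ∑ x : P → ι → Bool, ∏ u ∈ A, tmartPhi (lab u) T μ (Fz q μ x u Tm) (x u) := by
    rw [card_eq_sum_ones, Nat.cast_sum, sum_filter]
    refine sum_le_sum fun x _ => ?_
    split_ifs with hx
    · refine le_of_eq ?_
      rw [Nat.cast_one]
      refine (prod_eq_one fun u hu => ?_).symm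
      simp [tmartPhi, card_Fz_end q μ x u (hT x u) hμ, Val, hx u hu]
    · exact prod_nonneg fun u _ => tmart_phi_nonneg _ _ _ _ _
  have h5 := (h4.trans h1).trans h3
  rw [mul_one_div, le_div_iff₀ (by positivity)] at h5
  exact_mod_cast h5

theorem card_badX (lab : P → (ι → Bool) → H) (q : (P → ι → Bool) → ℕ → Option (P × ι)) (Tm : ℕ)
    (hq : Adapt q) (hT : ∀ x u, Fz q 0 x u Tm = ∅) (L : ℕ)
    (hH : Fintype.card H ≤ Fintype.card P)
    (hrob : ∀ μ, L ≤ μ → μ ≤ Fintype.card ι → ∀ T : Finset H, mN (Fintype.card P) μ ≤ T.card →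
      2 * (univ.filter fun u => ¬ Rob (lab u) T μ).card < mN (Fintype.card P) μ) :
    (univ.filter fun x => BadX lab q Tm (mN (Fintype.card P)) L x).card *
      2 ^ (5 * L * Fintype.card P) ≤
      (Fintype.card ι + 1) * 4 ^ Fintype.card P * 2 ^ (Fintype.card ι * Fintype.card P) := by
  set I0 : Finset (ℕ × Finset H × Finset P) := range (Fintype.card ι + 1) ×ˢ univ ×ˢ univ
    with hI0
  set I := I0.filter fun t => L ≤ t.1 ∧ mN (Fintype.card P) t.1 ≤ 2 * t.2.2.card ∧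
    ∀ u ∈ t.2.2, Rob (lab u) t.2.1 t.1 with hI
  set S : ℕ × Finset H × Finset P → Finset (P → ι → Bool) := fun t =>
    univ.filter fun x => ∀ u ∈ t.2.2, Bd (lab u) t.2.1 (Fz q t.1 x u Tm) (x u) with hS
  have hsub : (univ.filter fun x => BadX lab q Tm (mN (Fintype.card P)) L x) ⊆
      I.biUnion S := by
    intro x hx
    obtain ⟨μ, h1, h2, A, T, h3, h4, h5⟩ := (mem_filter.1 hx).2
    refine mem_biUnion.2 ⟨(μ, T, A.filter fun u => Rob (lab u) T μ), ?_, ?_⟩
    · refine mem_filter.2 ⟨?_, h1, ?_, fun u hu => (mem_filter.1 hu).2⟩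
      · simp only [hI0, mem_product, mem_range, mem_univ, and_true]; omega
      · have h6 := hrob μ h1 h2 T h4
        have h7 := card_filter_add_card_filter_not (s := A) (fun u => Rob (lab u) T μ)
        have h8 : (A.filter fun u => ¬ Rob (lab u) T μ).card ≤
            (univ.filter fun u => ¬ Rob (lab u) T μ).card :=
          card_le_card (filter_subset_filter _ (subset_univ A))
        simp only
        omega
    · exact mem_filter.2 ⟨mem_univ _, fun u hu => h5 u (mem_filter.1 hu).1⟩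
  have hone : ∀ t ∈ I, (S t).card * 2 ^ (5 * L * Fintype.card P) ≤
      2 ^ (Fintype.card ι * Fintype.card P) := by
    intro t ht
    obtain ⟨h0, h1, h2, h3⟩ := mem_filter.1 ht
    have hμ : t.1 ≤ Fintype.card ι := by
      have := (mem_product.1 h0).1
      rw [mem_range] at this; omega
    refine le_trans ?_ (mart lab q Tm hq hT t.1 hμ t.2.1 t.2.2 (10 * t.1 * wN t.1) h3)
    refine Nat.mul_le_mul_left _ (Nat.pow_le_pow_right (by norm_num) ?_)
    calc 5 * L * Fintype.card P ≤ 5 * t.1 * (wN t.1 * mN (Fintype.card P) t.1) :=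
          Nat.mul_le_mul (by omega) (le_wN_mul_mN _ _)
      _ ≤ 5 * t.1 * (wN t.1 * (2 * t.2.2.card)) := by gcongr
      _ = _ := by ring
  have hIc : I.card ≤ (Fintype.card ι + 1) * 4 ^ Fintype.card P := by
    refine (card_filter_le _ _).trans ?_
    simp only [hI0, card_product, card_range, card_univ, Fintype.card_finset]
    refine Nat.mul_le_mul_left _ ?_
    calc 2 ^ Fintype.card H * 2 ^ Fintype.card P ≤ 2 ^ Fintype.card P * 2 ^ Fintype.card P :=
          Nat.mul_le_mul_right _ (Nat.pow_le_pow_right (by norm_num) hH)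
      _ = _ := by rw [← mul_pow]; norm_num
  calc _ ≤ (∑ t ∈ I, (S t).card) * 2 ^ (5 * L * Fintype.card P) :=
        Nat.mul_le_mul_right _ ((card_le_card hsub).trans card_biUnion_le)
    _ = ∑ t ∈ I, (S t).card * 2 ^ (5 * L * Fintype.card P) := sum_mul _ _ _
    _ ≤ I.card • 2 ^ (Fintype.card ι * Fintype.card P) := sum_le_card_nsmul _ _ _ hone
    _ ≤ _ := by rw [smul_eq_mul]; exact Nat.mul_le_mul_right _ hIc

theorem tmart_card_cube (S : Finset ι) (a : ι → Bool) :
    (univ.filter fun b => Cube S a b).card ≤ 2 ^ S.card := by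
  rw [← card_powerset]
  refine card_le_card_of_injOn (fun b => S.filter fun i => b i = true) ?_ ?_
  · intro b _
    exact mem_coe.2 (mem_powerset.2 (filter_subset _ _))
  · intro b hb b' hb' h
    have h1 : Cube S a b := (mem_filter.1 (mem_coe.1 hb)).2
    have h2 : Cube S a b' := (mem_filter.1 (mem_coe.1 hb')).2
    funext i
    by_cases hi : i ∈ S
    · have h3 : i ∈ (S.filter fun i => b i = true) ↔ i ∈ (S.filter fun i => b' i = true) := by
        simp only at h
        rw [h]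
      simp only [mem_filter, hi, true_and] at h3
      exact Bool.eq_iff_iff.2 h3
    · rw [h1 i hi, h2 i hi]

theorem card_near (q : (P → ι → Bool) → ℕ → Option (P × ι)) (Tm B : ℕ)
    (hT : ∀ x u, Fz q 0 x u Tm = ∅) (x : P → ι → Bool) :
    (univ.filter fun x0 => Near q Tm B x x0).card ≤ 4 ^ B * 2 ^ Fintype.card P := by
  set g : P → (ι → Bool) → ℝ := fun u a => ∑ z ∈ range (Fintype.card ι + 1),
    if Cube (Fz q z x u Tm) (x u) a then (1 / 4 : ℝ) ^ z else 0 with hg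
  have hg0 : ∀ u a, 0 ≤ g u a := fun u a => sum_nonneg fun z _ => by
    split_ifs <;> positivity
  have h1 : ∀ x0, Near q Tm B x x0 → (1 / 4 : ℝ) ^ B ≤ ∏ u, g u (x0 u) := by
    rintro x0 ⟨z, hz1, hz2, hz3⟩
    calc (1 / 4 : ℝ) ^ B ≤ (1 / 4 : ℝ) ^ (∑ u, z u) :=
          pow_le_pow_of_le_one (by norm_num) (by norm_num) hz2
      _ = ∏ u, (1 / 4 : ℝ) ^ z u := (prod_pow_eq_pow_sum _ _ _).symm
      _ ≤ _ := by
          refine prod_le_prod (fun u _ => by positivity) fun u _ => ?_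
          have h2 := single_le_sum (s := range (Fintype.card ι + 1))
            (f := fun z => if Cube (Fz q z x u Tm) (x u) (x0 u) then (1 / 4 : ℝ) ^ z else 0)
            (fun z _ => by split_ifs <;> positivity)
            (mem_range.2 (Nat.lt_succ_of_le (hz1 u)))
          simp only [if_pos (hz3 u)] at h2
          exact h2
  have h2 : ∀ u, ∑ a, g u a ≤ 2 := by
    intro u
    simp only [hg]
    rw [sum_comm]
    calc _ ≤ ∑ z ∈ range (Fintype.card ι + 1), (1 / 2 : ℝ) ^ z := by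
          refine sum_le_sum fun z hz => ?_
          have hz' : z ≤ Fintype.card ι := by rw [mem_range] at hz; omega
          have h3 := tmart_card_cube (Fz q z x u Tm) (x u)
          rw [card_Fz_end q z x u (hT x u) hz'] at h3
          have h4 : ((univ.filter fun b => Cube (Fz q z x u Tm) (x u) b).card : ℝ) ≤ 2 ^ z := by
            exact_mod_cast h3
          rw [← sum_filter, sum_const, nsmul_eq_mul]
          calc _ ≤ (2 : ℝ) ^ z * (1 / 4) ^ z := by gcongr
            _ = _ := by rw [← mul_pow]; norm_num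
      _ ≤ 2 := sum_geometric_two_le _
  have h3 : ∑ x0 : P → ι → Bool, ∏ u, g u (x0 u) ≤ 2 ^ Fintype.card P := by
    rw [← Fintype.piFinset_univ, ← prod_univ_sum]
    calc _ ≤ ∏ _u : P, (2 : ℝ) :=
          prod_le_prod (fun u _ => sum_nonneg fun a _ => hg0 u a) fun u _ => h2 u
      _ = _ := by simp
  have h4 : ((univ.filter fun x0 => Near q Tm B x x0).card : ℝ) * (1 / 4) ^ B ≤
      ∑ x0 : P → ι → Bool, ∏ u, g u (x0 u) := by
    rw [← nsmul_eq_mul, ← sum_const, sum_filter]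
    refine sum_le_sum fun x0 _ => ?_
    split_ifs with hx
    · exact h1 x0 hx
    · exact prod_nonneg fun u _ => hg0 u _
  have h5 := h4.trans h3
  rw [one_div_pow, mul_one_div, div_le_iff₀ (by positivity), mul_comm] at h5
  exact_mod_cast h5

end Pool.Agent.P.MP_0f6e60_lc.T
end

-- part Pool.Agent.P.MP_0f6e60_lc.TTree
section

namespace Pool.Agent.P.MP_0f6e60_lc.T

open Finset Classical

variable {P H ι : Type} [Fintype P] [Fintype H] [Fintype ι]
  [DecidableEq P] [DecidableEq H] [DecidableEq ι]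

section aux

variable {n s : ℕ} (enc : P × ι → Fin n) (J : Fin s → Option (Fin s × Fin s × Fin n)) (i0 : Fin s)

/-- Decoding of a variable. -/
noncomputable def ttree_dec (v : Fin n) : Option (P × ι) :=
  if h : ∃ p, enc p = v then some h.choose else none

/-- The assignment given by a point. -/
noncomputable def ttree_al (x : P → ι → Bool) (v : Fin n) : Bool :=
  (ttree_dec enc v).elim false fun p => x p.1 p.2

/-- The walk from the root to a falsified leaf. -/
noncomputable def ttree_nd (x : P → ι → Bool) : ℕ → Fin s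
  | 0 => i0
  | τ + 1 => (J (ttree_nd x τ)).elim (ttree_nd x τ)
      fun e => if ttree_al enc x e.2.2 = true then e.2.1 else e.1

/-- The queries. -/
noncomputable def ttree_q (x : P → ι → Bool) (τ : ℕ) : Option (P × ι) :=
  if τ < s then (J (ttree_nd enc J i0 x τ)).bind fun e => ttree_dec enc e.2.2
  else if h : τ - s < Fintype.card (P × ι) then some ((Fintype.equivFin (P × ι)).symm ⟨τ - s, h⟩)
  else none

variable {enc}

theorem ttree_dec_enc (henc : Function.Injective enc) (p : P × ι) :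
    ttree_dec enc (enc p) = some p := by
  have h : ∃ p', enc p' = enc p := ⟨p, rfl⟩
  unfold ttree_dec
  rw [dif_pos h, henc h.choose_spec]

theorem ttree_al_some {v : Fin n} {p : P × ι} (h : ttree_dec enc v = some p)
    (x : P → ι → Bool) : ttree_al enc x v = x p.1 p.2 := by
  unfold ttree_al
  rw [h]
  rfl

theorem ttree_al_none {v : Fin n} (h : ttree_dec enc v = none) (x : P → ι → Bool) :
    ttree_al enc x v = false := by
  unfold ttree_al
  rw [h]
  rfl

variable {J i0}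

theorem ttree_nd_none {x : P → ι → Bool} {τ : ℕ} (h : J (ttree_nd enc J i0 x τ) = none) :
    ttree_nd enc J i0 x (τ + 1) = ttree_nd enc J i0 x τ := by
  simp only [ttree_nd]
  rw [h]
  rfl

theorem ttree_nd_some {x : P → ι → Bool} {τ : ℕ} {j l : Fin s} {v : Fin n}
    (h : J (ttree_nd enc J i0 x τ) = some (j, l, v)) :
    ttree_nd enc J i0 x (τ + 1) = if ttree_al enc x v = true then l else j := by
  simp only [ttree_nd]
  rw [h]
  rfl

theorem ttree_q_some {x : P → ι → Bool} {τ : ℕ} (hτ : τ < s) {j l : Fin s} {v : Fin n}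
    (h : J (ttree_nd enc J i0 x τ) = some (j, l, v)) :
    ttree_q enc J i0 x τ = ttree_dec enc v := by
  unfold ttree_q
  rw [if_pos hτ, h]
  rfl

theorem ttree_q_none {x : P → ι → Bool} {τ : ℕ} (hτ : τ < s)
    (h : J (ttree_nd enc J i0 x τ) = none) : ttree_q enc J i0 x τ = none := by
  unfold ttree_q
  rw [if_pos hτ, h]
  rfl

theorem ttree_adapt : Adapt (ttree_q enc J i0) := by
  intro x x' τ hC
  have key : ∀ σ, σ ≤ τ → σ ≤ s → ttree_nd enc J i0 x' σ = ttree_nd enc J i0 x σ := by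
    intro σ
    induction σ with
    | zero => intro _ _; rfl
    | succ σ ih =>
      intro h1 h2
      have h3 := ih (by omega) (by omega)
      rcases h4 : J (ttree_nd enc J i0 x σ) with _ | ⟨j, l, v⟩
      · rw [ttree_nd_none h4, ttree_nd_none (h3 ▸ h4), h3]
      · rw [ttree_nd_some h4, ttree_nd_some (h3 ▸ h4)]
        have h5 : ttree_al enc x' v = ttree_al enc x v := by
          rcases h6 : ttree_dec enc v with _ | p
          · rw [ttree_al_none h6, ttree_al_none h6]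
          · rw [ttree_al_some h6, ttree_al_some h6]
            refine hC p.1 p.2 fun h7 => ?_
            exact (mem_Fz_zero _ x p.1 τ p.2).1 h7 σ (by omega)
              ((ttree_q_some (by omega) h4).trans h6)
        rw [h5]
  unfold ttree_q
  by_cases h : τ < s
  · rw [if_pos h, if_pos h, key τ le_rfl h.le]
  · rw [if_neg h, if_neg h]

theorem ttree_end (x : P → ι → Bool) (u : P) :
    Fz (ttree_q enc J i0) 0 x u (s + Fintype.card (P × ι)) = ∅ := by
  refine eq_empty_of_forall_notMem fun i hi => ?_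
  have h1 := (Fintype.equivFin (P × ι) (u, i)).2
  refine (mem_Fz_zero _ x u _ i).1 hi (s + (Fintype.equivFin (P × ι) (u, i) : ℕ)) (by omega) ?_
  unfold ttree_q
  rw [if_neg (by omega), dif_pos (by omega)]
  congr 1
  rw [Equiv.symm_apply_eq]
  exact Fin.ext (by simp)

theorem ttree_inv {Pc : Fin s → Finset (Fin n × Bool)} (h0 : Pc i0 = ∅)
    (hres : ∀ i j l x, J i = some (j, l, x) → j < i ∧ l < i ∧
      Pc i = (Pc j).erase (x, true) ∪ (Pc l).erase (x, false)) (x : P → ι → Bool) :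
    ∀ τ, τ ≤ s → ∀ e ∈ Pc (ttree_nd enc J i0 x τ), ttree_al enc x e.1 ≠ e.2 ∧
      ∀ p, ttree_dec enc e.1 = some p → ∃ σ < τ, ttree_q enc J i0 x σ = some p := by
  intro τ
  induction τ with
  | zero =>
    intro _ e he
    have : e ∈ Pc i0 := he
    rw [h0] at this
    exact absurd this (notMem_empty e)
  | succ τ ih =>
    intro h1 e he
    have old : e ∈ Pc (ttree_nd enc J i0 x τ) → ttree_al enc x e.1 ≠ e.2 ∧
        ∀ p, ttree_dec enc e.1 = some p → ∃ σ < τ + 1, ttree_q enc J i0 x σ = some p := by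
      intro h2
      obtain ⟨h3, h4⟩ := ih (by omega) e h2
      refine ⟨h3, fun p hp => ?_⟩
      obtain ⟨σ, h5, h6⟩ := h4 p hp
      exact ⟨σ, by omega, h6⟩
    rcases h4 : J (ttree_nd enc J i0 x τ) with _ | ⟨j, l, v⟩
    · rw [ttree_nd_none h4] at he
      exact old he
    · rw [ttree_nd_some h4] at he
      have h5 := (hres _ _ _ _ h4).2.2
      have new : ∀ c, e = (v, c) → ttree_al enc x v ≠ c → ttree_al enc x e.1 ≠ e.2 ∧
          ∀ p, ttree_dec enc e.1 = some p → ∃ σ < τ + 1, ttree_q enc J i0 x σ = some p := by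
        rintro c rfl h6
        exact ⟨h6, fun p hp => ⟨τ, by omega, (ttree_q_some (by omega) h4).trans hp⟩⟩
      by_cases h6 : ttree_al enc x v = true
      · rw [if_pos h6] at he
        by_cases h7 : e = (v, false)
        · exact new false h7 (by rw [h6]; decide)
        · exact old (h5 ▸ mem_union_right _ (mem_erase.2 ⟨h7, he⟩))
      · rw [if_neg h6] at he
        by_cases h7 : e = (v, true)
        · exact new true h7 h6
        · exact old (h5 ▸ mem_union_left _ (mem_erase.2 ⟨h7, he⟩))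

theorem ttree_drop (hlt : ∀ i j l x, J i = some (j, l, x) → j < i ∧ l < i) (x : P → ι → Bool) :
    ∀ τ, (∀ σ < τ, J (ttree_nd enc J i0 x σ) ≠ none) →
      (ttree_nd enc J i0 x τ : ℕ) + τ ≤ i0 := by
  intro τ
  induction τ with
  | zero => intro _; exact le_rfl
  | succ τ ih =>
    intro h
    have h1 := ih fun σ hσ => h σ (by omega)
    rcases h4 : J (ttree_nd enc J i0 x τ) with _ | ⟨j, l, v⟩
    · exact absurd h4 (h τ (by omega))
    · rw [ttree_nd_some h4]
      obtain ⟨h2, h3⟩ := hlt _ _ _ _ h4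
      rw [Fin.lt_def] at h2 h3
      split_ifs <;> omega

theorem ttree_uniq (hlt : ∀ i j l x, J i = some (j, l, x) → j < i ∧ l < i)
    (hne : ∀ i j l x, J i = some (j, l, x) → j ≠ l)
    (htree : ∀ i i' j l x j' l' x' c, J i = some (j, l, x) → J i' = some (j', l', x') →
      (c = j ∨ c = l) → (c = j' ∨ c = l') → i = i') (x x' : P → ι → Bool) :
    ∀ τ τ', (∀ σ < τ, J (ttree_nd enc J i0 x σ) ≠ none) →
      (∀ σ < τ', J (ttree_nd enc J i0 x' σ) ≠ none) →
      ttree_nd enc J i0 x τ = ttree_nd enc J i0 x' τ' →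
      τ = τ' ∧ ∀ σ < τ, ∀ j l v, J (ttree_nd enc J i0 x σ) = some (j, l, v) →
        ttree_al enc x' v = ttree_al enc x v := by
  intro τ
  induction τ with
  | zero =>
    intro τ' _ h2 h3
    have h4 := ttree_drop hlt x' τ' h2
    have h5 : (ttree_nd enc J i0 x' τ' : ℕ) = i0 := by rw [← h3]; rfl
    exact ⟨by omega, fun σ hσ => absurd hσ (by omega)⟩
  | succ τ ih =>
    intro τ' h1 h2 h3
    rcases τ' with _ | τ'
    · have h4 := ttree_drop hlt x (τ + 1) h1
      have h5 : (ttree_nd enc J i0 x (τ + 1) : ℕ) = i0 := by rw [h3]; rfl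
      omega
    rcases h4 : J (ttree_nd enc J i0 x τ) with _ | ⟨j, l, v⟩
    · exact absurd h4 (h1 τ (by omega))
    rcases h5 : J (ttree_nd enc J i0 x' τ') with _ | ⟨j', l', v'⟩
    · exact absurd h5 (h2 τ' (by omega))
    rw [ttree_nd_some h4, ttree_nd_some h5] at h3
    have h6 : ttree_nd enc J i0 x τ = ttree_nd enc J i0 x' τ' := by
      refine htree _ _ _ _ _ _ _ _ (if ttree_al enc x v = true then l else j) h4 h5 ?_ ?_
      · split_ifs
        · exact Or.inr rfl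
        · exact Or.inl rfl
      · rw [h3]
        split_ifs
        · exact Or.inr rfl
        · exact Or.inl rfl
    obtain ⟨h7, h8⟩ := ih τ' (fun σ hσ => h1 σ (by omega)) (fun σ hσ => h2 σ (by omega)) h6
    refine ⟨by omega, fun σ hσ j1 l1 v1 h9 => ?_⟩
    rcases Nat.lt_succ_iff_lt_or_eq.1 hσ with h10 | h10
    · exact h8 σ h10 j1 l1 v1 h9
    · subst h10
      rw [h4] at h9
      rw [← h6, h4] at h5
      cases h9
      cases h5
      have h11 := hne _ _ _ _ h4
      rcases h12 : ttree_al enc x v with _ | _ <;> rcases h13 : ttree_al enc x' v with _ | _ <;>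
        simp only [h12, h13] at h3 ⊢
      · exact absurd (by simpa using h3) h11
      · exact absurd (by simpa using h3.symm) h11

theorem ttree_cubes (S : P → Finset ι) (x : P → ι → Bool) (D : Finset (P → ι → Bool))
    (h : ∀ x' ∈ D, ∀ u, Cube (S u) (x u) (x' u)) : D.card ≤ 2 ^ ∑ u, (S u).card := by
  have h1 : D.card ≤ (Fintype.piFinset fun u => (S u).powerset).card := by
    refine card_le_card_of_injOn (fun x' u => (S u).filter fun i => x' u i = true) ?_ ?_
    · intro x' _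
      exact mem_coe.2 (Fintype.mem_piFinset.2 fun u => mem_powerset.2 (filter_subset _ _))
    · intro a ha b hb hab
      funext u i
      by_cases hi : i ∈ S u
      · have h2 := Finset.ext_iff.1 (congrFun hab u) i
        simp only [mem_filter, hi, true_and] at h2
        exact Bool.eq_iff_iff.2 h2
      · exact (h a ha u i hi).trans (h b hb u i hi).symm
  rw [Fintype.card_piFinset] at h1
  simp only [card_powerset] at h1
  rwa [prod_pow_eq_pow_sum] at h1

end aux

theorem tree_system {n s : ℕ} (lab : P → (ι → Bool) → H) (enc : P × ι → Fin n)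
    (henc : Function.Injective enc) (F : Finset (Finset (Fin n × Bool)))
    (hF : ∀ D ∈ F, ∃ (u w : P) (a b : ι → Bool), u ≠ w ∧ lab u a = lab w b ∧
      (∀ i, (enc (u, i), !a i) ∈ D) ∧ ∀ i, (enc (w, i), !b i) ∈ D)
    (Pc : Fin s → Finset (Fin n × Bool)) (J : Fin s → Option (Fin s × Fin s × Fin n))
    (h0 : ∃ i, Pc i = ∅) (hax : ∀ i, J i = none → Pc i ∈ F)
    (hres : ∀ i j l x, J i = some (j, l, x) → j < i ∧ l < i ∧
      Pc i = (Pc j).erase (x, true) ∪ (Pc l).erase (x, false))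
    (hne : ∀ i j l x, J i = some (j, l, x) → j ≠ l)
    (htree : ∀ i i' j l x j' l' x' c, J i = some (j, l, x) → J i' = some (j', l', x') →
      (c = j ∨ c = l) → (c = j' ∨ c = l') → i = i') :
    ∃ (q : (P → ι → Bool) → ℕ → Option (P × ι)) (Tm : ℕ), Adapt q ∧
      (∀ x u, Fz q 0 x u Tm = ∅) ∧
      ∀ B : ℕ, (univ.filter fun x => DeepX lab q B x).card ≤ s * 2 ^ B := by
  obtain ⟨i0, h0⟩ := h0
  have hlt : ∀ i j l x, J i = some (j, l, x) → j < i ∧ l < i := fun i j l x h =>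
    ⟨(hres i j l x h).1, (hres i j l x h).2.1⟩
  refine ⟨ttree_q enc J i0, s + Fintype.card (P × ι), ttree_adapt, ttree_end, fun B => ?_⟩
  have coll : ∀ x σ τ, σ ≤ s → σ ≤ τ → J (ttree_nd enc J i0 x σ) = none →
      Coll lab (ttree_q enc J i0) x τ := by
    intro x σ τ h1 h2 h3
    obtain ⟨u, w, a, b, h4, h5, h6, h7⟩ := hF _ (hax _ h3)
    have key : ∀ (u : P) (a : ι → Bool),
        (∀ i, (enc (u, i), !a i) ∈ Pc (ttree_nd enc J i0 x σ)) →
        x u = a ∧ Fz (ttree_q enc J i0) 0 x u τ = ∅ := by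
      intro u a h8
      have h9 := fun i => ttree_inv h0 hres x σ h1 _ (h8 i)
      constructor
      · funext i
        have h10 := (h9 i).1
        rw [ttree_al_some (ttree_dec_enc henc (u, i))] at h10
        revert h10
        cases x u i <;> cases a i <;> simp
      · refine eq_empty_of_forall_notMem fun i hi => ?_
        obtain ⟨ρ, h10, h11⟩ := (h9 i).2 _ (ttree_dec_enc henc (u, i))
        exact (mem_Fz_zero _ x u τ i).1 hi ρ (by omega) h11
    exact ⟨u, w, h4, (key u a h6).2, (key w b h7).2, by rw [(key u a h6).1, (key w b h7).1, h5]⟩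
  have alive : ∀ x τ, ¬ Coll lab (ttree_q enc J i0) x τ →
      τ < s ∧ ∀ σ < τ, J (ttree_nd enc J i0 x σ) ≠ none := by
    intro x τ h
    have h1 : τ < s := by
      by_contra h2
      have h3 := ttree_drop (enc := enc) (i0 := i0) hlt x s
        fun σ hσ h4 => h (coll x σ τ hσ.le (by omega) h4)
      have := i0.2
      omega
    exact ⟨h1, fun σ hσ h4 => h (coll x σ τ (by omega) hσ.le h4)⟩
  let D : Fin s → Finset (P → ι → Bool) := fun c => univ.filter fun x => ∃ τ,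
    ¬ Coll lab (ttree_q enc J i0) x τ ∧ ∑ u, (Fz (ttree_q enc J i0) 0 x u τ).card ≤ B ∧
      ttree_nd enc J i0 x τ = c
  have hD : ∀ c, (D c).card ≤ 2 ^ B := by
    intro c
    rcases (D c).eq_empty_or_nonempty with h | ⟨x, hx⟩
    · rw [h, card_empty]
      exact Nat.zero_le _
    obtain ⟨τ, h1, h2, h3⟩ := (mem_filter.1 hx).2
    refine (ttree_cubes (fun u => Fz (ttree_q enc J i0) 0 x u τ) x (D c) ?_).trans
      (Nat.pow_le_pow_right (by omega) h2)
    intro x' hx' u i hi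
    obtain ⟨τ', h4, -, h5⟩ := (mem_filter.1 hx').2
    obtain ⟨-, h6⟩ := ttree_uniq hlt hne htree x x' τ τ' (alive x τ h1).2 (alive x' τ' h4).2
      (h3.trans h5.symm)
    rw [mem_Fz_zero] at hi
    push Not at hi
    obtain ⟨σ, h7, h8⟩ := hi
    have h9 : σ < s := h7.trans (alive x τ h1).1
    rcases h10 : J (ttree_nd enc J i0 x σ) with _ | ⟨j, l, v⟩
    · exact absurd h10 ((alive x τ h1).2 σ h7)
    · rw [ttree_q_some h9 h10] at h8
      have h11 := h6 σ h7 j l v h10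
      rwa [ttree_al_some h8, ttree_al_some h8] at h11
  calc (univ.filter fun x => DeepX lab (ttree_q enc J i0) B x).card
      ≤ ((univ : Finset (Fin s)).biUnion D).card := by
        refine card_le_card fun x hx => ?_
        obtain ⟨τ, h1, h2⟩ := (mem_filter.1 hx).2
        exact mem_biUnion.2 ⟨_, mem_univ _, mem_filter.2 ⟨mem_univ _, τ, h1, h2, rfl⟩⟩
    _ ≤ (univ : Finset (Fin s)).card * 2 ^ B := card_biUnion_le_card_mul _ _ _ fun c _ => hD c
    _ = s * 2 ^ B := by rw [card_univ, Fintype.card_fin]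

end Pool.Agent.P.MP_0f6e60_lc.T
end

-- part Pool.Agent.P.MP_0f6e60_lc.TGraph
section

/-! Tree-like lower bound: graph lemmas (bounded walks, cores, shortest paths). -/

namespace Pool.Agent.P.MP_0f6e60_lc.T

open Finset Classical

variable {P : Type} [DecidableEq P]

/-- A walk of at most `n` steps. -/
def Wk (E : P → P → Prop) : ℕ → P → P → Prop
  | 0, a, b => a = b
  | n + 1, a, b => Wk E n a b ∨ ∃ c, Wk E n a c ∧ E c b

theorem Wk.refl (E : P → P → Prop) (a : P) : ∀ n, Wk E n a a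
  | 0 => rfl
  | n + 1 => Or.inl (Wk.refl E a n)

theorem Wk.mono_n {E : P → P → Prop} {a b : P} {n k : ℕ} (h : Wk E n a b) (hk : n ≤ k) :
    Wk E k a b := by
  induction hk with
  | refl => exact h
  | step _ ih => exact Or.inl ih

theorem Wk.mono {E E' : P → P → Prop} (hE : ∀ a b, E a b → E' a b) {a : P} :
    ∀ {n : ℕ} {b : P}, Wk E n a b → Wk E' n a b
  | 0, _, h => h
  | _ + 1, _, h => h.elim (fun h => Or.inl (Wk.mono hE h))
      fun ⟨c, h1, h2⟩ => Or.inr ⟨c, Wk.mono hE h1, hE _ _ h2⟩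

theorem Wk.single {E : P → P → Prop} {a b : P} (h : E a b) : Wk E 1 a b :=
  Or.inr ⟨a, rfl, h⟩

theorem Wk.trans {E : P → P → Prop} {a b : P} {n : ℕ} (h : Wk E n a b) :
    ∀ {k : ℕ} {c : P}, Wk E k b c → Wk E (n + k) a c
  | 0, _, h' => by cases h'; exact h
  | _ + 1, _, h' => h'.elim (fun h' => Or.inl (h.trans h'))
      fun ⟨c, h1, h2⟩ => Or.inr ⟨c, h.trans h1, h2⟩

theorem Wk.flip {E : P → P → Prop} {a : P} :
    ∀ {n : ℕ} {b : P}, Wk (fun s t => E t s) n a b → Wk E n b a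
  | 0, _, h => h.symm
  | n + 1, _, h => h.elim (fun h => Or.inl (Wk.flip h))
      fun ⟨_, h1, h2⟩ => by
        have := (Wk.single (E := E) h2).trans (Wk.flip h1)
        rwa [Nat.add_comm] at this

theorem Wk.reach {E : P → P → Prop} {a : P} :
    ∀ {n : ℕ} {b : P}, Wk E n a b → Relation.ReflTransGen E a b
  | 0, _, h => by cases h; exact .refl
  | _ + 1, _, h => h.elim Wk.reach fun ⟨_, h1, h2⟩ => (Wk.reach h1).tail h2

theorem wk_of_reach {E : P → P → Prop} {a b : P} (h : Relation.ReflTransGen E a b) :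
    ∃ n, Wk E n a b := by
  induction h with
  | refl => exact ⟨0, rfl⟩
  | tail _ h2 ih => obtain ⟨n, hn⟩ := ih; exact ⟨n + 1, Or.inr ⟨_, hn, h2⟩⟩

/-- Balls double as long as they are small. -/
theorem ball_big (E : P → P → Prop) (K : Finset P) (m : ℕ)
    (hexp : ∀ X ⊆ K, X.Nonempty → X.card ≤ m →
      X.card < ((K \ X).filter fun b => ∃ a ∈ X, E a b).card) (a : P) (ha : a ∈ K) (j : ℕ) :
    min (2 ^ j) m ≤ (K.filter fun b => Wk (fun s t => s ∈ K ∧ t ∈ K ∧ E s t) j a b).card := by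
  induction j with
  | zero =>
    refine (min_le_left _ _).trans (card_pos.2 ⟨a, mem_filter.2 ⟨ha, rfl⟩⟩)
  | succ j ih =>
    set X := K.filter fun b => Wk (fun s t => s ∈ K ∧ t ∈ K ∧ E s t) j a b with hX
    have hsub : X ∪ ((K \ X).filter fun b => ∃ a ∈ X, E a b) ⊆
        K.filter fun b => Wk (fun s t => s ∈ K ∧ t ∈ K ∧ E s t) (j + 1) a b := by
      intro b hb
      rcases mem_union.1 hb with hb | hb
      · exact mem_filter.2 ⟨(mem_filter.1 hb).1, Or.inl (mem_filter.1 hb).2⟩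
      · obtain ⟨h1, c, hc, h2⟩ := mem_filter.1 hb
        exact mem_filter.2 ⟨(mem_sdiff.1 h1).1, Or.inr ⟨c, (mem_filter.1 hc).2,
          (mem_filter.1 hc).1, (mem_sdiff.1 h1).1, h2⟩⟩
    have hdis : Disjoint X ((K \ X).filter fun b => ∃ a ∈ X, E a b) :=
      disjoint_left.2 fun b hb hb' => (mem_sdiff.1 (mem_filter.1 hb').1).2 hb
    have h1 := card_le_card hsub
    rw [card_union_of_disjoint hdis] at h1
    by_cases hm : X.card ≤ m
    · have h2 := hexp X (filter_subset _ _) ⟨a, mem_filter.2 ⟨ha, Wk.refl _ _ _⟩⟩ hm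
      rw [pow_succ]
      omega
    · omega

/-- A set in which any two large subsets are joined by an arc has a large core of small
diameter. -/
theorem exists_core (E : P → P → Prop) (V : Finset P) (m j : ℕ) (hm : 1 ≤ m) (hj : m ≤ 2 ^ j)
    (hV : 7 * m ≤ V.card)
    (harc : ∀ A ⊆ V, ∀ B ⊆ V, m ≤ A.card → m ≤ B.card → ∃ a ∈ A, ∃ b ∈ B, E a b) :
    ∃ K ⊆ V, m ≤ K.card ∧ ∀ a ∈ K, ∀ b ∈ K,
      Wk (fun s t => s ∈ K ∧ t ∈ K ∧ E s t) (2 * j + 1) a b := by
  let G : Finset P × Finset P → Prop := fun p => p.1 ⊆ V ∧ p.2 ⊆ V ∧ p.1.card < 2 * m ∧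
    p.2.card < 2 * m ∧
    ((V \ (p.1 ∪ p.2)).filter fun b => ∃ a ∈ p.1, E a b).card ≤ p.1.card ∧
    ((V \ (p.1 ∪ p.2)).filter fun b => ∃ a ∈ p.2, E b a).card ≤ p.2.card
  have hne : ((V.powerset ×ˢ V.powerset).filter G).Nonempty :=
    ⟨(∅, ∅), mem_filter.2 ⟨by simp, by simp [G]; omega⟩⟩
  obtain ⟨⟨O, I⟩, hp, hmax⟩ := exists_max_image _ (fun p => p.1.card + p.2.card) hne
  obtain ⟨-, hO, hI, hO2, hI2, hO3, hI3⟩ := mem_filter.1 hp
  dsimp only at hO hI hO2 hI2 hO3 hI3 hmax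
  set K := V \ (O ∪ I) with hK
  have hKc : V.card ≤ K.card + (O.card + I.card) := by
    have := card_union_le O I
    have : V.card - (O ∪ I).card ≤ K.card := le_card_sdiff (O ∪ I) V
    omega
  have hOm : O.card < m := by
    by_contra hn
    have h1 := le_card_sdiff (K.filter fun b => ∃ a ∈ O, E a b) K
    obtain ⟨a, ha, b, hb, hab⟩ := harc O hO (K \ K.filter fun b => ∃ a ∈ O, E a b)
      (sdiff_subset.trans sdiff_subset) (by omega) (by omega)
    exact (mem_sdiff.1 hb).2 (mem_filter.2 ⟨(mem_sdiff.1 hb).1, a, ha, hab⟩)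
  have hIm : I.card < m := by
    by_contra hn
    have h1 := le_card_sdiff (K.filter fun b => ∃ a ∈ I, E b a) K
    obtain ⟨a, ha, b, hb, hab⟩ := harc (K \ K.filter fun b => ∃ a ∈ I, E b a)
      (sdiff_subset.trans sdiff_subset) I hI (by omega) (by omega)
    exact (mem_sdiff.1 ha).2 (mem_filter.2 ⟨(mem_sdiff.1 ha).1, b, hb, hab⟩)
  have hXO : ∀ X ⊆ K, Disjoint O X := fun X hX => disjoint_left.2 fun a ha ha' =>
    (mem_sdiff.1 (hX ha')).2 (mem_union_left _ ha)
  have hXI : ∀ X ⊆ K, Disjoint I X := fun X hX => disjoint_left.2 fun a ha ha' =>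
    (mem_sdiff.1 (hX ha')).2 (mem_union_right _ ha)
  have hout : ∀ X ⊆ K, X.Nonempty → X.card ≤ m →
      X.card < ((K \ X).filter fun b => ∃ a ∈ X, E a b).card := by
    intro X hX hX0 hXm
    by_contra hn
    have hc := card_union_of_disjoint (hXO X hX)
    have hsub : O ∪ X ⊆ V := union_subset hO (hX.trans sdiff_subset)
    have h1 : ((V \ (O ∪ X ∪ I)).filter fun b => ∃ a ∈ O ∪ X, E a b) ⊆
        (K.filter fun b => ∃ a ∈ O, E a b) ∪ ((K \ X).filter fun b => ∃ a ∈ X, E a b) := by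
      intro b hb
      simp only [hK, mem_filter, mem_sdiff, mem_union] at hb ⊢
      obtain ⟨⟨h1, h2⟩, a, ha | ha, hab⟩ := hb
      · exact Or.inl ⟨⟨h1, by tauto⟩, a, ha, hab⟩
      · exact Or.inr ⟨⟨⟨h1, by tauto⟩, by tauto⟩, a, ha, hab⟩
    have h2 : ((V \ (O ∪ X ∪ I)).filter fun b => ∃ a ∈ I, E b a) ⊆
        K.filter fun b => ∃ a ∈ I, E b a := by
      intro b hb
      simp only [hK, mem_filter, mem_sdiff, mem_union] at hb ⊢
      exact ⟨⟨hb.1.1, by tauto⟩, hb.2⟩
    have h3 := (card_le_card h1).trans (card_union_le _ _)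
    have h4 := card_le_card h2
    have h5 := hmax (O ∪ X, I) (mem_filter.2 ⟨by simp [hsub, hI],
      hsub, hI, by dsimp only; omega, hI2, by dsimp only; omega, by dsimp only; omega⟩)
    have := card_pos.2 hX0
    dsimp only at h5
    omega
  have hin : ∀ X ⊆ K, X.Nonempty → X.card ≤ m →
      X.card < ((K \ X).filter fun b => ∃ a ∈ X, E b a).card := by
    intro X hX hX0 hXm
    by_contra hn
    have hc := card_union_of_disjoint (hXI X hX)
    have hsub : I ∪ X ⊆ V := union_subset hI (hX.trans sdiff_subset)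
    have h1 : ((V \ (O ∪ (I ∪ X))).filter fun b => ∃ a ∈ I ∪ X, E b a) ⊆
        (K.filter fun b => ∃ a ∈ I, E b a) ∪ ((K \ X).filter fun b => ∃ a ∈ X, E b a) := by
      intro b hb
      simp only [hK, mem_filter, mem_sdiff, mem_union] at hb ⊢
      obtain ⟨⟨h1, h2⟩, a, ha | ha, hab⟩ := hb
      · exact Or.inl ⟨⟨h1, by tauto⟩, a, ha, hab⟩
      · exact Or.inr ⟨⟨⟨h1, by tauto⟩, by tauto⟩, a, ha, hab⟩
    have h2 : ((V \ (O ∪ (I ∪ X))).filter fun b => ∃ a ∈ O, E a b) ⊆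
        K.filter fun b => ∃ a ∈ O, E a b := by
      intro b hb
      simp only [hK, mem_filter, mem_sdiff, mem_union] at hb ⊢
      exact ⟨⟨hb.1.1, by tauto⟩, hb.2⟩
    have h3 := (card_le_card h1).trans (card_union_le _ _)
    have h4 := card_le_card h2
    have h5 := hmax (O, I ∪ X) (mem_filter.2 ⟨by simp [hsub, hO],
      hO, hsub, hO2, by dsimp only; omega, by dsimp only; omega, by dsimp only; omega⟩)
    have := card_pos.2 hX0
    dsimp only at h5
    omega
  refine ⟨K, sdiff_subset, by omega, fun a ha b hb => ?_⟩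
  have h1 := ball_big E K m hout a ha j
  have h2 := ball_big (fun s t => E t s) K m hin b hb j
  rw [min_eq_right hj] at h1 h2
  obtain ⟨c, hc, d, hd, hcd⟩ := harc _ ((filter_subset _ _).trans sdiff_subset) _
    ((filter_subset _ _).trans sdiff_subset) h1 h2
  have h3 : Wk (fun s t => s ∈ K ∧ t ∈ K ∧ E s t) j d b :=
    Wk.flip (Wk.mono (fun s t h => ⟨h.2.1, h.1, h.2.2⟩) (mem_filter.1 hd).2)
  have h4 := ((mem_filter.1 hc).2.trans
    (Wk.single ⟨(mem_filter.1 hc).1, (mem_filter.1 hd).1, hcd⟩)).trans h3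
  exact h4.mono_n (by omega)

/-- Small sets with a large union have a subfamily with a union of medium size. -/
theorem accumulate {α : Type} (G : α → Finset P) (m : ℕ) (hm : 1 ≤ m) (U : Finset α)
    (hG : ∀ u ∈ U, (G u).card < m) (hU : m ≤ (U.biUnion G).card) :
    ∃ U' ⊆ U, m ≤ (U'.biUnion G).card ∧ (U'.biUnion G).card < 2 * m := by
  induction U using Finset.induction_on with
  | empty => simp at hU; omega
  | insert a U ha ih =>
    by_cases h : m ≤ (U.biUnion G).card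
    · obtain ⟨U', h1, h2⟩ := ih (fun u hu => hG u (mem_insert_of_mem hu)) h
      exact ⟨U', h1.trans (subset_insert _ _), h2⟩
    · refine ⟨insert a U, Subset.refl _, hU, ?_⟩
      rw [biUnion_insert]
      have := card_union_le (G a) (U.biUnion G)
      have := hG a (mem_insert_self _ _)
      omega

/-- A large set with distinct heights has a low part and a high part with a gap. -/
theorem exists_gap (W : Finset P) (δ : P → ℕ) (hδ : Set.InjOn δ W) (m : ℕ) (hm : 1 ≤ m)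
    (hW : 2 * m + 1 ≤ W.card) :
    ∃ A ⊆ W, ∃ B ⊆ W, m ≤ A.card ∧ m ≤ B.card ∧ ∀ a ∈ A, ∀ b ∈ B, δ a + 2 ≤ δ b := by
  have hex : ∃ c, m ≤ (W.filter fun a => δ a < c).card :=
    ⟨W.sup δ + 1, by
      rw [filter_true_of_mem fun a ha => Nat.lt_succ_of_le (le_sup (f := δ) ha)]; omega⟩
  have h1 : ∀ c, (W.filter fun a => δ a = c).card ≤ 1 := fun c =>
    card_le_one.2 fun a ha b hb => hδ (mem_coe.2 (mem_filter.1 ha).1)
      (mem_coe.2 (mem_filter.1 hb).1) ((mem_filter.1 ha).2.trans (mem_filter.1 hb).2.symm)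
  have hc := Nat.find_spec hex
  obtain ⟨c, hc0⟩ : ∃ c, Nat.find hex = c + 1 := by
    refine Nat.exists_eq_succ_of_ne_zero fun h0 => ?_
    rw [h0] at hc; simp at hc; omega
  have h2 := Nat.find_min hex (show c < Nat.find hex by omega)
  rw [hc0] at hc
  refine ⟨_, filter_subset _ _, W.filter fun a => c + 2 ≤ δ a, filter_subset _ _, hc, ?_,
    fun a ha b hb => ?_⟩
  · have h3 : W ⊆ (((W.filter fun a => δ a < c) ∪ W.filter fun a => δ a = c) ∪
        W.filter fun a => δ a = c + 1) ∪ W.filter fun a => c + 2 ≤ δ a := by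
      intro a ha
      simp only [mem_union, mem_filter, ha, true_and]
      omega
    have h4 := (card_le_card h3).trans (card_union_le _ _)
    have h5 := card_union_le ((W.filter fun a => δ a < c) ∪ W.filter fun a => δ a = c)
      (W.filter fun a => δ a = c + 1)
    have h6 := card_union_le (W.filter fun a => δ a < c) (W.filter fun a => δ a = c)
    have := h1 c
    have := h1 (c + 1)
    omega
  · have := (mem_filter.1 ha).2
    have := (mem_filter.1 hb).2
    omega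

/-- A shortest path from `v` to `y`, as a set with a height function and a successor map. -/
theorem exists_path (E : P → P → Prop) (v y : P) (h : Relation.ReflTransGen E v y) :
    ∃ (Pa : Finset P) (δ : P → ℕ) (σ : P → P), v ∈ Pa ∧ y ∈ Pa ∧ δ v = 0 ∧
      (∀ a ∈ Pa, Relation.ReflTransGen E v a) ∧ Set.InjOn δ Pa ∧
      (∀ a ∈ Pa, ∀ b n, Wk E n a b → δ b ≤ δ a + n) ∧
      (∀ a ∈ Pa, a ≠ y → σ a ∈ Pa ∧ E a (σ a) ∧ δ (σ a) = δ a + 1) ∧
      (∀ a ∈ Pa, Relation.ReflTransGen E a y) := by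
  let δ : P → ℕ := fun b => if h : ∃ n, Wk E n v b then Nat.find h else 0
  have hδ1 : ∀ b n, Wk E n v b → δ b ≤ n := fun b n hb => by
    simp only [δ]; rw [dif_pos ⟨n, hb⟩]; exact Nat.find_min' _ hb
  have hδ2 : ∀ b, Relation.ReflTransGen E v b → Wk E (δ b) v b := fun b hb => by
    simp only [δ]; rw [dif_pos (wk_of_reach hb)]; exact Nat.find_spec (wk_of_reach hb)
  have key : ∀ t y, Relation.ReflTransGen E v y → δ y = t →
      ∃ (Pa : Finset P) (σ : P → P), v ∈ Pa ∧ y ∈ Pa ∧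
      (∀ a ∈ Pa, Relation.ReflTransGen E v a) ∧ Set.InjOn δ Pa ∧ (∀ a ∈ Pa, δ a ≤ t) ∧
      (∀ a ∈ Pa, a ≠ y → σ a ∈ Pa ∧ E a (σ a) ∧ δ (σ a) = δ a + 1) ∧
      (∀ a ∈ Pa, Relation.ReflTransGen E a y) := by
    intro t
    induction t with
    | zero =>
      intro y hy h0
      have h1 := hδ2 y hy
      rw [h0] at h1
      cases h1
      exact ⟨{v}, id, by simp, by simp, by simpa using hy, by simp, by simpa using h0,
        by simp, by simpa using hy⟩
    | succ t ih =>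
      intro y hy h0
      have h1 := hδ2 y hy
      rw [h0] at h1
      rcases h1 with h1 | ⟨c, h1, h2⟩
      · have := hδ1 y t h1; omega
      have h3 : δ c = t := by
        have h4 := hδ1 c t h1
        have h5 := hδ1 y (δ c + 1) (Or.inr ⟨c, hδ2 c h1.reach, h2⟩)
        omega
      obtain ⟨Pa, σ, p1, p2, p3, p4, p5, p6, p7⟩ := ih c h1.reach h3
      refine ⟨insert y Pa, Function.update σ c y, mem_insert_of_mem p1, mem_insert_self _ _,
        fun a ha => ?_, fun a ha b hb hab => ?_, fun a ha => ?_, fun a ha hay => ?_,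
        fun a ha => ?_⟩
      · rcases mem_insert.1 ha with rfl | ha
        exacts [hy, p3 a ha]
      · rcases mem_insert.1 (mem_coe.1 ha) with ha | ha <;>
          rcases mem_insert.1 (mem_coe.1 hb) with hb | hb
        · rw [ha, hb]
        · have := p5 b hb; rw [ha] at hab; omega
        · have := p5 a ha; rw [hb] at hab; omega
        · exact p4 (mem_coe.2 ha) (mem_coe.2 hb) hab
      · rcases mem_insert.1 ha with rfl | ha
        · omega
        · have := p5 a ha; omega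
      · have ha' : a ∈ Pa := (mem_insert.1 ha).resolve_left hay
        by_cases hac : a = c
        · subst hac
          rw [Function.update_self]
          exact ⟨mem_insert_self _ _, h2, by omega⟩
        · rw [Function.update_of_ne hac]
          exact ⟨mem_insert_of_mem (p6 a ha' hac).1, (p6 a ha' hac).2⟩
      · rcases mem_insert.1 ha with rfl | ha
        exacts [.refl, (p7 a ha).tail h2]
  obtain ⟨Pa, σ, p1, p2, p3, p4, -, p6, p7⟩ := key _ y h rfl
  refine ⟨Pa, δ, σ, p1, p2, Nat.le_zero.1 (hδ1 v 0 rfl), p3, p4, fun a ha b n hw => ?_, p6, p7⟩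
  exact hδ1 b _ ((hδ2 a (p3 a ha)).trans hw)

end Pool.Agent.P.MP_0f6e60_lc.T
end

-- part Pool.Agent.P.MP_0f6e60_lc.TInv
section

/-! Tree-like lower bound: states of the adversary, the invariant, and the counting lemma. -/

namespace Pool.Agent.P.MP_0f6e60_lc.T

open Finset Classical

variable {P H ι : Type} [Fintype P] [Fintype H] [Fintype ι]
  [DecidableEq P] [DecidableEq H] [DecidableEq ι]

structure St (P ι : Type) where
  Fr : P → Finset ι
  x : P → ι → Bool
  v : P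
  Ch : Finset P
  Z : P → Finset ι

noncomputable def lev (G : P → Finset ι) (l : ℕ) : Finset P :=
  univ.filter fun u => l ≤ (G u).card

noncomputable def Rch (lab : P → (ι → Bool) → H) (G : P → Finset ι) (x : P → ι → Bool) (v : P) :
    Finset P := univ.filter fun w => Relation.ReflTransGen (Arc lab G x v) v w

def InjOff (lab : P → (ι → Bool) → H) (x : P → ι → Bool) (v : P) : Prop :=
  ∀ u w, u ≠ v → w ≠ v → lab u (x u) = lab w (x w) → u = w

def KS (lab : P → (ι → Bool) → H) (m : ℕ → ℕ) (L : ℕ) (G : P → Finset ι) (x : P → ι → Bool) :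
    Prop :=
  ∀ μ, L ≤ μ → μ ≤ Fintype.card ι → ∀ A ⊆ lev G μ, ∀ T : Finset H, m μ ≤ A.card →
    m μ ≤ T.card → ∃ u ∈ A, ∃ j ∈ T, Sees (lab u) (G u) (x u) j

def KZ (lab : P → (ι → Bool) → H) (m : ℕ → ℕ) (L : ℕ) (Z : P → Finset ι) (x : P → ι → Bool) :
    Prop :=
  ∀ μ, L ≤ μ → μ ≤ Fintype.card ι → ∀ (A : Finset P) (T : Finset H), m μ ≤ A.card →
    m μ ≤ T.card → (∀ u ∈ A, (Z u).card = μ) → ∃ u ∈ A, ¬ Bd (lab u) T (Z u) (x u)

structure Par (lab : P → (ι → Bool) → H) (m : ℕ → ℕ) (L j₀ : ℕ) (x0 : P → ι → Bool) (v0 : P) :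
    Prop where
  hcard : Fintype.card P = Fintype.card H + 1
  hL : 1 ≤ L
  hLl : L ≤ Fintype.card ι
  hanti : Antitone m
  hj : Fintype.card P < 2 ^ j₀
  hbig : (2 * j₀ + 4) * (Fintype.card ι + 1) ≤ m (Fintype.card ι)
  hsum : ∀ μ ≤ Fintype.card ι, ∑ l ∈ Icc μ (Fintype.card ι), m l ≤ 5 * m μ
  hmL : m L + 2 ≤ Fintype.card P
  hinj : InjOff lab x0 v0

def Good (lab : P → (ι → Bool) → H) (j₀ : ℕ) (x0 : P → ι → Bool) (s : St P ι) (K : Finset P) :
    Prop :=
  (∀ k ∈ K, k ∉ s.Ch ∧ k ≠ s.v) ∧ ∀ a ∈ K, ∀ b ∈ K,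
    Wk (fun a b => a ∈ K ∧ b ∈ K ∧ Sees (lab a) (s.Fr a) (x0 a) (lab b (x0 b))) (2 * j₀ + 1) a b

noncomputable def Cen (lab : P → (ι → Bool) → H) (x0 : P → ι → Bool) (s : St P ι)
    (K : Finset P) : Finset P :=
  s.Ch.filter fun u => (s.Z u).Nonempty ∧
    ¬ Bd (lab u) (K.image fun k => lab k (x0 k)) (s.Z u) (x0 u) ∧
    ∃ k ∈ K, Sees (lab k) (s.Fr k) (x0 k) (lab u (x0 u))

def Shut (lab : P → (ι → Bool) → H) (m : ℕ → ℕ) (s : St P ι) (K : Finset P) (e : ℕ) : Prop :=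
  ∃ (D : Finset P) (Hs : Finset H), K ⊆ D ∧
    (∀ a ∈ D, ∀ j, Sees (lab a) (s.Fr a) (s.x a) j → j ∈ Hs) ∧
    (∀ w, lab w (s.x w) ∈ Hs → w ∈ D) ∧ m e ≤ Hsᶜ.card

structure Inv (lab : P → (ι → Bool) → H) (m : ℕ → ℕ) (L j₀ : ℕ) (x0 : P → ι → Bool)
    (s : St P ι) (d : ℕ) : Prop where
  dl : d ≤ Fintype.card ι
  inj : InjOff lab s.x s.v
  unch : ∀ u, u ∉ s.Ch → s.x u = x0 u ∧ s.Z u = s.Fr u
  zc : ∀ u, s.Fr u ⊆ s.Z u ∧ Cube (s.Z u) (s.x u) (x0 u)
  lv : ∀ l, d < l → l ≤ Fintype.card ι → (lev s.Fr l).card < 5 * m l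
  rc : ∃ d', d ≤ d' ∧ L ≤ d' ∧ d' ≤ Fintype.card ι ∧
    m d' ≤ (Rch lab s.Fr s.x s.v ∩ lev s.Fr d').card
  jj : ∀ μ, L ≤ μ → μ ≤ Fintype.card ι →
    (s.Ch ∩ lev s.Z μ).card ≤ 13 * m μ ∨ (lev s.Z μ).card ≤ 21 * m μ
  cen : ∀ K, Good lab j₀ x0 s K → ∃ e ≤ Fintype.card ι + 1,
    (Cen lab x0 s K).card ≤ (2 * j₀ + 4) * (Fintype.card ι + 1 - e) ∧
      (d < e ∨ Shut lab m s K e)

variable {lab : P → (ι → Bool) → H} {m : ℕ → ℕ} {L j₀ : ℕ} {x0 : P → ι → Bool} {v0 : P}

theorem mem_lev {G : P → Finset ι} {l : ℕ} {u : P} : u ∈ lev G l ↔ l ≤ (G u).card := by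
  simp [lev]

theorem mem_Rch {G : P → Finset ι} {x : P → ι → Bool} {v w : P} :
    w ∈ Rch lab G x v ↔ Relation.ReflTransGen (Arc lab G x v) v w := by
  simp [Rch]

theorem lev_mono {G G' : P → Finset ι} (h : ∀ u, G' u ⊆ G u) (l : ℕ) : lev G' l ⊆ lev G l :=
  fun u hu => mem_lev.2 ((mem_lev.1 hu).trans (card_le_card (h u)))

theorem Par.one_le (p : Par lab m L j₀ x0 v0) {μ : ℕ} (h : μ ≤ Fintype.card ι) : 4 ≤ m μ := by
  have h1 := p.hanti h
  have h2 := p.hbig
  nlinarith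

theorem InjOff.card_image {x : P → ι → Bool} {v : P} (h : InjOff lab x v) {B : Finset P}
    (hv : v ∉ B) : (B.image fun w => lab w (x w)).card = B.card :=
  card_image_of_injOn fun a ha b hb hab =>
    h a b (fun e => hv (e ▸ mem_coe.1 ha)) (fun e => hv (e ▸ mem_coe.1 hb)) hab

theorem InjOff.surj {x : P → ι → Bool} {v : P} (h : InjOff lab x v)
    (hc : Fintype.card P = Fintype.card H + 1) (j : H) : ∃ w, w ≠ v ∧ lab w (x w) = j := by
  have h1 := h.card_image (B := univ.erase v) (notMem_erase _ _)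
  rw [card_erase_of_mem (mem_univ _), card_univ, hc, Nat.add_sub_cancel] at h1
  have h2 : j ∈ (univ.erase v).image fun w => lab w (x w) := by
    rw [eq_univ_of_card _ h1]; exact mem_univ _
  obtain ⟨w, hw, rfl⟩ := mem_image.1 h2
  exact ⟨w, (mem_erase.1 hw).1, rfl⟩

/-- Two large sets are joined by an arc. -/
theorem KS.arc {G : P → Finset ι} {x : P → ι → Bool} {v : P} (hk : KS lab m L G x)
    (hi : InjOff lab x v) {μ : ℕ} (h1 : L ≤ μ) (h2 : μ ≤ Fintype.card ι) {A B : Finset P}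
    (hA : A ⊆ lev G μ) (hv : v ∉ B) (hAc : m μ ≤ A.card) (hBc : m μ ≤ B.card) :
    ∃ a ∈ A, ∃ b ∈ B, Arc lab G x v a b := by
  obtain ⟨u, hu, j, hj, hs⟩ := hk μ h1 h2 A hA (B.image fun w => lab w (x w)) hAc
    (by rw [hi.card_image hv]; exact hBc)
  obtain ⟨w, hw, rfl⟩ := mem_image.1 hj
  exact ⟨u, hu, w, hw, fun e => hv (e ▸ hw), hs⟩

theorem KS.compl_lt {G : P → Finset ι} {x : P → ι → Bool} {v : P} (hk : KS lab m L G x)
    (hi : InjOff lab x v) {μ : ℕ} (h1 : L ≤ μ) (h2 : μ ≤ Fintype.card ι) {A S : Finset P}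
    (hA : A ⊆ lev G μ) (hv : v ∈ S) (hAc : m μ ≤ A.card)
    (hcl : ∀ a ∈ A, ∀ b, Arc lab G x v a b → b ∈ S) : Sᶜ.card < m μ := by
  by_contra hn
  obtain ⟨a, ha, b, hb, hab⟩ := hk.arc hi h1 h2 hA (B := Sᶜ) (by simpa using hv) hAc (by omega)
  exact (mem_compl.1 hb) (hcl a ha b hab)

theorem Inv.reach_big {s : St P ι} {d : ℕ} (p : Par lab m L j₀ x0 v0)
    (h : Inv lab m L j₀ x0 s d) (hk : KS lab m L s.Fr s.x) :
    (Rch lab s.Fr s.x s.v)ᶜ.card < m d ∧ (Rch lab s.Fr s.x s.v)ᶜ.card < m L := by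
  obtain ⟨d', h1, h2, h3, h4⟩ := h.rc
  have h5 := hk.compl_lt h.inj h2 h3 (S := Rch lab s.Fr s.x s.v) inter_subset_right
    (mem_Rch.2 .refl) h4 fun a ha b hab => mem_Rch.2 ((mem_Rch.1 (mem_inter.1 ha).1).tail hab)
  exact ⟨h5.trans_le (p.hanti h1), h5.trans_le (p.hanti h2)⟩

/-- While many unchanged blocks have a high level, few blocks were changed at a high level. -/
theorem Inv.cnt {s : St P ι} {d : ℕ} (p : Par lab m L j₀ x0 v0) (h : Inv lab m L j₀ x0 s d)
    (hk : KS lab m L s.Fr s.x) (hz : KZ lab m L s.Z s.x) {μ : ℕ} (h1 : L ≤ μ)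
    (h2 : μ ≤ Fintype.card ι) (hb : 8 * m μ ≤ (lev s.Fr μ \ s.Ch).card) :
    (s.Ch ∩ lev s.Z μ).card ≤ 8 * m μ := by
  have hm := p.one_le h2
  set V := (lev s.Fr μ \ s.Ch).erase s.v with hV
  have hVc : 7 * m μ ≤ V.card := by
    have := pred_card_le_card_erase (s := lev s.Fr μ \ s.Ch) (a := s.v)
    rw [← hV] at this
    omega
  have hVm : ∀ a ∈ V, a ≠ s.v ∧ a ∈ lev s.Fr μ ∧ a ∉ s.Ch := fun a ha =>
    ⟨(mem_erase.1 ha).1, mem_sdiff.1 (mem_erase.1 ha).2⟩
  obtain ⟨K, hKV, hKc, hK⟩ := exists_core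
    (fun a b => Sees (lab a) (s.Fr a) (x0 a) (lab b (x0 b))) V (m μ) j₀ (by omega)
    (by have := card_le_univ V; have := p.hj; omega) hVc fun A hA B hB hAc hBc => by
      obtain ⟨a, ha, b, hb, hab⟩ := hk.arc h.inj h1 h2 (fun a ha => (hVm a (hA ha)).2.1)
        (fun hv => (hVm _ (hB hv)).1 rfl) hAc hBc
      refine ⟨a, ha, b, hb, ?_⟩
      rw [← (h.unch a (hVm a (hA ha)).2.2).1, ← (h.unch b (hVm b (hB hb)).2.2).1]
      exact hab.2
  obtain ⟨e, -, hcen, -⟩ := h.cen K ⟨fun k hk => ⟨(hVm k (hKV hk)).2.2, (hVm k (hKV hk)).1⟩, hK⟩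
  have hcen' : (Cen lab x0 s K).card ≤ m μ :=
    hcen.trans ((Nat.mul_le_mul_left _ (Nat.sub_le _ _)).trans (p.hbig.trans (p.hanti h2)))
  set T := K.image fun k => lab k (x0 k) with hT
  have hTc : m μ ≤ T.card := by
    have h3 : T = K.image fun k => lab k (s.x k) :=
      image_congr fun k hk => by rw [(h.unch k (hVm k (hKV (mem_coe.1 hk))).2.2).1]
    rw [h3, h.inj.card_image fun hv => (hVm _ (hKV hv)).1 rfl]
    exact hKc
  set Poor := (Icc μ (Fintype.card ι)).biUnion fun l =>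
    univ.filter fun u => (s.Z u).card = l ∧ Bd (lab u) T (s.Z u) (x0 u) with hPoor
  have hP : Poor.card ≤ 5 * m μ := by
    refine card_biUnion_le.trans (le_trans (sum_le_sum fun l hl => ?_) (p.hsum μ h2))
    by_contra hn
    obtain ⟨l1, l2⟩ := mem_Icc.1 hl
    obtain ⟨u, hu, hu'⟩ := hz l (h1.trans l1) l2 _ T (not_le.1 hn).le
      ((p.hanti l1).trans hTc) fun u hu => (mem_filter.1 hu).2.1
    exact hu' ((mem_filter.1 hu).2.2.congr (h.zc u).2.symm)
  set Rare := univ.filter fun u => u ≠ v0 ∧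
    ¬ ∃ k ∈ K, Sees (lab k) (s.Fr k) (x0 k) (lab u (x0 u)) with hRare
  have hR : Rare.card < m μ := by
    by_contra hn
    obtain ⟨k, hk1, j, hj, hs⟩ := hk μ h1 h2 K (fun a ha => (hVm a (hKV ha)).2.1)
      (Rare.image fun w => lab w (x0 w)) hKc
      (by rw [p.hinj.card_image (by simp [hRare])]; omega)
    obtain ⟨w, hw, rfl⟩ := mem_image.1 hj
    rw [(h.unch k (hVm k (hKV hk1)).2.2).1] at hs
    exact (mem_filter.1 hw).2.2 ⟨k, hk1, hs⟩
  have hsub : s.Ch ∩ lev s.Z μ ⊆ insert v0 ((Poor ∪ Rare) ∪ Cen lab x0 s K) := by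
    intro u hu
    obtain ⟨u1, u2⟩ := mem_inter.1 hu
    rw [mem_lev] at u2
    by_contra hn
    simp only [mem_insert, mem_union, not_or] at hn
    obtain ⟨n1, ⟨n2, n3⟩, n4⟩ := hn
    refine n4 (mem_filter.2 ⟨u1, card_pos.1 (by have := p.hL; omega), fun hb => n2 ?_, ?_⟩)
    · exact mem_biUnion.2 ⟨_, mem_Icc.2 ⟨u2, card_le_univ _⟩, mem_filter.2 ⟨mem_univ _, rfl, hb⟩⟩
    · by_contra hc
      exact n3 (mem_filter.2 ⟨mem_univ _, n1, hc⟩)
  have h3 := (card_le_card hsub).trans (card_insert_le _ _)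
  have h4 := card_union_le (Poor ∪ Rare) (Cen lab x0 s K)
  have h5 := card_union_le Poor Rare
  omega

/-- Lowering the level. -/
theorem Inv.lower {s : St P ι} (hL : 1 ≤ L) : ∀ {d : ℕ}, Inv lab m L j₀ x0 s d →
    ∃ d', Inv lab m L j₀ x0 s d' ∧ (d' < L ∨ (L ≤ d' ∧ 5 * m d' ≤ (lev s.Fr d').card)) := by
  intro d
  induction d with
  | zero => exact fun h => ⟨0, h, Or.inl hL⟩
  | succ d ih =>
    intro h
    by_cases h1 : d + 1 < L
    · exact ⟨_, h, Or.inl h1⟩
    by_cases h2 : 5 * m (d + 1) ≤ (lev s.Fr (d + 1)).card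
    · exact ⟨_, h, Or.inr ⟨by omega, h2⟩⟩
    refine ih ⟨by have := h.dl; omega, h.inj, h.unch, h.zc, fun l l1 l2 => ?_, ?_, h.jj,
      fun K hK => ?_⟩
    · by_cases hl : l = d + 1
      · rw [hl]; omega
      · exact h.lv l (by omega) l2
    · obtain ⟨d', r1, r2⟩ := h.rc
      exact ⟨d', by omega, r2⟩
    · obtain ⟨e, e1, e2, e3⟩ := h.cen K hK
      exact ⟨e, e1, e2, e3.imp (by omega) id⟩

theorem sum_le_levels (f : P → ℕ) (l L : ℕ) (hf : ∀ u, f u ≤ l) :
    ∑ u, f u ≤ L * Fintype.card P +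
      ∑ μ ∈ Icc L l, (univ.filter fun u => μ ≤ f u).card := by
  have h1 : ∀ u, f u ≤ L + ∑ μ ∈ Icc L l, if μ ≤ f u then 1 else 0 := by
    intro u
    rw [← card_filter]
    have h2 : Icc L (f u) ⊆ (Icc L l).filter fun μ => μ ≤ f u := fun μ hμ =>
      mem_filter.2 ⟨mem_Icc.2 ⟨(mem_Icc.1 hμ).1, (mem_Icc.1 hμ).2.trans (hf u)⟩,
        (mem_Icc.1 hμ).2⟩
    have h3 := card_le_card h2
    rw [Nat.card_Icc] at h3
    omega
  refine (sum_le_sum fun u _ => h1 u).trans ?_
  rw [sum_add_distrib, sum_const, card_univ, smul_eq_mul, mul_comm, sum_comm]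
  simp only [card_filter]
  exact le_rfl

end Pool.Agent.P.MP_0f6e60_lc.T
end

-- part Pool.Agent.P.MP_0f6e60_lc.TStep
section

/-! Tree-like lower bound: one step of the adversary (common part, default step, choice of the
new homeless block). -/

namespace Pool.Agent.P.MP_0f6e60_lc.T

open Finset Classical

variable {P H ι : Type} [Fintype P] [Fintype H] [Fintype ι]
  [DecidableEq P] [DecidableEq H] [DecidableEq ι]
variable {lab : P → (ι → Bool) → H} {m : ℕ → ℕ} {L j₀ : ℕ} {x0 : P → ι → Bool} {v0 : P}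

/-- The next state: new free sets `G`, new point `x'`, new homeless block `v'`, moved blocks
`Pa`. -/
noncomputable def nxt (s : St P ι) (G : P → Finset ι) (x' : P → ι → Bool) (v' : P)
    (Pa : Finset P) : St P ι :=
  ⟨G, x', v', s.Ch ∪ Pa, fun u => if u ∈ s.Ch ∪ Pa then s.Z u else G u⟩

/-- `G` arises from `Fr` by a query to bit `i` of block `y`. -/
structure Qry (Fr G : P → Finset ι) (y : P) (i : ι) : Prop where
  sub : ∀ u, G u ⊆ Fr u
  ne : ∀ u, u ≠ y → G u = Fr u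
  er : (Fr y).erase i ⊆ G y

theorem Qry.lev_sub {Fr G : P → Finset ι} {y : P} {i : ι} (h : Qry Fr G y i) (l : ℕ) :
    lev Fr l ⊆ insert y (lev G l) := by
  intro u hu
  by_cases hy : u = y
  · rw [hy]; exact mem_insert_self _ _
  · exact mem_insert_of_mem (mem_lev.2 (by rw [h.ne u hy]; exact mem_lev.1 hu))

theorem Qry.sees {Fr G : P → Finset ι} {y : P} {i : ι} (h : Qry Fr G y i) {u : P}
    {g : (ι → Bool) → H} {T : Finset H} {a : ι → Bool} (hb : ¬ Bd g T (Fr u) a)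
    (hne : (Fr u).Nonempty) : ∃ j ∈ T, Sees g (G u) a j := by
  obtain ⟨i0, hi0⟩ := hne
  by_cases hy : u = y
  · subst hy
    by_cases hi : i ∈ Fr u
    · obtain ⟨j, hj, hs⟩ := sees_of_not_bd hb hi
      exact ⟨j, hj, hs.mono h.er⟩
    · obtain ⟨j, hj, hs⟩ := sees_of_not_bd hb hi0
      refine ⟨j, hj, hs.mono ((erase_subset _ _).trans ?_)⟩
      have := h.er
      rwa [erase_eq_of_notMem hi] at this
  · obtain ⟨j, hj, hs⟩ := sees_of_not_bd hb hi0
    exact ⟨j, hj, hs.mono (by rw [h.ne u hy]; exact erase_subset _ _)⟩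

theorem Good.back {s : St P ι} {G : P → Finset ι} {x' : P → ι → Bool} {v' : P} {Pa K : Finset P}
    (hs : ∀ u, G u ⊆ s.Fr u) (hv : s.v ∈ Pa ∨ v' = s.v)
    (h : Good lab j₀ x0 (nxt s G x' v' Pa) K) : Good lab j₀ x0 s K := by
  refine ⟨fun k hk => ⟨fun hc => (h.1 k hk).1 (mem_union_left _ hc), fun e => ?_⟩,
    fun a ha b hb => Wk.mono (fun a b hab => ⟨hab.1, hab.2.1, hab.2.2.mono (hs a)⟩)
      (h.2 a ha b hb)⟩
  rcases hv with hv | hv
  · exact (h.1 k hk).1 (mem_union_right _ (e ▸ hv))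
  · exact (h.1 k hk).2 (e.trans hv.symm)

theorem cen_nxt {s : St P ι} {G : P → Finset ι} {x' : P → ι → Bool} {v' : P} {Pa K : Finset P}
    (hs : ∀ u, G u ⊆ s.Fr u) :
    (Cen lab x0 (nxt s G x' v' Pa) K).card ≤
      (Cen lab x0 s K).card + (Cen lab x0 (nxt s G x' v' Pa) K \ s.Ch).card := by
  refine le_trans (card_le_card fun u hu => ?_) (card_union_le _ _)
  by_cases hc : u ∈ s.Ch
  · obtain ⟨-, h1, h2, k, hk, h3⟩ := mem_filter.1 hu
    simp only [nxt, mem_union, hc, true_or, if_true] at h1 h2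
    exact mem_union_left _ (mem_filter.2 ⟨hc, h1, h2, k, hk, Sees.mono h3 (hs k)⟩)
  · exact mem_union_right _ (mem_sdiff.2 ⟨hu, hc⟩)

theorem Inv.step {s : St P ι} {d : ℕ} (p : Par lab m L j₀ x0 v0) (h : Inv lab m L j₀ x0 s d)
    (hk : KS lab m L s.Fr s.x) (hz : KZ lab m L s.Z s.x) {G : P → Finset ι}
    {x' : P → ι → Bool} {v' : P} {Pa : Finset P} (hs : ∀ u, G u ⊆ s.Fr u)
    (hx : ∀ u, Cube (s.Fr u) (s.x u) (x' u)) (hx' : ∀ u, u ∉ Pa → x' u = s.x u)
    (hPa : ∀ μ, L ≤ μ → μ ≤ Fintype.card ι → (Pa ∩ lev s.Fr μ).card ≤ 5 * m μ)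
    (hd : L ≤ d) (hinj : InjOff lab x' v') (hrc : m d ≤ (Rch lab G x' v' ∩ lev G d).card)
    (hcen : ∀ K, Good lab j₀ x0 (nxt s G x' v' Pa) K → ∃ e ≤ Fintype.card ι + 1,
      (Cen lab x0 (nxt s G x' v' Pa) K).card ≤ (2 * j₀ + 4) * (Fintype.card ι + 1 - e) ∧
      (d < e ∨ Shut lab m (nxt s G x' v' Pa) K e)) :
    Inv lab m L j₀ x0 (nxt s G x' v' Pa) d := by
  have hZ : ∀ u, (nxt s G x' v' Pa).Z u ⊆ s.Z u := fun u => by
    simp only [nxt]
    split_ifs
    · exact Subset.refl _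
    · exact (hs u).trans (h.zc u).1
  refine ⟨h.dl, hinj, fun u hu => ?_, fun u => ?_, fun l l1 l2 => ?_,
    ⟨d, le_rfl, hd, h.dl, hrc⟩, fun μ h1 h2 => ?_, hcen⟩
  · have hu' : u ∉ s.Ch ∪ Pa := hu
    refine ⟨?_, by simp only [nxt]; rw [if_neg hu']⟩
    rw [mem_union, not_or] at hu'
    exact (hx' u hu'.2).trans (h.unch u hu'.1).1
  · by_cases hu : u ∈ s.Ch ∪ Pa
    · simp only [nxt]
      rw [if_pos hu]
      exact ⟨(hs u).trans (h.zc u).1, ((hx u).mono (h.zc u).1).symm.trans (h.zc u).2⟩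
    · simp only [nxt]
      rw [if_neg hu]
      rw [mem_union, not_or] at hu
      rw [hx' u hu.2, (h.unch u hu.1).1]
      exact ⟨Subset.refl _, Cube.refl _ _⟩
  · exact (card_le_card (lev_mono hs l)).trans_lt (h.lv l l1 l2)
  · by_cases hb : 8 * m μ ≤ (lev s.Fr μ \ s.Ch).card
    · left
      have h3 := h.cnt p hk hz h1 h2 hb
      have h4 := hPa μ h1 h2
      have h5 : (nxt s G x' v' Pa).Ch ∩ lev (nxt s G x' v' Pa).Z μ ⊆
          (s.Ch ∩ lev s.Z μ) ∪ (Pa ∩ lev s.Fr μ) := by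
        intro u hu
        obtain ⟨u1, u2⟩ := mem_inter.1 hu
        have u3 := lev_mono hZ μ u2
        by_cases hc : u ∈ s.Ch
        · exact mem_union_left _ (mem_inter.2 ⟨hc, u3⟩)
        · refine mem_union_right _ (mem_inter.2 ⟨(mem_union.1 u1).resolve_left hc, ?_⟩)
          rw [mem_lev, ← (h.unch u hc).2]
          exact mem_lev.1 u3
      have h6 := (card_le_card h5).trans (card_union_le _ _)
      omega
    · right
      refine (card_le_card (lev_mono hZ μ)).trans ?_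
      rcases h.jj μ h1 h2 with h3 | h3
      · have h5 : lev s.Z μ ⊆ (s.Ch ∩ lev s.Z μ) ∪ (lev s.Fr μ \ s.Ch) := by
          intro u hu
          by_cases hc : u ∈ s.Ch
          · exact mem_union_left _ (mem_inter.2 ⟨hc, hu⟩)
          · refine mem_union_right _ (mem_sdiff.2 ⟨?_, hc⟩)
            rw [mem_lev, ← (h.unch u hc).2]
            exact mem_lev.1 hu
        have h6 := (card_le_card h5).trans (card_union_le _ _)
        omega
      · exact h3

theorem Inv.step_keep {s : St P ι} {d : ℕ} (p : Par lab m L j₀ x0 v0)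
    (h : Inv lab m L j₀ x0 s d) (hk : KS lab m L s.Fr s.x) (hz : KZ lab m L s.Z s.x)
    {G : P → Finset ι} (hs : ∀ u, G u ⊆ s.Fr u) (hd : L ≤ d)
    (hrc : m d ≤ (Rch lab G s.x s.v ∩ lev G d).card) :
    Inv lab m L j₀ x0 (nxt s G s.x s.v ∅) d := by
  refine h.step p hk hz hs (fun u => Cube.refl _ _) (fun _ _ => rfl) (fun μ _ _ => by simp) hd
    h.inj hrc fun K hK => ?_
  obtain ⟨e, e1, e2, e3⟩ := h.cen K (hK.back hs (Or.inr rfl))
  refine ⟨e, e1, ?_, e3.imp id fun ⟨D, Hs, d1, d2, d3, d4⟩ =>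
    ⟨D, Hs, d1, fun a ha j hj => d2 a ha j (Sees.mono hj (hs a)), d3, d4⟩⟩
  have h1 := cen_nxt (lab := lab) (x0 := x0) (x' := s.x) (v' := s.v) (Pa := ∅) (K := K) hs
  have h2 : Cen lab x0 (nxt s G s.x s.v ∅) K \ s.Ch = ∅ :=
    sdiff_eq_empty_iff_subset.2 fun u hu => by simpa [nxt] using (mem_filter.1 hu).1
  rw [h2] at h1
  exact h1.trans e2

/-- Reach outside `S`. -/
noncomputable def Cs (lab : P → (ι → Bool) → H) (G : P → Finset ι) (x : P → ι → Bool) (v : P)
    (S : Finset P) (u : P) : Finset P :=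
  univ.filter fun w => Relation.ReflTransGen (fun a b => b ∉ S ∧ Arc lab G x v a b) u w

theorem Inv.exists_new {s : St P ι} {d : ℕ} (p : Par lab m L j₀ x0 v0)
    (h : Inv lab m L j₀ x0 s d) (hk : KS lab m L s.Fr s.x) {G : P → Finset ι} {y : P} {i : ι}
    (hq : Qry s.Fr G y i) (hk' : KS lab m L G s.x) (hd : L ≤ d)
    (hF : 5 * m d ≤ (lev s.Fr d).card) (hS : (Rch lab G s.x s.v ∩ lev G d).card < m d) :
    y ∈ Rch lab G s.x s.v ∧ ∃ u', u' ∉ Rch lab G s.x s.v ∧ Arc lab s.Fr s.x s.v y u' ∧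
      m d ≤ (Cs lab G s.x s.v (Rch lab G s.x s.v) u' ∩ lev G d).card := by
  set S := Rch lab G s.x s.v with hSd
  have hm := p.one_le h.dl
  have hR := (h.reach_big p hk).1
  have hG : 5 * m d ≤ (lev G d).card + 1 :=
    hF.trans ((card_le_card (hq.lev_sub d)).trans (card_insert_le _ _))
  have harc : ∀ a b, a ≠ y → Arc lab s.Fr s.x s.v a b → Arc lab G s.x s.v a b :=
    fun a b ha hab => ⟨hab.1, by rw [hq.ne a ha]; exact hab.2⟩
  have hScl : ∀ a ∈ S, ∀ b, Arc lab G s.x s.v a b → b ∈ S := fun a ha b hab =>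
    mem_Rch.2 ((mem_Rch.1 ha).tail hab)
  constructor
  · by_contra hy
    have h1 : Rch lab s.Fr s.x s.v ⊆ S := fun w hw => by
      have hw' := mem_Rch.1 hw
      clear hw
      induction hw' with
      | refl => exact mem_Rch.2 .refl
      | tail _ h2 ih => exact hScl _ ih _ (harc _ _ (fun e => hy (e ▸ ih)) h2)
    have h2 : lev G d ⊆ (S ∩ lev G d) ∪ (Rch lab s.Fr s.x s.v)ᶜ := fun w hw => by
      by_cases h3 : w ∈ Rch lab s.Fr s.x s.v
      · exact mem_union_left _ (mem_inter.2 ⟨h1 h3, hw⟩)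
      · exact mem_union_right _ (mem_compl.2 h3)
    have h3 := (card_le_card h2).trans (card_union_le _ _)
    omega
  by_contra hn
  push Not at hn
  set U := univ.filter fun u' => u' ∉ S ∧ Arc lab s.Fr s.x s.v y u' with hU
  have h1 : ∀ w, Relation.ReflTransGen (Arc lab s.Fr s.x s.v) s.v w →
      w ∈ S ∨ ∃ u' ∈ U, w ∈ Cs lab G s.x s.v S u' := by
    intro w hw
    induction hw with
    | refl => exact Or.inl (mem_Rch.2 .refl)
    | @tail a b _ h2 ih =>
      by_cases hb : b ∈ S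
      · exact Or.inl hb
      right
      by_cases ha : a = y
      · exact ⟨b, mem_filter.2 ⟨mem_univ _, hb, ha ▸ h2⟩, mem_filter.2 ⟨mem_univ _, .refl⟩⟩
      rcases ih with ih | ⟨u', hu', ih⟩
      · exact absurd (hScl a ih b (harc a b ha h2)) hb
      · exact ⟨u', hu', mem_filter.2 ⟨mem_univ _, (mem_filter.1 ih).2.tail ⟨hb, harc a b ha h2⟩⟩⟩
  have h2 : lev G d ⊆ ((S ∩ lev G d) ∪ (Rch lab s.Fr s.x s.v)ᶜ) ∪
      U.biUnion fun u' => Cs lab G s.x s.v S u' ∩ lev G d := fun w hw => by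
    by_cases h3 : w ∈ Rch lab s.Fr s.x s.v
    · rcases h1 w (mem_Rch.1 h3) with h4 | ⟨u', hu', h4⟩
      · exact mem_union_left _ (mem_union_left _ (mem_inter.2 ⟨h4, hw⟩))
      · exact mem_union_right _ (mem_biUnion.2 ⟨u', hu', mem_inter.2 ⟨h4, hw⟩⟩)
    · exact mem_union_left _ (mem_union_right _ (mem_compl.2 h3))
  have h3 := (card_le_card h2).trans (card_union_le _ _)
  have h4 := card_union_le (S ∩ lev G d) (Rch lab s.Fr s.x s.v)ᶜ
  obtain ⟨U', u1, u2, u3⟩ := accumulate (fun u' => Cs lab G s.x s.v S u' ∩ lev G d) (m d)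
    (by omega) U (fun u hu => hn u (mem_filter.1 hu).2.1 (mem_filter.1 hu).2.2) (by omega)
  have h5 := hk'.compl_lt h.inj hd h.dl (S := S ∪ U'.biUnion (Cs lab G s.x s.v S))
    (A := U'.biUnion fun u' => Cs lab G s.x s.v S u' ∩ lev G d)
    (biUnion_subset.2 fun _ _ => inter_subset_right) (mem_union_left _ (mem_Rch.2 .refl)) u2
    fun a ha b hab => by
      obtain ⟨u', hu', ha'⟩ := mem_biUnion.1 ha
      by_cases hb : b ∈ S
      · exact mem_union_left _ hb
      · exact mem_union_right _ (mem_biUnion.2 ⟨u', hu', mem_filter.2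
          ⟨mem_univ _, (mem_filter.1 (mem_inter.1 ha').1).2.tail ⟨hb, hab⟩⟩⟩)
  have h6 : lev G d ⊆ ((S ∩ lev G d) ∪ (S ∪ U'.biUnion (Cs lab G s.x s.v S))ᶜ) ∪
      U'.biUnion fun u' => Cs lab G s.x s.v S u' ∩ lev G d := fun w hw => by
    by_cases h7 : w ∈ S ∪ U'.biUnion (Cs lab G s.x s.v S)
    · rcases mem_union.1 h7 with h8 | h8
      · exact mem_union_left _ (mem_union_left _ (mem_inter.2 ⟨h8, hw⟩))
      · obtain ⟨u', hu', h9⟩ := mem_biUnion.1 h8
        exact mem_union_right _ (mem_biUnion.2 ⟨u', hu', mem_inter.2 ⟨h9, hw⟩⟩)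
    · exact mem_union_left _ (mem_union_right _ (mem_compl.2 h7))
  have h7 := (card_le_card h6).trans (card_union_le _ _)
  have h8 := card_union_le (S ∩ lev G d) (S ∪ U'.biUnion (Cs lab G s.x s.v S))ᶜ
  omega

end Pool.Agent.P.MP_0f6e60_lc.T
end

-- part Pool.Agent.P.MP_0f6e60_lc.TDev
section

/-! Tree-like lower bound: the deviation step of the adversary. -/

namespace Pool.Agent.P.MP_0f6e60_lc.T

open Finset Classical

variable {P H ι : Type} [Fintype P] [Fintype H] [Fintype ι]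
  [DecidableEq P] [DecidableEq H] [DecidableEq ι]
variable {lab : P → (ι → Bool) → H} {m : ℕ → ℕ} {L j₀ : ℕ} {x0 : P → ι → Bool} {v0 : P}

/-- Data of a shift along a shortest path `Pa` from the homeless block to `y`. -/
structure Shift (lab : P → (ι → Bool) → H) (s : St P ι) (G : P → Finset ι) (y u' : P)
    (Pa : Finset P) (δ : P → ℕ) (σ : P → P) (x' : P → ι → Bool) : Prop where
  hv : s.v ∈ Pa
  hy : y ∈ Pa
  d0 : δ s.v = 0
  sub : Pa ⊆ Rch lab G s.x s.v
  dinj : Set.InjOn δ Pa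
  dw : ∀ a ∈ Pa, ∀ b n, Wk (Arc lab G s.x s.v) n a b → δ b ≤ δ a + n
  toy : ∀ a ∈ Pa, Relation.ReflTransGen (Arc lab G s.x s.v) a y
  sv : ∀ a ∈ Pa, σ a ≠ s.v
  sm : ∀ a ∈ Pa, a ≠ y → σ a ∈ Pa
  sy : σ y = u'
  sinj : Set.InjOn σ Pa
  cube : ∀ u, Cube (s.Fr u) (s.x u) (x' u)
  off : ∀ u, u ∉ Pa → x' u = s.x u
  lb : ∀ a ∈ Pa, lab a (x' a) = lab (σ a) (s.x (σ a))

theorem exists_shift {s : St P ι} {G : P → Finset ι} {y u' : P} (hs : ∀ u, G u ⊆ s.Fr u)
    (hy : y ∈ Rch lab G s.x s.v) (hu : u' ∉ Rch lab G s.x s.v)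
    (ha : Arc lab s.Fr s.x s.v y u') : ∃ Pa δ σ x', Shift lab s G y u' Pa δ σ x' := by
  obtain ⟨Pa, δ, σ0, p1, p2, p3, p4, p5, p6, p7, p8⟩ := exists_path _ _ _ (mem_Rch.1 hy)
  have hsub : Pa ⊆ Rch lab G s.x s.v := fun a ha => mem_Rch.2 (p4 a ha)
  have harc : ∀ a ∈ Pa, Arc lab s.Fr s.x s.v a (Function.update σ0 y u' a) := by
    intro a ha'
    by_cases h : a = y
    · rw [h, Function.update_self]; exact ha
    · rw [Function.update_of_ne h]
      exact ⟨(p7 a ha' h).2.1.1, (p7 a ha' h).2.1.2.mono (hs a)⟩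
  choose c hc using fun a ha => (harc a ha).2
  refine ⟨Pa, δ, Function.update σ0 y u', fun a => if h : a ∈ Pa then c a h else s.x a,
    p1, p2, p3, hsub, p5, p6, p8, fun a ha => (harc a ha).1, fun a ha h => ?_,
    Function.update_self _ _ _, fun a ha b hb hab => ?_, fun u => ?_, fun u hu => dif_neg hu,
    fun a ha => ?_⟩
  · rw [Function.update_of_ne h]; exact (p7 a ha h).1
  · by_cases h1 : a = y <;> by_cases h2 : b = y
    · rw [h1, h2]
    · rw [h1, Function.update_self, Function.update_of_ne h2] at hab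
      exact absurd (hsub (hab ▸ (p7 b hb h2).1)) hu
    · rw [h2, Function.update_self, Function.update_of_ne h1] at hab
      exact absurd (hsub (hab ▸ (p7 a ha h1).1)) hu
    · rw [Function.update_of_ne h1, Function.update_of_ne h2] at hab
      have h3 := (p7 a ha h1).2.2
      have h4 := (p7 b hb h2).2.2
      rw [hab] at h3
      exact p5 ha hb (by omega)
  · by_cases h : u ∈ Pa
    · simp only [dif_pos h]; exact (hc u h).1
    · simp only [dif_neg h]; exact Cube.refl _ _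
  · simp only [dif_pos ha]; exact (hc a ha).2

section Shift

variable {s : St P ι} {G : P → Finset ι} {y u' : P} {Pa : Finset P} {δ : P → ℕ} {σ : P → P}
  {x' : P → ι → Bool}

theorem Shift.sm' (t : Shift lab s G y u' Pa δ σ x') {a : P} (ha : a ∈ Pa) :
    σ a ∈ Pa ∨ σ a = u' := by
  by_cases h : a = y
  · exact Or.inr (h ▸ t.sy)
  · exact Or.inl (t.sm a ha h)

theorem Shift.inj (t : Shift lab s G y u' Pa δ σ x') (hi : InjOff lab s.x s.v) :
    InjOff lab x' u' := by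
  have key : ∀ a b, a ∈ Pa → b ∉ Pa → b ≠ u' → lab a (x' a) ≠ lab b (x' b) := by
    intro a b ha hb hb' h
    rw [t.lb a ha, t.off b hb] at h
    have h1 := hi _ b (t.sv a ha) (fun e => hb (e ▸ t.hv)) h
    rcases t.sm' ha with h2 | h2
    · exact hb (h1 ▸ h2)
    · exact hb' (h1 ▸ h2)
  intro a b ha hb h
  by_cases h1 : a ∈ Pa <;> by_cases h2 : b ∈ Pa
  · rw [t.lb a h1, t.lb b h2] at h
    exact t.sinj h1 h2 (hi _ _ (t.sv a h1) (t.sv b h2) h)
  · exact absurd h (key a b h1 h2 hb)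
  · exact absurd h.symm (key b a h2 h1 ha)
  · rw [t.off a h1, t.off b h2] at h
    exact hi _ _ (fun e => h1 (e ▸ t.hv)) (fun e => h2 (e ▸ t.hv)) h

theorem Shift.reach (t : Shift lab s G y u' Pa δ σ x') (hu : u' ∉ Rch lab G s.x s.v) :
    Cs lab G s.x s.v (Rch lab G s.x s.v) u' ⊆ Rch lab G x' u' := by
  intro w hw
  have hw' := (mem_filter.1 hw).2
  clear hw
  suffices h : w ∉ Rch lab G s.x s.v ∧ w ∈ Rch lab G x' u' from h.2
  induction hw' with
  | refl => exact ⟨hu, mem_Rch.2 .refl⟩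
  | @tail a b _ h2 ih =>
    refine ⟨h2.1, ?_⟩
    by_cases hb : b = u'
    · rw [hb]; exact mem_Rch.2 .refl
    refine mem_Rch.2 ((mem_Rch.1 ih.2).tail ⟨hb, ?_⟩)
    rw [t.off a fun h => ih.1 (t.sub h), t.off b fun h => h2.1 (t.sub h)]
    exact h2.2.2

theorem Shift.few (t : Shift lab s G y u' Pa δ σ x') (p : Par lab m L j₀ x0 v0)
    (hi : InjOff lab s.x s.v) {i : ι} (hq : Qry s.Fr G y i) (hk' : KS lab m L G s.x)
    (μ : ℕ) (h1 : L ≤ μ) (h2 : μ ≤ Fintype.card ι) : (Pa ∩ lev s.Fr μ).card ≤ 5 * m μ := by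
  have hm := p.one_le h2
  have h3 : Pa ∩ lev s.Fr μ ⊆ insert y (Pa ∩ lev G μ) := fun a ha => by
    rcases mem_insert.1 (hq.lev_sub μ (mem_inter.1 ha).2) with h | h
    · exact mem_insert.2 (Or.inl h)
    · exact mem_insert_of_mem (mem_inter.2 ⟨(mem_inter.1 ha).1, h⟩)
  have h4 := (card_le_card h3).trans (card_insert_le _ _)
  by_contra hn
  obtain ⟨A, hA, B, hB, a1, a2, a3⟩ := exists_gap (Pa ∩ lev G μ) δ
    (t.dinj.mono (coe_subset.2 inter_subset_left)) (m μ) (by omega) (by omega)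
  obtain ⟨a0, ha0⟩ : A.Nonempty := card_pos.1 (by omega)
  obtain ⟨a, ha, b, hb, hab⟩ := hk'.arc hi h1 h2 (hA.trans inter_subset_right) (B := B)
    (fun hv => by have := a3 a0 ha0 _ hv; have := t.d0; omega) a1 a2
  have h5 := t.dw a (mem_inter.1 (hA ha)).1 b 1 (Wk.single hab)
  have := a3 a ha b hb
  omega

end Shift

theorem Inv.step_dev {s : St P ι} {d : ℕ} (p : Par lab m L j₀ x0 v0)
    (h : Inv lab m L j₀ x0 s d) (hk : KS lab m L s.Fr s.x) (hz : KZ lab m L s.Z s.x)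
    {G : P → Finset ι} {y : P} {i : ι}
    (hq : Qry s.Fr G y i) (hk' : KS lab m L G s.x) (hd : L ≤ d)
    (hF : 5 * m d ≤ (lev s.Fr d).card) (hS : (Rch lab G s.x s.v ∩ lev G d).card < m d) :
    ∃ x' v' Pa, (∀ u, Cube (s.Fr u) (s.x u) (x' u)) ∧
      Inv lab m L j₀ x0 (nxt s G x' v' Pa) d := by
  obtain ⟨hy, u', hu, ha, hC⟩ := h.exists_new p hk hq hk' hd hF hS
  obtain ⟨Pa, δ, σ, x', t⟩ := exists_shift hq.sub hy hu ha
  set S := Rch lab G s.x s.v with hSd
  have hm := p.one_le h.dl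
  refine ⟨x', u', Pa, t.cube, h.step p hk hz hq.sub t.cube t.off (t.few p h.inj hq hk') hd
    (t.inj h.inj) (hC.trans (card_le_card (inter_subset_inter_right (t.reach hu))))
    fun K hK => ?_⟩
  obtain ⟨e, e1, e2, e3⟩ := h.cen K (hK.back hq.sub (Or.inl t.hv))
  have hc := cen_nxt (lab := lab) (x0 := x0) (x' := x') (v' := u') (Pa := Pa) (K := K) hq.sub
  have hKP : ∀ k ∈ K, k ∉ s.Ch ∧ k ∉ Pa := fun k hk => by
    have := (hK.1 k hk).1
    simpa [nxt] using this
  have hKx : ∀ k ∈ K, s.x k = x0 k := fun k hk => (h.unch k (hKP k hk).1).1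
  have hKv : ∀ k ∈ K, k ≠ s.v := fun k hk e => (hKP k hk).2 (e ▸ t.hv)
  have hKw : ∀ a ∈ K, ∀ b ∈ K, Wk (Arc lab G s.x s.v) (2 * j₀ + 1) a b := fun a ha b hb =>
    Wk.mono (fun a b hab => ⟨hKv b hab.2.1, by
      rw [hKx a hab.1, hKx b hab.2.1]; exact hab.2.2⟩) (hK.2 a ha b hb)
  have hfr : ∀ b ∈ Cen lab x0 (nxt s G x' u' Pa) K \ s.Ch, b ∈ Pa ∧
      (∃ k ∈ K, Arc lab G s.x s.v b k) ∧
      ∃ k ∈ K, Sees (lab k) (G k) (s.x k) (lab b (s.x b)) := by
    intro b hb
    obtain ⟨b1, b2⟩ := mem_sdiff.1 hb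
    obtain ⟨b3, b4, b5, k, hk1, b6⟩ := mem_filter.1 b1
    have b3' : b ∈ s.Ch ∪ Pa := b3
    simp only [nxt] at b4 b5 b6
    rw [if_pos b3', (h.unch b b2).2] at b4 b5
    rw [← (h.unch b b2).1] at b5 b6
    obtain ⟨j, hj, hs⟩ := hq.sees b5 b4
    obtain ⟨k', hk2, rfl⟩ := mem_image.1 hj
    refine ⟨(mem_union.1 b3').resolve_left b2, ⟨k', hk2, hKv k' hk2, ?_⟩, k, hk1, ?_⟩
    · rw [hKx k' hk2]; exact hs
    · rw [hKx k hk1]; exact b6
  have hold : d < e ∨ (Shut lab m (nxt s G x' u' Pa) K e ∧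
      Cen lab x0 (nxt s G x' u' Pa) K \ s.Ch = ∅) := by
    rcases e3 with e3 | ⟨D, Hs, d1, d2, d3, d4⟩
    · exact Or.inl e3
    have hcl : ∀ a ∈ D, ∀ b, Arc lab G s.x s.v a b → b ∈ D := fun a ha b hab =>
      d3 b (d2 a ha _ (hab.2.mono (hq.sub a)))
    by_cases hD : u' ∈ D
    · left
      by_contra hn
      obtain ⟨a, ha', j, hj, hs⟩ := hk' d hd h.dl _ inter_subset_right Hsᶜ hC
        ((p.hanti (not_lt.1 hn)).trans d4)
      have haD : a ∈ D := by
        have h1 := (mem_filter.1 (mem_inter.1 ha').1).2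
        clear ha' hs
        induction h1 with
        | refl => exact hD
        | tail _ h2 ih => exact hcl _ ih _ h2.2
      exact mem_compl.1 hj (d2 a haD j (hs.mono (hq.sub a)))
    · right
      have hPD : ∀ a ∈ Pa, a ∉ D := fun a ha' haD => by
        have h1 : ∀ b, Relation.ReflTransGen (Arc lab G s.x s.v) a b → b ∈ D := fun b hb => by
          induction hb with
          | refl => exact haD
          | tail _ h2 ih => exact hcl _ ih _ h2
        exact hD (d3 u' (d2 y (h1 y (t.toy a ha')) _ ha.2))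
      refine ⟨⟨D, Hs, d1, fun a ha' j hj => ?_, fun w hw => ?_, d4⟩,
        eq_empty_of_forall_notMem fun b hb => ?_⟩
      · simp only [nxt] at hj
        rw [t.off a fun h => hPD a h ha'] at hj
        exact d2 a ha' j (hj.mono (hq.sub a))
      · simp only [nxt] at hw
        by_cases hwP : w ∈ Pa
        · rw [t.lb w hwP] at hw
          rcases t.sm' hwP with h1 | h1
          · exact absurd (d3 _ hw) (hPD _ h1)
          · exact absurd (h1 ▸ d3 _ hw) hD
        · rw [t.off w hwP] at hw; exact d3 w hw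
      · obtain ⟨b1, -, k, hk1, b2⟩ := hfr b hb
        exact hPD b b1 (d3 b (d2 k (d1 hk1) _ (b2.mono (hq.sub k))))
  by_cases hemp : Cen lab x0 (nxt s G x' u' Pa) K \ s.Ch = ∅
  · rw [hemp, card_empty] at hc
    exact ⟨e, e1, hc.trans e2, hold.imp id And.left⟩
  have hde : d < e := hold.resolve_right fun h => hemp h.2
  obtain ⟨a0, ha0, hmin⟩ := exists_min_image _ δ (nonempty_iff_ne_empty.2 hemp)
  obtain ⟨a1, ⟨k0, hk0, a2⟩, -⟩ := hfr a0 ha0
  have hcnt : (Cen lab x0 (nxt s G x' u' Pa) K \ s.Ch).card ≤ 2 * j₀ + 4 := by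
    have h1 := card_le_card_of_injOn (t := Icc (δ a0) (δ a0 + (2 * j₀ + 3))) δ
      (s := Cen lab x0 (nxt s G x' u' Pa) K \ s.Ch) (fun b hb => ?_)
      (t.dinj.mono fun b hb => mem_coe.2 (hfr b (mem_coe.1 hb)).1)
    · rw [Nat.card_Icc] at h1; omega
    · have hb' := mem_coe.1 hb
      refine mem_coe.2 (mem_Icc.2 ⟨hmin b hb', ?_⟩)
      by_cases hbv : b = s.v
      · rw [hbv, t.d0]; omega
      · obtain ⟨-, -, k, hk1, b2⟩ := hfr b hb'
        have h2 := ((Wk.single a2).trans (hKw k0 hk0 k hk1)).trans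
          (Wk.single (E := Arc lab G s.x s.v) ⟨hbv, b2⟩)
        have := t.dw a0 a1 b _ h2
        omega
  refine ⟨d, by omega, ?_, Or.inr ⟨S.erase y, (S.erase s.v).image fun w => lab w (s.x w),
    fun k hk1 => ?_, fun a ha' j hj => ?_, fun w hw => ?_, ?_⟩⟩
  · have h1 : Fintype.card ι + 1 - e + 1 ≤ Fintype.card ι + 1 - d := by omega
    have h2 := Nat.mul_le_mul_left (2 * j₀ + 4) h1
    rw [Nat.mul_succ] at h2
    omega
  · refine mem_erase.2 ⟨fun e => (hKP k hk1).2 (e ▸ t.hy), mem_Rch.2 ?_⟩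
    exact ((mem_Rch.1 (t.sub a1)).tail a2).trans (hKw k0 hk0 k hk1).reach
  · simp only [nxt] at hj
    obtain ⟨h1, h2⟩ := mem_erase.1 ha'
    obtain ⟨w, w1, rfl⟩ := h.inj.surj p.hcard j
    have h3 : Sees (lab a) (G a) (s.x a) (lab w (s.x w)) :=
      hj.congr (by rw [hq.ne a h1]; exact (t.cube a).symm)
    exact mem_image_of_mem _ (mem_erase.2 ⟨w1, mem_Rch.2 ((mem_Rch.1 h2).tail ⟨w1, h3⟩)⟩)
  · simp only [nxt] at hw
    obtain ⟨z, hz1, hz2⟩ := mem_image.1 hw
    obtain ⟨z1, z2⟩ := mem_erase.1 hz1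
    by_cases hwP : w ∈ Pa
    · rw [t.lb w hwP] at hz2
      have h1 := h.inj _ _ z1 (t.sv w hwP) hz2
      refine mem_erase.2 ⟨fun e => hu ?_, t.sub hwP⟩
      rw [← t.sy, ← e, ← h1]; exact z2
    · rw [t.off w hwP] at hz2
      have h1 := h.inj _ w z1 (fun e => hwP (e ▸ t.hv)) hz2
      exact mem_erase.2 ⟨fun e => hwP (e ▸ t.hy), h1 ▸ z2⟩
  · have h1 : s.v ∈ S := mem_Rch.2 .refl
    rw [card_compl, h.inj.card_image (notMem_erase _ _), card_erase_of_mem h1]
    have h2 : lev G d ⊆ (S ∩ lev G d) ∪ Sᶜ := fun w hw => by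
      by_cases h3 : w ∈ S
      · exact mem_union_left _ (mem_inter.2 ⟨h3, hw⟩)
      · exact mem_union_right _ (mem_compl.2 h3)
    have h3 := (card_le_card h2).trans (card_union_le _ _)
    have h4 := hF.trans ((card_le_card (hq.lev_sub d)).trans (card_insert_le _ _))
    have h5 := card_compl S
    have h6 := p.hcard
    have h7 := card_pos.2 ⟨_, h1⟩
    omega

end Pool.Agent.P.MP_0f6e60_lc.T
end

-- part Pool.Agent.P.MP_0f6e60_lc.TDyn
section

namespace Pool.Agent.P.MP_0f6e60_lc.T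

open Finset Classical

variable {P H ι : Type} [Fintype P] [Fintype H] [Fintype ι]
  [DecidableEq P] [DecidableEq H] [DecidableEq ι]

section

variable {lab : P → (ι → Bool) → H} {m : ℕ → ℕ} {L j₀ : ℕ} {x0 : P → ι → Bool} {v0 : P}
  {q : (P → ι → Bool) → ℕ → Option (P × ι)} {Tm : ℕ}

theorem ks_of_not_bad (hT : ∀ x u, Fz q 0 x u Tm = ∅) (hL : 1 ≤ L) {x : P → ι → Bool}
    (hb : ¬ BadX lab q Tm m L x) {τ : ℕ} (hτ : τ ≤ Tm) :
    KS lab m L (fun u => Fz q 0 x u τ) x := by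
  intro μ h1 h2 A hA T hAc hTc
  by_contra hn
  refine hb ⟨μ, h1, h2, A, T, hAc, hTc, fun u hu => ?_⟩
  by_contra hbd
  obtain ⟨i, hi⟩ : (Fz q μ x u Tm).Nonempty :=
    card_pos.1 (by rw [card_Fz_end q μ x u (hT x u) h2]; omega)
  obtain ⟨j, hj, hs⟩ := sees_of_not_bd hbd hi
  exact hn ⟨u, hu, j, hj, hs.mono ((erase_subset _ _).trans
    (Fz_end_subset q μ x u hτ (mem_filter.1 (hA hu)).2))⟩

theorem kz_of_not_bad {x : P → ι → Bool} (hb : ¬ BadX lab q Tm m L x) {Z : P → Finset ι}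
    (hZ : ∀ u, ∃ σ ≤ Tm, Z u = Fz q 0 x u σ) : KZ lab m L Z x := by
  intro μ h1 h2 A T hAc hTc hA
  by_contra hn
  refine hb ⟨μ, h1, h2, A, T, hAc, hTc, fun u hu => ?_⟩
  obtain ⟨σ, s1, s2⟩ := hZ u
  have h3 : Fz q μ x u Tm = Z u := by rw [← hA u hu, s2]; exact Fz_end_eq q x u s1
  rw [h3]
  by_contra hbd
  exact hn ⟨u, hu, hbd⟩

theorem Inv.near {s : St P ι} {d : ℕ} (p : Par lab m L j₀ x0 v0) (h : Inv lab m L j₀ x0 s d)
    (hZ : ∀ u, ∃ σ ≤ Tm, s.Z u = Fz q 0 s.x u σ) :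
    Near q Tm ((L + 105) * Fintype.card P) s.x x0 := by
  have hz : ∀ u, (if u ∈ s.Ch then (s.Z u).card else 0) ≤ Fintype.card ι := fun u => by
    split_ifs
    · exact card_le_univ _
    · exact Nat.zero_le _
  refine ⟨fun u => if u ∈ s.Ch then (s.Z u).card else 0, hz, ?_, fun u => ?_⟩
  · refine (sum_le_levels _ _ L hz).trans ?_
    have h1 : ∑ μ ∈ Icc L (Fintype.card ι),
        (univ.filter fun u => μ ≤ if u ∈ s.Ch then (s.Z u).card else 0).card ≤
        ∑ μ ∈ Icc L (Fintype.card ι), 21 * m μ := by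
      refine sum_le_sum fun μ hμ => ?_
      obtain ⟨m1, m2⟩ := mem_Icc.1 hμ
      have h2 : (univ.filter fun u => μ ≤ if u ∈ s.Ch then (s.Z u).card else 0) ⊆
          s.Ch ∩ lev s.Z μ := fun u hu => by
        have h3 := (mem_filter.1 hu).2
        have := p.hL
        split_ifs at h3 with hc
        · exact mem_inter.2 ⟨hc, mem_lev.2 h3⟩
        · omega
      have h3 := card_le_card h2
      have h4 := card_le_card (inter_subset_right (s₁ := s.Ch) (s₂ := lev s.Z μ))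
      rcases h.jj μ m1 m2 with h5 | h5 <;> omega
    rw [← mul_sum] at h1
    have h2 := p.hsum L p.hLl
    have h3 := p.hmL
    rw [add_mul]
    omega
  · by_cases hc : u ∈ s.Ch
    · obtain ⟨σ, s1, s2⟩ := hZ u
      simp only [if_pos hc]
      rw [s2, Fz_end_eq q s.x u s1, ← s2]
      exact (h.zc u).2
    · rw [(h.unch u hc).1]; exact Cube.refl _ _

theorem Inv.no_coll {s : St P ι} {d : ℕ} (p : Par lab m L j₀ x0 v0) (h : Inv lab m L j₀ x0 s d)
    (hk : KS lab m L s.Fr s.x) {w : P} (hw : w ≠ s.v) (h1 : s.Fr s.v = ∅) (h2 : s.Fr w = ∅)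
    (h3 : lab s.v (s.x s.v) = lab w (s.x w)) : False := by
  have h4 : Rch lab s.Fr s.x s.v ⊆ {s.v, w} := fun b hb => by
    have hb' := mem_Rch.1 hb
    clear hb
    induction hb' with
    | refl => simp
    | @tail a b _ h5 ih =>
      obtain ⟨b1, c, c1, c2⟩ := h5
      have h6 : lab w (s.x w) = lab b (s.x b) := by
        rcases mem_insert.1 ih with e | e
        · subst e
          rw [h1] at c1
          rw [← h3, ← c2, show c = s.x s.v from funext fun i => c1 i (notMem_empty _)]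
        · rw [mem_singleton] at e
          subst e
          rw [h2] at c1
          rw [← c2, show c = s.x a from funext fun i => c1 i (notMem_empty _)]
      rw [← h.inj _ _ hw b1 h6]
      simp
  have h5 := (card_le_card h4).trans (card_le_two)
  have h6 := (h.reach_big p hk).2
  have h7 := p.hmL
  rw [card_compl] at h6
  omega

theorem Inv.stop {s : St P ι} {d τ : ℕ} (p : Par lab m L j₀ x0 v0)
    (hT : ∀ x u, Fz q 0 x u Tm = ∅) (h : Inv lab m L j₀ x0 s d) (hτ : τ ≤ Tm)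
    (hF : s.Fr = fun u => Fz q 0 s.x u τ) (hZ : ∀ u, ∃ σ ≤ τ, s.Z u = Fz q 0 s.x u σ) :
    (∃ x, Near q Tm ((L + 105) * Fintype.card P) x x0 ∧
      (BadX lab q Tm m L x ∨ DeepX lab q ((L + 25) * Fintype.card P) x)) ∨
    (¬ BadX lab q Tm m L s.x ∧ ∃ d', Inv lab m L j₀ x0 s d' ∧ L ≤ d' ∧
      5 * m d' ≤ (lev s.Fr d').card) := by
  have hN := h.near (q := q) (Tm := Tm) p fun u =>
    (hZ u).imp fun σ hσ => ⟨hσ.1.trans hτ, hσ.2⟩
  by_cases hb : BadX lab q Tm m L s.x
  · exact Or.inl ⟨_, hN, Or.inl hb⟩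
  obtain ⟨d', h', hd | hd⟩ := h.lower p.hL
  swap
  · exact Or.inr ⟨hb, d', h', hd⟩
  have hk : KS lab m L s.Fr s.x := by rw [hF]; exact ks_of_not_bad hT p.hL hb hτ
  have hF' : ∀ u, Fz q 0 s.x u τ = s.Fr u := fun u => by rw [hF]
  refine Or.inl ⟨_, hN, Or.inr ⟨τ, fun ⟨u, w, c1, c2, c3, c4⟩ => ?_, ?_⟩⟩
  · rw [hF'] at c2 c3
    by_cases hu : u = s.v
    · subst hu; exact h.no_coll p hk c1.symm c2 c3 c4
    by_cases hw : w = s.v
    · subst hw; exact h.no_coll p hk c1 c3 c2 c4.symm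
    exact c1 (h.inj u w hu hw c4)
  · simp only [hF']
    refine (sum_le_levels _ _ L fun u => card_le_univ (s.Fr u)).trans ?_
    have h1 : ∑ μ ∈ Icc L (Fintype.card ι), (univ.filter fun u => μ ≤ (s.Fr u).card).card ≤
        ∑ μ ∈ Icc L (Fintype.card ι), 5 * m μ := sum_le_sum fun μ hμ =>
      (h'.lv μ (hd.trans_le (mem_Icc.1 hμ).1) (mem_Icc.1 hμ).2).le
    rw [← mul_sum] at h1
    have h2 := p.hsum L p.hLl
    have h3 := p.hmL
    rw [add_mul]
    omega

theorem exists_qry (x : P → ι → Bool) (τ : ℕ) (v : P) (i0 : ι) :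
    ∃ y i, Qry (fun u => Fz q 0 x u τ) (fun u => Fz q 0 x u (τ + 1)) y i := by
  rcases hq : q x τ with _ | ⟨y, i⟩
  · refine ⟨v, i0, fun u => Fz_succ_subset q 0 x u τ, fun u _ => ?_, ?_⟩
    · simp [Fz_zero_succ, hq]
    · simp [Fz_zero_succ, hq, erase_subset]
  · refine ⟨y, i, fun u => Fz_succ_subset q 0 x u τ, fun u hu => ?_, fun k hk => ?_⟩
    · simp only [Fz_zero_succ, hq]
      exact filter_true_of_mem fun k _ e => hu (by simp at e; exact e.1.symm)
    · simp only [Fz_zero_succ, hq]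
      exact mem_filter.2 ⟨(mem_erase.1 hk).2, fun e => (mem_erase.1 hk).1
        (by simp at e; exact e.symm)⟩

end

theorem dyn (lab : P → (ι → Bool) → H) (q : (P → ι → Bool) → ℕ → Option (P × ι)) (Tm : ℕ)
    (hq : Adapt q) (hT : ∀ x u, Fz q 0 x u Tm = ∅)
    (hcard : Fintype.card P = Fintype.card H + 1) (m : ℕ → ℕ) (L j₀ : ℕ) (hL : 1 ≤ L)
    (hLl : L ≤ Fintype.card ι) (hanti : Antitone m) (hj : Fintype.card P < 2 ^ j₀)
    (hbig : (2 * j₀ + 4) * (Fintype.card ι + 1) ≤ m (Fintype.card ι))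
    (hsum : ∀ μ ≤ Fintype.card ι, ∑ l ∈ Icc μ (Fintype.card ι), m l ≤ 5 * m μ)
    (hmL : m L + 2 ≤ Fintype.card P) (x0 : P → ι → Bool) (v0 : P)
    (hinj : ∀ u w, u ≠ v0 → w ≠ v0 → lab u (x0 u) = lab w (x0 w) → u = w)
    (hreach : ∀ w, Relation.ReflTransGen (Arc lab (fun _ => univ) x0 v0) v0 w) :
    ∃ x, Near q Tm ((L + 105) * Fintype.card P) x x0 ∧
      (BadX lab q Tm m L x ∨ DeepX lab q ((L + 25) * Fintype.card P) x) := by
  have p : Par lab m L j₀ x0 v0 := ⟨hcard, hL, hLl, hanti, hj, hbig, hsum, hmL, hinj⟩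
  obtain ⟨i0⟩ : Nonempty ι := Fintype.card_pos_iff.1 (by omega)
  by_contra hn
  have key : ∀ τ ≤ Tm, ∃ (s : St P ι) (d : ℕ), Inv lab m L j₀ x0 s d ∧
      (s.Fr = fun u => Fz q 0 s.x u τ) ∧ ∀ u, ∃ σ ≤ τ, s.Z u = Fz q 0 s.x u σ := by
    intro τ
    induction τ with
    | zero =>
      refine fun _ => ⟨⟨fun _ => univ, x0, v0, ∅, fun _ => univ⟩, Fintype.card ι,
        ⟨le_rfl, hinj, fun _ _ => ⟨rfl, rfl⟩, fun _ => ⟨Subset.refl _, Cube.refl _ _⟩,
          fun l l1 l2 => by omega, ⟨_, le_rfl, hLl, le_rfl, ?_⟩, fun μ _ _ => Or.inl (by simp),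
          fun K _ => ⟨_, le_rfl, by simp [Cen], Or.inl (Nat.lt_succ_self _)⟩⟩,
        rfl, fun u => ⟨0, le_rfl, rfl⟩⟩
      have h1 : Rch lab (fun _ => univ) x0 v0 ∩ lev (fun _ : P => (univ : Finset ι))
          (Fintype.card ι) = univ :=
        eq_univ_of_forall fun w => mem_inter.2 ⟨mem_Rch.2 (hreach w), mem_lev.2 le_rfl⟩
      have h2 := hanti hLl
      dsimp only
      rw [h1, card_univ]
      omega
    | succ τ ih =>
      intro hτ
      obtain ⟨s, d, h, hF, hZ⟩ := ih (by omega)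
      obtain ⟨hb, d', h', hd, h5⟩ := (h.stop p hT (by omega) hF hZ).resolve_left hn
      have hk : KS lab m L s.Fr s.x := by rw [hF]; exact ks_of_not_bad hT hL hb (by omega)
      have hk' := ks_of_not_bad hT hL hb hτ
      have hz : KZ lab m L s.Z s.x := kz_of_not_bad hb fun u =>
        (hZ u).imp fun σ hσ => ⟨by omega, hσ.2⟩
      obtain ⟨y, i, hy⟩ := exists_qry (q := q) s.x τ s.v i0
      rw [← hF] at hy
      obtain ⟨x', v', Pa, c, hi⟩ : ∃ x' v' Pa, (∀ u, Cube (s.Fr u) (s.x u) (x' u)) ∧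
          Inv lab m L j₀ x0 (nxt s (fun u => Fz q 0 s.x u (τ + 1)) x' v' Pa) d' := by
        by_cases hrc : m d' ≤ (Rch lab (fun u => Fz q 0 s.x u (τ + 1)) s.x s.v ∩
            lev (fun u => Fz q 0 s.x u (τ + 1)) d').card
        · exact ⟨_, _, _, fun u => Cube.refl _ _, h'.step_keep p hk hz hy.sub hd hrc⟩
        · exact h'.step_dev p hk hz hy hk' hd h5 (not_le.1 hrc)
      rw [hF] at c
      refine ⟨_, d', hi, funext fun u => (hq.Fz_eq c 0 u le_rfl).symm, fun u => ?_⟩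
      simp only [nxt]
      split_ifs
      · obtain ⟨σ, s1, s2⟩ := hZ u
        exact ⟨σ, by omega, s2.trans (hq.Fz_eq c 0 u (by omega)).symm⟩
      · exact ⟨τ + 1, le_rfl, (hq.Fz_eq c 0 u le_rfl).symm⟩
  obtain ⟨s, d, h, hF, hZ⟩ := key Tm le_rfl
  obtain ⟨-, d', h', hd, h5⟩ := (h.stop p hT le_rfl hF hZ).resolve_left hn
  have h1 : lev s.Fr d' = ∅ := eq_empty_of_forall_notMem fun u hu => by
    have h2 := mem_lev.1 hu
    rw [hF] at h2
    simp only [hT, card_empty] at h2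
    omega
  have h2 := p.one_le h'.dl
  rw [h1, card_empty] at h5
  omega

end Pool.Agent.P.MP_0f6e60_lc.T
end

-- part Pool.Agent.P.MP_0f6e60_lc.TMain
section

namespace Pool.Agent.P.MP_0f6e60_lc.T

open Finset Classical

variable {P H ι : Type} [Fintype P] [Fintype H] [Fintype ι]
  [DecidableEq P] [DecidableEq H] [DecidableEq ι]

omit [Fintype P] [Fintype H] [DecidableEq P] [DecidableEq H] in
theorem tmain_flip (b : ι → Bool) (i : ι) :
    OddPt (Function.update b i (!b i)) ↔ ¬ OddPt b := by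
  unfold OddPt
  cases hb : b i
  · have : (univ.filter fun j => Function.update b i (!false) j = true) =
        insert i (univ.filter fun j => b j = true) := by
      ext j
      by_cases hj : j = i
      · subst hj; simp
      · simp [hj]
    rw [this, card_insert_of_notMem (by simp [hb]), Nat.odd_add_one]
  · have : (univ.filter fun j => b j = true) =
        insert i (univ.filter fun j => Function.update b i (!true) j = true) := by
      ext j
      by_cases hj : j = i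
      · subst hj; simp [hb]
      · simp [hj]
    rw [this, card_insert_of_notMem (by simp), Nat.odd_add_one, not_not]

omit [Fintype P] [Fintype H] [DecidableEq P] [DecidableEq H] in
theorem tmain_even (i0 i1 : ι) (h01 : i0 ≠ i1) :
    2 ^ Fintype.card ι ≤
      4 * (univ.filter fun a : ι → Bool => ¬ OddPt a ∧ a i0 = false).card := by
  let fx : (ι → Bool) → ι → Bool := fun b =>
    if OddPt b then Function.update b i1 (!b i1) else b
  have hfx : ∀ b j, j ≠ i1 → fx b j = b j := by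
    intro b j hj
    simp only [fx]
    split_ifs
    · rw [Function.update_of_ne hj]
    · rfl
  have hev : ∀ b, ¬ OddPt (fx b) := by
    intro b
    simp only [fx]
    split_ifs with h
    · rw [tmain_flip]; exact not_not.2 h
    · exact h
  have h1 : (univ : Finset (ι → Bool)).card ≤
      ((univ.filter fun a : ι → Bool => ¬ OddPt a ∧ a i0 = false) ×ˢ
        (univ : Finset (Bool × Bool))).card := by
    refine card_le_card_of_injOn
      (fun a => (fx (Function.update a i0 false), a i0, a i1)) (fun a _ => ?_) ?_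
    · simp only [coe_product, Set.mem_prod, mem_coe, mem_filter, mem_univ, true_and, and_true]
      exact ⟨hev _, by rw [hfx _ _ h01]; simp⟩
    · intro a _ a' _ h
      simp only [Prod.mk.injEq] at h
      funext j
      by_cases hj0 : j = i0
      · rw [hj0]; exact h.2.1
      by_cases hj1 : j = i1
      · rw [hj1]; exact h.2.2
      have := congrFun h.1 j
      rwa [hfx _ _ hj1, hfx _ _ hj1, Function.update_of_ne hj0, Function.update_of_ne hj0] at this
  rw [card_product] at h1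
  simp only [card_univ, Fintype.card_pi, Fintype.card_bool, prod_const, Fintype.card_prod] at h1
  omega

omit [DecidableEq P] [DecidableEq H] [DecidableEq ι] in
theorem tmain_form {n : ℕ} (lab : P → (ι → Bool) → H) (enc : P × ι → Fin n)
    (hc : Fintype.card H < Fintype.card P) :
    ∃ F : Finset (Finset (Fin n × Bool)), (∀ D ∈ F, D.card ≤ 2 * Fintype.card ι) ∧
      (∀ a : Fin n → Bool, ∃ D ∈ F, ∀ l ∈ D, a l.1 ≠ l.2) ∧
      ∀ D ∈ F, ∃ (u w : P) (a b : ι → Bool), u ≠ w ∧ lab u a = lab w b ∧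
        (∀ i, (enc (u, i), !a i) ∈ D) ∧ ∀ i, (enc (w, i), !b i) ∈ D := by
  refine ⟨univ.filter fun D => ∃ (u w : P) (a b : ι → Bool), u ≠ w ∧ lab u a = lab w b ∧
    D = univ.image (fun i => (enc (u, i), !a i)) ∪ univ.image (fun i => (enc (w, i), !b i)),
    ?_, ?_, ?_⟩
  · intro D hD
    obtain ⟨u, w, a, b, -, -, rfl⟩ := (mem_filter.1 hD).2
    refine (card_union_le _ _).trans ?_
    have h1 := card_image_le (s := (univ : Finset ι)) (f := fun i => (enc (u, i), !a i))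
    have h2 := card_image_le (s := (univ : Finset ι)) (f := fun i => (enc (w, i), !b i))
    rw [card_univ] at h1 h2
    omega
  · intro a
    obtain ⟨u, w, huw, h⟩ := Fintype.exists_ne_map_eq_of_card_lt
      (fun u => lab u fun i => a (enc (u, i))) hc
    refine ⟨_, mem_filter.2 ⟨mem_univ _, u, w, _, _, huw, h, rfl⟩, fun l hl => ?_⟩
    rcases mem_union.1 hl with hl | hl <;> obtain ⟨i, -, rfl⟩ := mem_image.1 hl <;> simp
  · intro D hD
    obtain ⟨u, w, a, b, h1, h2, rfl⟩ := (mem_filter.1 hD).2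
    exact ⟨u, w, a, b, h1, h2, fun i => mem_union_left _ (mem_image.2 ⟨i, mem_univ _, rfl⟩),
      fun i => mem_union_right _ (mem_image.2 ⟨i, mem_univ _, rfl⟩)⟩

omit [Fintype H] [DecidableEq H] in
theorem tmain_count (q : (P → ι → Bool) → ℕ → Option (P × ι)) (Tm B : ℕ)
    (hT : ∀ x u, Fz q 0 x u Tm = ∅) (A0 X Y : Finset (P → ι → Bool))
    (h : ∀ x0 ∈ A0, ∃ x, Near q Tm B x x0 ∧ (x ∈ X ∨ x ∈ Y)) :
    A0.card ≤ (X.card + Y.card) * (4 ^ B * 2 ^ Fintype.card P) := by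
  have h1 : A0 ⊆ (X ∪ Y).biUnion fun x => univ.filter fun x0 => Near q Tm B x x0 := by
    intro x0 hx0
    obtain ⟨x, h2, h3⟩ := h x0 hx0
    exact mem_biUnion.2 ⟨x, mem_union.2 h3, mem_filter.2 ⟨mem_univ _, h2⟩⟩
  refine (card_le_card h1).trans ((card_biUnion_le_card_mul _ _ _
    fun x _ => card_near q Tm B hT x).trans ?_)
  exact Nat.mul_le_mul_right _ (card_union_le _ _)

theorem tmain_num (a b d s l r L : ℕ) (hL : 105 ≤ L) (hr : 1 ≤ r)
    (h1 : 2 ^ (l * r) ≤ 4 ^ r * a) (h2 : a ≤ (b + d) * (4 ^ ((L + 105) * r) * 2 ^ r))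
    (h3 : b * 2 ^ (5 * L * r) ≤ (l + 1) * 4 ^ r * 2 ^ (l * r)) (h4 : l + 1 < 2 ^ r)
    (h5 : d ≤ s * 2 ^ ((L + 25) * r)) : 2 ^ (l * r) ≤ s * 2 ^ ((5 * L + 29) * r) := by
  have e4 : ∀ t : ℕ, 4 ^ t = 2 ^ (2 * t) := fun t => by rw [pow_mul]; norm_num
  have hLr : 105 * r ≤ L * r := Nat.mul_le_mul_right _ hL
  have k1 : 4 ^ r * (4 ^ ((L + 105) * r) * 2 ^ r) ≤ 2 ^ ((4 * L + 3) * r) := by
    rw [e4, e4, ← pow_add, ← pow_add]
    exact Nat.pow_le_pow_right (by norm_num) (by nlinarith)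
  have k2 : 2 * 2 ^ ((4 * L + 3) * r) * 2 ^ (3 * r) ≤ 2 ^ (5 * L * r) := by
    rw [← pow_succ', ← pow_add]
    exact Nat.pow_le_pow_right (by norm_num) (by nlinarith)
  have k3 : (l + 1) * 4 ^ r ≤ 2 ^ (3 * r) := by
    calc (l + 1) * 4 ^ r ≤ 2 ^ r * 4 ^ r := Nat.mul_le_mul_right _ h4.le
      _ = 2 ^ (3 * r) := by rw [e4, ← pow_add]; congr 1; ring
  have k4 : 2 * 2 ^ ((L + 25) * r) * 2 ^ ((4 * L + 3) * r) ≤ 2 ^ ((5 * L + 29) * r) := by
    rw [← pow_succ', ← pow_add]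
    exact Nat.pow_le_pow_right (by norm_num) (by nlinarith)
  generalize 2 ^ (l * r) = X at *
  generalize 2 ^ ((4 * L + 3) * r) = M at *
  have k5 : X ≤ (b + d) * M := by
    calc X ≤ 4 ^ r * a := h1
      _ ≤ 4 ^ r * ((b + d) * (4 ^ ((L + 105) * r) * 2 ^ r)) := Nat.mul_le_mul_left _ h2
      _ = (b + d) * (4 ^ r * (4 ^ ((L + 105) * r) * 2 ^ r)) := by ring
      _ ≤ (b + d) * M := Nat.mul_le_mul_left _ k1
  have k6 : 2 * (b * M) ≤ X := by
    refine Nat.le_of_mul_le_mul_right (c := 2 ^ (3 * r)) ?_ (by positivity)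
    calc 2 * (b * M) * 2 ^ (3 * r) = b * (2 * M * 2 ^ (3 * r)) := by ring
      _ ≤ b * 2 ^ (5 * L * r) := Nat.mul_le_mul_left _ k2
      _ ≤ (l + 1) * 4 ^ r * X := h3
      _ ≤ 2 ^ (3 * r) * X := Nat.mul_le_mul_right _ k3
      _ = X * 2 ^ (3 * r) := mul_comm _ _
  have k7 : X ≤ 2 * (d * M) := by
    rw [add_mul] at k5
    omega
  calc X ≤ 2 * (d * M) := k7
    _ ≤ 2 * (s * 2 ^ ((L + 25) * r) * M) := Nat.mul_le_mul_left _ (Nat.mul_le_mul_right _ h5)
    _ = s * (2 * 2 ^ ((L + 25) * r) * M) := by ring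
    _ ≤ s * 2 ^ ((5 * L + 29) * r) := Nat.mul_le_mul_left _ k4

theorem tmain_real (s k n l r c : ℕ) (hk : 0 < k) (h1 : 2 ^ (l * r) ≤ s * 2 ^ (c * r))
    (h2 : k * n + k * (c * r) ≤ k * (l * r) + (3 * c + 1) * n) :
    (2 : ℝ) ^ ((1 - ((3 * c + 1 : ℕ) : ℝ) / (k : ℝ)) * (n : ℝ)) ≤ (s : ℝ) := by
  have hk' : (0 : ℝ) < k := by exact_mod_cast hk
  have h3 : (1 - ((3 * c + 1 : ℕ) : ℝ) / (k : ℝ)) * (n : ℝ) ≤
      ((l * r : ℕ) : ℝ) - ((c * r : ℕ) : ℝ) := by
    have h4 : (k : ℝ) * n + k * ((c * r : ℕ) : ℝ) ≤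
        k * ((l * r : ℕ) : ℝ) + ((3 * c + 1 : ℕ) : ℝ) * n := by exact_mod_cast h2
    refine le_of_mul_le_mul_left ?_ hk'
    have : (k : ℝ) * ((1 - ((3 * c + 1 : ℕ) : ℝ) / (k : ℝ)) * (n : ℝ)) =
        k * n - ((3 * c + 1 : ℕ) : ℝ) * n := by field_simp
    rw [this]
    linarith
  refine (Real.rpow_le_rpow_of_exponent_le (by norm_num) h3).trans ?_
  rw [Real.rpow_sub (by norm_num), Real.rpow_natCast, Real.rpow_natCast,
    div_le_iff₀ (by positivity)]
  exact_mod_cast h1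

/-- Labels of the even points: the own hole or the previous hole. -/
def tmainF {h : ℕ} (hh : 1 ≤ h) (i0 : ι) (u : Fin (h + 1)) (a : ι → Bool) : Fin h :=
  if a i0 = false then ⟨min u (h - 1), by omega⟩ else ⟨u - 1, by omega⟩

omit [Fintype P] [Fintype H] [DecidableEq P] [DecidableEq H] in
theorem tmain_start {h : ℕ} (hh : 1 ≤ h) (i0 i1 : ι) (h01 : i0 ≠ i1)
    (Γ : Fin (h + 1) → (ι → Bool) → Fin h) (x0 : Fin (h + 1) → ι → Bool)
    (hx : ∀ u, ¬ OddPt (x0 u) ∧ x0 u i0 = false) :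
    (∀ u w, u ≠ Fin.last h → w ≠ Fin.last h →
      mixLab (tmainF hh i0 u) (Γ u) (x0 u) = mixLab (tmainF hh i0 w) (Γ w) (x0 w) → u = w) ∧
    ∀ w, Relation.ReflTransGen (Arc (fun u => mixLab (tmainF hh i0 u) (Γ u)) (fun _ => univ) x0
      (Fin.last h)) (Fin.last h) w := by
  have hv : ∀ u, (mixLab (tmainF hh i0 u) (Γ u) (x0 u)).val = min u.val (h - 1) := by
    intro u
    simp only [mixLab, if_neg (hx u).1, tmainF, if_pos (hx u).2]
  constructor
  · intro u w hu hw e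
    have h1 := hv u
    have h2 := hv w
    have h3 := Fin.val_lt_last hu
    have h4 := Fin.val_lt_last hw
    rw [e] at h1
    exact Fin.ext (by omega)
  · intro w
    induction w using Fin.reverseInduction with
    | last => exact Relation.ReflTransGen.refl
    | cast i ih =>
      refine ih.tail ⟨(Fin.castSucc_lt_last i).ne, ?_⟩
      set a := x0 i.succ with ha
      set b := Function.update a i0 (!a i0) with hb
      refine ⟨Function.update b i1 (!b i1), fun j hj => absurd (mem_univ j) hj, Fin.ext ?_⟩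
      have h1 : ¬ OddPt (Function.update b i1 (!b i1)) := by
        rw [tmain_flip, not_not, hb, tmain_flip]; exact (hx _).1
      have h2 : ¬ Function.update b i1 (!b i1) i0 = false := by
        rw [Function.update_of_ne h01, hb, Function.update_self, ha, (hx _).2]; simp
      rw [hv]
      simp only [mixLab, if_neg h1, tmainF, if_neg h2, Fin.val_succ, Fin.val_castSucc]
      omega

theorem tree_main : ∃ C : ℝ, ∃ k₀ : ℕ, ∀ k : ℕ, k₀ ≤ k → ∃ n₀ : ℕ, ∀ n : ℕ, n₀ ≤ n →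
    ∃ F : Finset (Finset (Fin n × Bool)),
      (∀ D ∈ F, D.card ≤ k) ∧
      (∀ a : Fin n → Bool, ∃ D ∈ F, ∀ l ∈ D, a l.1 ≠ l.2) ∧
      ∀ (s : ℕ) (Pc : Fin s → Finset (Fin n × Bool))
        (J : Fin s → Option (Fin s × Fin s × Fin n)),
        (∃ i : Fin s, Pc i = ∅) →
        (∀ i : Fin s, J i = none → Pc i ∈ F) →
        (∀ (i j l : Fin s) (x : Fin n), J i = some (j, l, x) → j < i ∧ l < i ∧
          Pc i = (Pc j).erase (x, true) ∪ (Pc l).erase (x, false)) →
        (∀ (i j l : Fin s) (x : Fin n), J i = some (j, l, x) → j ≠ l) →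
        (∀ (i i' j l : Fin s) (x : Fin n) (j' l' : Fin s) (x' : Fin n) (c : Fin s),
          J i = some (j, l, x) → J i' = some (j', l', x') →
          (c = j ∨ c = l) → (c = j' ∨ c = l') → i = i') →
        (2 : ℝ) ^ ((1 - C / (k : ℝ)) * (n : ℝ)) ≤ (s : ℝ) := by
  obtain ⟨L0, -, hlab⟩ := exists_lab
  obtain ⟨L, hL0, hL⟩ : ∃ L, L0 ≤ L ∧ 105 ≤ L := ⟨max L0 105, le_max_left _ _, le_max_right _ _⟩
  refine ⟨((3 * (5 * L + 29) + 1 : ℕ) : ℝ), 2 * L, fun k hk => ?_⟩
  obtain ⟨l, hl1, hl2⟩ : ∃ l, 2 * l ≤ k ∧ k ≤ 2 * l + 1 := ⟨k / 2, by omega, by omega⟩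
  obtain ⟨r0, hr0⟩ := mN_props l L (by omega)
  refine ⟨max (k * k) (l * (r0 + 2)), fun n hn => ?_⟩
  have hn1 : k * k ≤ n := (le_max_left _ _).trans hn
  have hn2 : l * (r0 + 2) ≤ n := (le_max_right _ _).trans hn
  have hl0 : 0 < l := by omega
  have hr : r0 + 2 ≤ n / l := (Nat.le_div_iff_mul_le hl0).2 (by rwa [mul_comm])
  obtain ⟨h, hh⟩ : ∃ h, n / l = h + 1 := ⟨n / l - 1, by omega⟩
  have hh1 : 1 ≤ h := by omega
  have hle : (h + 1) * l ≤ n := hh ▸ Nat.div_mul_le_self n l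
  have hlt : n < (h + 1) * l + l := hh ▸ Nat.lt_div_mul_add hl0
  obtain ⟨j0, hj, hbig, hsum, hmL, hlr⟩ := hr0 (h + 1) (by omega)
  let i0 : Fin l := ⟨0, hl0⟩
  let i1 : Fin l := ⟨1, by omega⟩
  have h01 : i0 ≠ i1 := by simp [i0, i1]
  have : Nonempty (Fin h) := ⟨⟨0, hh1⟩⟩
  obtain ⟨Γ, hΓ⟩ := hlab (Fin (h + 1)) (Fin h) (Fin l) (tmainF hh1 i0) (by simp)
    (by simpa using hlr)
  let lab : Fin (h + 1) → (Fin l → Bool) → Fin h := fun u => mixLab (tmainF hh1 i0 u) (Γ u)
  let enc : Fin (h + 1) × Fin l → Fin n := fun p => Fin.castLE hle (finProdFinEquiv p)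
  have henc : Function.Injective enc :=
    (Fin.castLE_injective hle).comp finProdFinEquiv.injective
  obtain ⟨F, hF1, hF2, hF3⟩ := tmain_form lab enc (by simp)
  refine ⟨F, fun D hD => (hF1 D hD).trans (by simpa using hl1), hF2,
    fun s Pc J h0 hax hres hne htree => ?_⟩
  obtain ⟨q, Tm, hq, hT, hdeep⟩ := tree_system lab enc henc F hF3 Pc J h0 hax hres hne htree
  have hbad := card_badX lab q Tm hq hT L (by simp)
    fun μ h1 h2 T h3 => hΓ μ (hL0.trans h1) h2 T h3
  have hcnt := tmain_count q Tm ((L + 105) * Fintype.card (Fin (h + 1))) hT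
    (Fintype.piFinset fun _ => univ.filter fun a : Fin l → Bool => ¬ OddPt a ∧ a i0 = false)
    (univ.filter fun x => BadX lab q Tm (mN (Fintype.card (Fin (h + 1)))) L x)
    (univ.filter fun x => DeepX lab q ((L + 25) * Fintype.card (Fin (h + 1))) x) (by
      intro x0 hx0
      have hx : ∀ u, ¬ OddPt (x0 u) ∧ x0 u i0 = false := fun u =>
        (mem_filter.1 (Fintype.mem_piFinset.1 hx0 u)).2
      obtain ⟨h1, h2⟩ := tmain_start hh1 i0 i1 h01 Γ x0 hx
      obtain ⟨x, h3, h4⟩ := dyn lab q Tm hq hT (by simp) (mN (Fintype.card (Fin (h + 1)))) L j0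
        (by omega) (by simp only [Fintype.card_fin]; omega) (mN_anti _) (by simpa using hj)
        (by simpa only [Fintype.card_fin] using hbig) (by simpa only [Fintype.card_fin] using hsum)
        (by simpa only [Fintype.card_fin] using hmL) x0 (Fin.last h) h1 h2
      exact ⟨x, h3, by simpa only [mem_filter, mem_univ, true_and] using h4⟩)
  have hE := tmain_even i0 i1 h01
  have hd := hdeep ((L + 25) * Fintype.card (Fin (h + 1)))
  rw [Fintype.card_piFinset, prod_const, card_univ] at hcnt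
  simp only [Fintype.card_fin] at hcnt hbad hE hd
  have hmain := tmain_num _ _ _ s l (h + 1) L hL (by omega)
    (by rw [pow_mul, ← mul_pow]; exact Nat.pow_le_pow_left hE _) hcnt hbad hlr hd
  refine tmain_real s k n l (h + 1) _ (by omega) hmain ?_
  have e1 : k * n ≤ k * (l * (h + 1)) + n := by
    calc k * n ≤ k * (l * (h + 1) + l) := Nat.mul_le_mul_left _ (by rw [mul_comm l]; omega)
      _ = k * (l * (h + 1)) + k * l := by ring
      _ ≤ k * (l * (h + 1)) + k * k := Nat.add_le_add_left (Nat.mul_le_mul_left _ (by omega)) _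
      _ ≤ _ := Nat.add_le_add_left hn1 _
  have e2 : k * (h + 1) ≤ 3 * n := by
    calc k * (h + 1) ≤ (3 * l) * (h + 1) := Nat.mul_le_mul_right _ (by omega)
      _ = 3 * ((h + 1) * l) := by ring
      _ ≤ 3 * n := Nat.mul_le_mul_left _ hle
  have e3 : k * ((5 * L + 29) * (h + 1)) ≤ 3 * (5 * L + 29) * n := by
    calc k * ((5 * L + 29) * (h + 1)) = (5 * L + 29) * (k * (h + 1)) := by ring
      _ ≤ (5 * L + 29) * (3 * n) := Nat.mul_le_mul_left _ e2
      _ = _ := by ring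
  rw [add_mul (3 * (5 * L + 29)), one_mul]
  omega

end Pool.Agent.P.MP_0f6e60_lc.T
end
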